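import Pool.Agent.W517.Gr.Est

set_option autoImplicit false

namespace Pool.Agent.W517.Gr

open Finset Filter Topology
open scoped ContDiff ComplexOrder Matrix

theorem sum_reindex {n : ℕ} (S : Fin n → Fin n → Fin n → Fin n → ℂ) (κ : ℂ) :
    ∑ σ : Equiv.Perm (Fin n), ((Equiv.Perm.sign σ : ℤ) : ℂ) * (κ *
      ∑ α : Equiv.Perm (Fin n), ∑ ρ : Equiv.Perm (Fin n),
        ((Equiv.Perm.sign α : ℤ) : ℂ) * ((Equiv.Perm.sign ρ : ℤ) : ℂ) *
          ∏ k, S (α k) (ρ k) k (σ k)) = κ * hdet S := by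
  have h1 : hdet S = ∑ α : Equiv.Perm (Fin n), ∑ ρ : Equiv.Perm (Fin n),
      ∑ σ : Equiv.Perm (Fin n), ((Equiv.Perm.sign σ : ℤ) : ℂ) *
        (((Equiv.Perm.sign α : ℤ) : ℂ) * ((Equiv.Perm.sign ρ : ℤ) : ℂ) *
          ∏ k, S (α k) (ρ k) k (σ k)) := by
    unfold hdet
    rw [Finset.sum_comm, ← Equiv.sum_comp (Equiv.inv (Equiv.Perm (Fin n)))]
    refine Finset.sum_congr rfl fun α _ => ?_
    rw [← Equiv.sum_comp (Equiv.mulRight (α⁻¹ : Equiv.Perm (Fin n)))]
    refine Finset.sum_congr rfl fun ρ _ => ?_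
    rw [← Equiv.sum_comp (Equiv.mulRight (α⁻¹ : Equiv.Perm (Fin n)))]
    refine Finset.sum_congr rfl fun σ _ => ?_
    simp only [Equiv.coe_mulRight, Equiv.inv_apply, Equiv.Perm.sign_mul, Equiv.Perm.sign_inv]
    have h2 : ∏ a, S a ((ρ * α⁻¹) a) (α⁻¹ a) ((σ * α⁻¹) a) = ∏ k, S (α k) (ρ k) k (σ k) := by
      rw [← Equiv.prod_comp α]
      refine Finset.prod_congr rfl fun k _ => ?_
      simp
    rw [h2]
    have h3 : ((Equiv.Perm.sign α : ℤ) : ℂ) * ((Equiv.Perm.sign α : ℤ) : ℂ) = 1 := by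
      rw [← Int.cast_mul, ← Units.val_mul, Int.units_mul_self]
      simp
    push_cast
    linear_combination (((Equiv.Perm.sign ρ : ℤ) : ℂ) * ((Equiv.Perm.sign α : ℤ) : ℂ) *
      ((Equiv.Perm.sign σ : ℤ) : ℂ) * ∏ k, S (α k) (ρ k) k (σ k)) * h3
  rw [h1, Finset.mul_sum]
  simp only [Finset.mul_sum]
  rw [Finset.sum_comm]
  refine Finset.sum_congr rfl fun α _ => ?_
  rw [Finset.sum_comm]
  refine Finset.sum_congr rfl fun ρ _ => Finset.sum_congr rfl fun σ _ => ?_
  ring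

/-- fibre weights squared -/
def t2 : Fin 8 → ℤ := ![4, 4, 4, 1, 1, 1, 1, 2]

/-- tangent weights -/
def cw : Fin 8 → ℤ := ![1, 1, 1, 1, 1, 1, 2, 2]

theorem row_id : ∀ a b : Fin 8, ∑ i, cw i * cw i * R0 a b i i * t2 a = if a = b then 8 else 0 := by
  decide +kernel

theorem col_id : ∀ i j : Fin 8, ∑ a, t2 a * R0 a a i j * (cw i * cw j) = if i = j then 8 else 0 := by
  decide +kernel

/-- fibre weights -/
noncomputable def tw (a : Fin 8) : ℝ := Real.sqrt (t2 a)

theorem tw_sq (a : Fin 8) : tw a * tw a = t2 a := by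
  refine Real.mul_self_sqrt ?_
  fin_cases a <;> simp [t2]

/-- The scaled tensor. -/
noncomputable def SS (δ : ℝ) (a b i j : Fin 8) : ℝ :=
  (1 - δ) * (tw a * tw b * (cw i * cw j) * R0 a b i j) +
    δ * (if a = b then 1 else 0) * (if i = j then 1 else 0)

theorem SS_symm (δ : ℝ) (α β i j : Fin 8) : SS δ β α j i = SS δ α β i j := by
  unfold SS
  rw [R0_symm]
  simp only [eq_comm]
  ring

theorem SS_row (δ : ℝ) (a b : Fin 8) : ∑ i, SS δ a b i i = if a = b then 8 else 0 := by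
  unfold SS
  rw [Finset.sum_add_distrib, ← Finset.mul_sum]
  have h1 : ∑ i, tw a * tw b * (cw i * cw i) * (R0 a b i i : ℝ) = if a = b then 8 else 0 := by
    have h := row_id a b
    by_cases hab : a = b
    · subst hab
      rw [if_pos rfl] at h ⊢
      have h2 : ((∑ i, cw i * cw i * R0 a a i i * t2 a : ℤ) : ℝ) = 8 := by rw [h]; norm_num
      rw [← h2]
      push_cast
      refine Finset.sum_congr rfl fun i _ => ?_
      rw [tw_sq]; ring
    · rw [if_neg hab] at h ⊢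
      have ht : (t2 a : ℤ) ≠ 0 := by fin_cases a <;> simp [t2]
      have h3 : ∑ i, cw i * cw i * R0 a b i i = 0 := by
        rw [← Finset.sum_mul] at h
        exact (mul_eq_zero.1 h).resolve_right ht
      have h4 : ((∑ i, cw i * cw i * R0 a b i i : ℤ) : ℝ) = 0 := by rw [h3]; norm_num
      push_cast at h4
      have : ∑ i, tw a * tw b * (cw i * cw i) * (R0 a b i i : ℝ) =
          tw a * tw b * ∑ i, (cw i : ℝ) * cw i * (R0 a b i i : ℝ) := by
        rw [Finset.mul_sum]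
        refine Finset.sum_congr rfl fun i _ => ?_
        ring
      rw [this, h4, mul_zero]
  rw [h1]
  by_cases hab : a = b
  · simp [hab]
    ring
  · simp [hab]

theorem SS_col (δ : ℝ) (i j : Fin 8) : ∑ a, SS δ a a i j = if i = j then 8 else 0 := by
  unfold SS
  rw [Finset.sum_add_distrib, ← Finset.mul_sum]
  have h1 : ∑ a, tw a * tw a * (cw i * cw j) * (R0 a a i j : ℝ) = if i = j then 8 else 0 := by
    have h := col_id i j
    have h2 : ((∑ a, t2 a * R0 a a i j * (cw i * cw j) : ℤ) : ℝ) = if i = j then 8 else 0 := by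
      rw [h]; split_ifs <;> norm_num
    rw [← h2]
    push_cast
    refine Finset.sum_congr rfl fun a _ => ?_
    rw [tw_sq]; ring
  rw [h1]
  by_cases hij : i = j
  · simp [hij]
    ring
  · simp [hij]

theorem hdet_SS_zero : hdet (SS 0) < 0 := by
  have h : hdet (SS 0) = (∏ a, tw a) * (∏ a, tw a) * ((∏ i, (cw i : ℝ)) * ∏ i, (cw i : ℝ)) * (-80) := by
    have e : ((-80 : ℤ) : ℝ) = hdet (fun a b i j => (Int.castRingHom ℝ) (R0 a b i j)) := by
      rw [hdet_map, hdet_R0]; simp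
    have e' : (-80 : ℝ) = hdet (fun a b i j => (Int.castRingHom ℝ) (R0 a b i j)) := by
      rw [← e]; norm_num
    rw [e']
    unfold hdet
    rw [Finset.mul_sum]
    refine Finset.sum_congr rfl fun w _ => ?_
    rw [Finset.mul_sum]
    refine Finset.sum_congr rfl fun p _ => ?_
    rw [Finset.mul_sum]
    refine Finset.sum_congr rfl fun q _ => ?_
    have hp : ∏ a, SS 0 a (w a) (p a) (q a) =
        (∏ a, tw a) * (∏ a, tw (w a)) * ((∏ a, (cw (p a) : ℝ)) * ∏ a, (cw (q a) : ℝ)) *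
          ∏ a, (Int.castRingHom ℝ) (R0 a (w a) (p a) (q a)) := by
      rw [← Finset.prod_mul_distrib, ← Finset.prod_mul_distrib, ← Finset.prod_mul_distrib,
        ← Finset.prod_mul_distrib]
      refine Finset.prod_congr rfl fun a _ => ?_
      simp [SS]
    rw [hp, Equiv.prod_comp w tw, Equiv.prod_comp p (fun i => (cw i : ℝ)),
      Equiv.prod_comp q (fun i => (cw i : ℝ))]
    ring
  rw [h]
  have h1 : 0 < (∏ a, tw a) * (∏ a, tw a) := by
    rw [← Finset.prod_mul_distrib]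
    refine Finset.prod_pos fun a _ => ?_
    rw [tw_sq]
    have : ∀ a, 0 < t2 a := by decide
    exact_mod_cast this a
  have h2 : 0 < (∏ i, (cw i : ℝ)) * ∏ i, (cw i : ℝ) := by
    have : 0 < ∏ i, (cw i : ℝ) := Finset.prod_pos fun a _ => by
      have : ∀ a, 0 < cw a := by decide
      exact_mod_cast this a
    positivity
  nlinarith [mul_pos h1 h2]

theorem continuous_hdet_SS : Continuous fun δ : ℝ => hdet (SS δ) := by
  unfold hdet SS
  fun_prop

theorem exists_delta_SS : ∃ δ : ℝ, 0 < δ ∧ δ < 1 ∧ hdet (SS δ) < 0 := by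
  have h0 : ∀ᶠ δ in 𝓝 (0 : ℝ), hdet (SS δ) < 0 :=
    continuous_hdet_SS.continuousAt.eventually_lt continuousAt_const hdet_SS_zero
  obtain ⟨ε, hε, h⟩ := Metric.eventually_nhds_iff.1 h0
  refine ⟨min (ε / 2) (1 / 2), by positivity, lt_of_le_of_lt (min_le_right _ _) (by norm_num), h ?_⟩
  rw [Real.dist_eq, sub_zero, abs_of_pos (by positivity)]
  exact lt_of_le_of_lt (min_le_left _ _) (by linarith)

theorem sx_SS (δ : ℝ) (x ξ : Fin 8 → ℂ) : sx (SS δ) x ξ ξ =
    ((1 - δ : ℝ) : ℂ) * qf (fun a => (tw a : ℂ) * x a) (fun i => ((cw i : ℤ) : ℂ) * ξ i) +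
      ((δ * nsq x * nsq ξ : ℝ) : ℂ) := by
  have h0 : sx (SS δ) x ξ ξ =
      ∑ α, ∑ β, ∑ i, ∑ j, (SS δ α β i j : ℂ) * (star (x α) * x β * (ξ i * star (ξ j))) := by
    simp only [sx, dotProduct, Matrix.mulVec, sf, Matrix.of_apply, Pi.star_apply, Finset.mul_sum,
      Finset.sum_mul]
    refine Finset.sum_congr rfl fun a _ => Finset.sum_congr rfl fun b _ =>
      Finset.sum_congr rfl fun i _ => Finset.sum_congr rfl fun j _ => ?_
    ring
  have h1 : ∑ α, ∑ β, ∑ i, ∑ j, (((δ : ℂ) * (if α = β then 1 else 0) * (if i = j then 1 else 0)) *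
      (star (x α) * x β * (ξ i * star (ξ j)))) = ((δ * nsq x * nsq ξ : ℝ) : ℂ) := by
    have := dot_sf δ x ξ
    have h2 : star x ⬝ᵥ ((sf (Sd δ) ξ ξ) *ᵥ x) =
        ∑ a, ∑ b, ∑ i, ∑ j, (Sd δ a b i j : ℂ) * (star (x a) * x b * (ξ i * star (ξ j))) := by
      simp only [dotProduct, Matrix.mulVec, sf, Matrix.of_apply, Pi.star_apply, Finset.mul_sum,
        Finset.sum_mul]
      refine Finset.sum_congr rfl fun a _ => Finset.sum_congr rfl fun b _ =>
        Finset.sum_congr rfl fun i _ => Finset.sum_congr rfl fun j _ => ?_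
      ring
    rw [h2] at this
    have h3 : ∑ a, ∑ b, ∑ i, ∑ j, (Sd δ a b i j : ℂ) * (star (x a) * x b * (ξ i * star (ξ j))) =
        qf x ξ + ∑ α, ∑ β, ∑ i, ∑ j,
          (((δ : ℂ) * (if α = β then 1 else 0) * (if i = j then 1 else 0)) *
          (star (x α) * x β * (ξ i * star (ξ j)))) := by
      rw [qf]
      simp only [← Finset.sum_add_distrib]
      refine Finset.sum_congr rfl fun a _ => Finset.sum_congr rfl fun b _ =>
          Finset.sum_congr rfl fun i _ => Finset.sum_congr rfl fun j _ => ?_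
      unfold Sd
      split_ifs <;> push_cast <;> ring
    rw [h3] at this
    exact add_left_cancel this
  rw [h0, ← h1, qf, Finset.mul_sum, ← Finset.sum_add_distrib]
  refine Finset.sum_congr rfl fun a _ => ?_
  rw [Finset.mul_sum, ← Finset.sum_add_distrib]
  refine Finset.sum_congr rfl fun b _ => ?_
  rw [Finset.mul_sum, ← Finset.sum_add_distrib]
  refine Finset.sum_congr rfl fun i _ => ?_
  rw [Finset.mul_sum, ← Finset.sum_add_distrib]
  refine Finset.sum_congr rfl fun j _ => ?_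
  unfold SS
  simp only [star_mul', Complex.star_def, Complex.conj_ofReal, map_intCast]
  split_ifs <;> push_cast <;> ring

theorem sf_SS_posDef {δ : ℝ} (hδ : 0 < δ) (hδ1 : δ < 1) (ξ : Fin 8 → ℂ) (hξ : ξ ≠ 0) :
    (sf (SS δ) ξ ξ).PosDef := by
  refine posDef_of_re (sf_conjTranspose (SS δ) (SS_symm δ) ξ ξ) fun x hx => ?_
  change 0 < (sx (SS δ) x ξ ξ).re
  rw [sx_SS]
  obtain ⟨t, ht, hq⟩ := qf_nonneg (fun a => (tw a : ℂ) * x a) (fun i => ((cw i : ℤ) : ℂ) * ξ i)
  rw [hq, ← Complex.ofReal_mul, ← Complex.ofReal_add, Complex.ofReal_re]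
  have h1 := nsq_pos hx
  have h2 := nsq_pos hξ
  have h3 : 0 < 1 - δ := by linarith
  positivity

end Pool.Agent.W517.Gr
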