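import Pool.Agent.W517.Gr.Defs

set_option autoImplicit false

namespace Pool.Agent.W517.Gr

open Finset Filter Topology
open scoped ContDiff ComplexOrder Matrix

variable {n r : ℕ}

theorem dz'_def (f : Cn n → ℂ) (z ξ : Cn n) :
    dz' f z ξ = (fderiv ℝ f z ξ - Complex.I * fderiv ℝ f z (Complex.I • ξ)) / 2 := rfl

theorem dz''_def (f : Cn n → ℂ) (z ξ : Cn n) :
    dz'' f z ξ = (fderiv ℝ f z ξ + Complex.I * fderiv ℝ f z (Complex.I • ξ)) / 2 := rfl

theorem dz'_of_hasFDerivAt {f : Cn n → ℂ} {f' : Cn n →L[ℝ] ℂ} {z : Cn n} (hf : HasFDerivAt f f' z)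
    (ξ : Cn n) : dz' f z ξ = (f' ξ - Complex.I * f' (Complex.I • ξ)) / 2 := by
  rw [dz'_def, hf.fderiv]

theorem dz''_of_hasFDerivAt {f : Cn n → ℂ} {f' : Cn n →L[ℝ] ℂ} {z : Cn n} (hf : HasFDerivAt f f' z)
    (ξ : Cn n) : dz'' f z ξ = (f' ξ + Complex.I * f' (Complex.I • ξ)) / 2 := by
  rw [dz''_def, hf.fderiv]

theorem dz'_congr {f g : Cn n → ℂ} {z : Cn n} (h : f =ᶠ[𝓝 z] g) (ξ : Cn n) :
    dz' f z ξ = dz' g z ξ := by
  rw [dz'_def, dz'_def, h.fderiv_eq]

theorem dz''_congr {f g : Cn n → ℂ} {z : Cn n} (h : f =ᶠ[𝓝 z] g) (ξ : Cn n) :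
    dz'' f z ξ = dz'' g z ξ := by
  rw [dz''_def, dz''_def, h.fderiv_eq]

theorem dz'_const (c : ℂ) (z ξ : Cn n) : dz' (fun _ => c) z ξ = 0 := by
  rw [dz'_of_hasFDerivAt (hasFDerivAt_const c z)]; simp

theorem dz''_const (c : ℂ) (z ξ : Cn n) : dz'' (fun _ => c) z ξ = 0 := by
  rw [dz''_of_hasFDerivAt (hasFDerivAt_const c z)]; simp

theorem dz'_mul {f g : Cn n → ℂ} {z : Cn n} (hf : DifferentiableAt ℝ f z)
    (hg : DifferentiableAt ℝ g z) (ξ : Cn n) :
    dz' (fun w => f w * g w) z ξ = dz' f z ξ * g z + f z * dz' g z ξ := by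
  have H : HasFDerivAt (fun w => f w * g w) _ z := hf.hasFDerivAt.mul hg.hasFDerivAt
  rw [dz'_of_hasFDerivAt H, dz'_def, dz'_def]
  simp only [_root_.add_apply, _root_.smul_apply, smul_eq_mul]
  ring

theorem dz''_mul {f g : Cn n → ℂ} {z : Cn n} (hf : DifferentiableAt ℝ f z)
    (hg : DifferentiableAt ℝ g z) (ξ : Cn n) :
    dz'' (fun w => f w * g w) z ξ = dz'' f z ξ * g z + f z * dz'' g z ξ := by
  have H : HasFDerivAt (fun w => f w * g w) _ z := hf.hasFDerivAt.mul hg.hasFDerivAt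
  rw [dz''_of_hasFDerivAt H, dz''_def, dz''_def]
  simp only [_root_.add_apply, _root_.smul_apply, smul_eq_mul]
  ring

theorem dz'_sum {ι : Type*} (s : Finset ι) {f : ι → Cn n → ℂ} {z : Cn n}
    (hf : ∀ i ∈ s, DifferentiableAt ℝ (f i) z) (ξ : Cn n) :
    dz' (fun w => ∑ i ∈ s, f i w) z ξ = ∑ i ∈ s, dz' (f i) z ξ := by
  rw [dz'_of_hasFDerivAt (HasFDerivAt.fun_sum fun i hi => (hf i hi).hasFDerivAt)]
  simp only [_root_.sum_apply, Finset.mul_sum, ← Finset.sum_sub_distrib,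
    Finset.sum_div, dz'_def]

theorem dz''_sum {ι : Type*} (s : Finset ι) {f : ι → Cn n → ℂ} {z : Cn n}
    (hf : ∀ i ∈ s, DifferentiableAt ℝ (f i) z) (ξ : Cn n) :
    dz'' (fun w => ∑ i ∈ s, f i w) z ξ = ∑ i ∈ s, dz'' (f i) z ξ := by
  rw [dz''_of_hasFDerivAt (HasFDerivAt.fun_sum fun i hi => (hf i hi).hasFDerivAt)]
  simp only [_root_.sum_apply, Finset.mul_sum, ← Finset.sum_add_distrib,
    Finset.sum_div, dz''_def]

theorem dz'_neg {f : Cn n → ℂ} (z ξ : Cn n) : dz' (fun w => -f w) z ξ = -dz' f z ξ := by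
  rw [dz'_def, dz'_def]
  have : fderiv ℝ (fun w => -f w) z = -fderiv ℝ f z := fderiv_fun_neg
  rw [this]
  simp only [_root_.neg_apply]
  ring

theorem dz''_neg {f : Cn n → ℂ} (z ξ : Cn n) : dz'' (fun w => -f w) z ξ = -dz'' f z ξ := by
  rw [dz''_def, dz''_def]
  have : fderiv ℝ (fun w => -f w) z = -fderiv ℝ f z := fderiv_fun_neg
  rw [this]
  simp only [_root_.neg_apply]
  ring

theorem dz'_sub {f g : Cn n → ℂ} {z : Cn n} (hf : DifferentiableAt ℝ f z)
    (hg : DifferentiableAt ℝ g z) (ξ : Cn n) :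
    dz' (fun w => f w - g w) z ξ = dz' f z ξ - dz' g z ξ := by
  have H : HasFDerivAt (fun w => f w - g w) _ z := hf.hasFDerivAt.sub hg.hasFDerivAt
  rw [dz'_of_hasFDerivAt H, dz'_def, dz'_def]
  simp only [_root_.sub_apply]
  ring

theorem dz''_sub {f g : Cn n → ℂ} {z : Cn n} (hf : DifferentiableAt ℝ f z)
    (hg : DifferentiableAt ℝ g z) (ξ : Cn n) :
    dz'' (fun w => f w - g w) z ξ = dz'' f z ξ - dz'' g z ξ := by
  have H : HasFDerivAt (fun w => f w - g w) _ z := hf.hasFDerivAt.sub hg.hasFDerivAt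
  rw [dz''_of_hasFDerivAt H, dz''_def, dz''_def]
  simp only [_root_.sub_apply]
  ring

/-- coordinate as a real continuous linear map. -/
noncomputable def coordL (i : Fin n) : Cn n →L[ℝ] ℂ :=
  (ContinuousLinearMap.proj i : Cn n →L[ℝ] ℂ)

theorem hasFDerivAt_coord (i : Fin n) (z : Cn n) : HasFDerivAt (fun w : Cn n => w i) (coordL i) z :=
  (coordL i).hasFDerivAt

theorem hasFDerivAt_conj (i : Fin n) (z : Cn n) :
    HasFDerivAt (fun w : Cn n => star (w i)) (Complex.conjCLE.toContinuousLinearMap.comp (coordL i)) z :=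
  (Complex.conjCLE.toContinuousLinearMap.comp (coordL i)).hasFDerivAt

theorem dz'_coord (i : Fin n) (z ξ : Cn n) : dz' (fun w : Cn n => w i) z ξ = ξ i := by
  rw [dz'_of_hasFDerivAt (hasFDerivAt_coord i z)]
  simp only [coordL, ContinuousLinearMap.proj_apply, Pi.smul_apply, smul_eq_mul]
  rw [← mul_assoc, Complex.I_mul_I]
  ring

theorem dz''_coord (i : Fin n) (z ξ : Cn n) : dz'' (fun w : Cn n => w i) z ξ = 0 := by
  rw [dz''_of_hasFDerivAt (hasFDerivAt_coord i z)]
  simp only [coordL, ContinuousLinearMap.proj_apply, Pi.smul_apply, smul_eq_mul]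
  rw [← mul_assoc, Complex.I_mul_I]
  ring

theorem dz'_conj (i : Fin n) (z ξ : Cn n) : dz' (fun w : Cn n => star (w i)) z ξ = 0 := by
  rw [dz'_of_hasFDerivAt (hasFDerivAt_conj i z)]
  simp only [coordL, ContinuousLinearMap.comp_apply, ContinuousLinearMap.proj_apply, Pi.smul_apply,
    smul_eq_mul, ContinuousLinearEquiv.coe_coe, Complex.conjCLE_apply, map_mul, Complex.conj_I]
  rw [neg_mul, mul_neg, ← mul_assoc, Complex.I_mul_I]
  ring

theorem dz''_conj (i : Fin n) (z ξ : Cn n) : dz'' (fun w : Cn n => star (w i)) z ξ = star (ξ i) := by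
  rw [dz''_of_hasFDerivAt (hasFDerivAt_conj i z)]
  simp only [coordL, ContinuousLinearMap.comp_apply, ContinuousLinearMap.proj_apply, Pi.smul_apply,
    smul_eq_mul, ContinuousLinearEquiv.coe_coe, Complex.conjCLE_apply, map_mul, Complex.conj_I]
  rw [neg_mul, mul_neg, ← mul_assoc, Complex.I_mul_I]
  simp only [Complex.star_def]
  ring

theorem differentiableAt_coord (i : Fin n) (z : Cn n) : DifferentiableAt ℝ (fun w : Cn n => w i) z :=
  (hasFDerivAt_coord i z).differentiableAt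

theorem differentiableAt_conj (i : Fin n) (z : Cn n) :
    DifferentiableAt ℝ (fun w : Cn n => star (w i)) z :=
  (hasFDerivAt_conj i z).differentiableAt

/-! ### Matrix functions -/

theorem mdz''_mul {A B : Cn n → Matrix (Fin r) (Fin r) ℂ} {z : Cn n}
    (hA : ∀ α β, DifferentiableAt ℝ (fun w => A w α β) z)
    (hB : ∀ α β, DifferentiableAt ℝ (fun w => B w α β) z) (η : Cn n) :
    mdz'' (fun w => A w * B w) z η = mdz'' A z η * B z + A z * mdz'' B z η := by
  ext α β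
  simp only [mdz'', Matrix.of_apply, Matrix.mul_apply, Matrix.add_apply]
  rw [dz''_sum _ (f := fun γ w => A w α γ * B w γ β) (fun γ _ => (hA α γ).mul (hB γ β))]
  rw [← Finset.sum_add_distrib]
  exact Finset.sum_congr rfl fun γ _ => dz''_mul (hA α γ) (hB γ β) η

theorem differentiableAt_det {A : Cn n → Matrix (Fin r) (Fin r) ℂ} {z : Cn n}
    (hA : ∀ α β, DifferentiableAt ℝ (fun w => A w α β) z) :
    DifferentiableAt ℝ (fun w => (A w).det) z := by
  simp only [Matrix.det_apply']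
  refine DifferentiableAt.fun_sum fun σ _ => ?_
  refine (differentiableAt_const _).mul ?_
  exact (HasFDerivAt.finsetProd (g := fun i w => A w (σ i) i)
    fun i _ => (hA (σ i) i).hasFDerivAt).differentiableAt

theorem differentiableAt_adjugate {A : Cn n → Matrix (Fin r) (Fin r) ℂ} {z : Cn n}
    (hA : ∀ α β, DifferentiableAt ℝ (fun w => A w α β) z) (α β : Fin r) :
    DifferentiableAt ℝ (fun w => (A w).adjugate α β) z := by
  simp only [Matrix.adjugate_apply]
  refine differentiableAt_det (A := fun w => (A w).updateRow β (Pi.single α 1)) fun γ δ => ?_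
  by_cases h : γ = β
  · subst h
    simp only [Matrix.updateRow_self]
    exact differentiableAt_const _
  · have : ∀ w, (A w).updateRow β (Pi.single α 1) γ δ = A w γ δ := fun w => by
      rw [Matrix.updateRow_ne h]
    simp only [this]
    exact hA γ δ

theorem differentiableAt_inv {A : Cn n → Matrix (Fin r) (Fin r) ℂ} {z : Cn n}
    (hA : ∀ α β, DifferentiableAt ℝ (fun w => A w α β) z) (hdet : (A z).det ≠ 0) (α β : Fin r) :
    DifferentiableAt ℝ (fun w => (A w)⁻¹ α β) z := by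
  simp only [Matrix.inv_def, Matrix.smul_apply, Ring.inverse_eq_inv', smul_eq_mul]
  exact ((differentiableAt_det hA).inv hdet).mul (differentiableAt_adjugate hA α β)

theorem det_ne_zero_near {A : Cn n → Matrix (Fin r) (Fin r) ℂ} {z : Cn n}
    (hA : ∀ α β, DifferentiableAt ℝ (fun w => A w α β) z) (hdet : (A z).det ≠ 0) :
    ∀ᶠ w in 𝓝 z, (A w).det ≠ 0 :=
  (differentiableAt_det hA).continuousAt.eventually_ne hdet

theorem mdz''_inv {A : Cn n → Matrix (Fin r) (Fin r) ℂ} {z : Cn n}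
    (hA : ∀ α β, DifferentiableAt ℝ (fun w => A w α β) z) (hdet : (A z).det ≠ 0) (η : Cn n) :
    mdz'' (fun w => (A w)⁻¹) z η = -((A z)⁻¹ * mdz'' A z η * (A z)⁻¹) := by
  have h1 := mdz''_mul hA (differentiableAt_inv hA hdet) η
  have h2 : mdz'' (fun w => A w * (A w)⁻¹) z η = 0 := by
    ext α β
    simp only [mdz'', Matrix.of_apply, Matrix.zero_apply]
    rw [dz''_congr (g := fun _ => (1 : Matrix (Fin r) (Fin r) ℂ) α β), dz''_const]
    filter_upwards [det_ne_zero_near hA hdet] with w hw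
    rw [Matrix.mul_nonsing_inv _ (isUnit_iff_ne_zero.2 hw)]
  rw [h2] at h1
  have hu : IsUnit (A z).det := isUnit_iff_ne_zero.2 hdet
  have h3 : A z * mdz'' (fun w => (A w)⁻¹) z η = -(mdz'' A z η * (A z)⁻¹) := by
    rw [eq_neg_iff_add_eq_zero, add_comm]; exact h1.symm
  calc mdz'' (fun w => (A w)⁻¹) z η = (A z)⁻¹ * (A z * mdz'' (fun w => (A w)⁻¹) z η) := by
        rw [Matrix.nonsing_inv_mul_cancel_left _ _ hu]
    _ = _ := by rw [h3, mul_neg, Matrix.mul_assoc]

/-- General formula for the Chern curvature. -/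
theorem chernCurvature_mul {h : Cn n → Matrix (Fin r) (Fin r) ℂ} {z ξ η : Cn n}
    (h0 : ∀ α β, DifferentiableAt ℝ (fun w => h w α β) z)
    (h1 : ∀ α β, DifferentiableAt ℝ (fun w => mdz' h w ξ α β) z) (hdet : (h z).det ≠ 0) :
    chernCurvature h z ξ η * h z =
      -mdz'' (fun w => mdz' h w ξ) z η + mdz' h z ξ * (h z)⁻¹ * mdz'' h z η := by
  unfold chernCurvature chernConnection
  have hu : IsUnit (h z).det := isUnit_iff_ne_zero.2 hdet
  rw [mdz''_mul h1 (differentiableAt_inv h0 hdet), mdz''_inv h0 hdet]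
  rw [neg_mul, add_mul, mul_assoc, Matrix.nonsing_inv_mul _ hu, mul_one, mul_neg, neg_mul,
    neg_add, neg_neg]
  congr 1
  rw [mul_assoc, mul_assoc, mul_assoc, mul_assoc, Matrix.nonsing_inv_mul _ hu, mul_one]

end Pool.Agent.W517.Gr
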