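import Mathlib

set_option autoImplicit false

namespace Pool.Agent.W517.Gr

open Filter Topology
open scoped ContDiff

/-- bounds for the first two derivatives of the smooth transition function. -/
theorem exists_bound_sigma : ∃ M : ℝ, 0 < M ∧ (∀ x, |deriv Real.smoothTransition x| ≤ M) ∧
    ∀ x, |deriv (deriv Real.smoothTransition) x| ≤ M := by
  have hc : ContDiff ℝ ∞ Real.smoothTransition := Real.smoothTransition.contDiff
  have hc1 : ContDiff ℝ ∞ (deriv Real.smoothTransition) := by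
    have := (contDiff_succ_iff_deriv (n := ∞) (f := Real.smoothTransition)).1 (by simpa using hc)
    exact this.2.2
  have hc2 : ContDiff ℝ ∞ (deriv (deriv Real.smoothTransition)) := by
    have := (contDiff_succ_iff_deriv (n := ∞) (f := deriv Real.smoothTransition)).1 (by simpa using hc1)
    exact this.2.2
  have z1 : ∀ x, x ∉ Set.Icc (0 : ℝ) 1 → deriv Real.smoothTransition x = 0 := by
    intro x hx
    rw [Set.mem_Icc, not_and_or, not_le, not_le] at hx
    rcases hx with hx | hx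
    · have : Real.smoothTransition =ᶠ[𝓝 x] fun _ => (0 : ℝ) := by
        filter_upwards [isOpen_Iio.mem_nhds hx] with y hy
        exact Real.smoothTransition.zero_of_nonpos (le_of_lt hy)
      rw [this.deriv_eq, deriv_const]
    · have : Real.smoothTransition =ᶠ[𝓝 x] fun _ => (1 : ℝ) := by
        filter_upwards [isOpen_Ioi.mem_nhds hx] with y hy
        exact Real.smoothTransition.one_of_one_le (le_of_lt hy)
      rw [this.deriv_eq, deriv_const]
  have z2 : ∀ x, x ∉ Set.Icc (0 : ℝ) 1 → deriv (deriv Real.smoothTransition) x = 0 := by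
    intro x hx
    have : deriv Real.smoothTransition =ᶠ[𝓝 x] fun _ => (0 : ℝ) := by
      filter_upwards [(isClosed_Icc.isOpen_compl).mem_nhds hx] with y hy
      exact z1 y hy
    rw [this.deriv_eq, deriv_const]
  have s1 : HasCompactSupport (deriv Real.smoothTransition) :=
    HasCompactSupport.intro isCompact_Icc z1
  have s2 : HasCompactSupport (deriv (deriv Real.smoothTransition)) :=
    HasCompactSupport.intro isCompact_Icc z2
  obtain ⟨C1, h1⟩ := hc1.continuous.bounded_above_of_compact_support s1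
  obtain ⟨C2, h2⟩ := hc2.continuous.bounded_above_of_compact_support s2
  refine ⟨max 1 (max C1 C2), by positivity, fun x => ?_, fun x => ?_⟩
  · exact (h1 x).trans ((le_max_left _ _).trans (le_max_right _ _))
  · exact (h2 x).trans ((le_max_right _ _).trans (le_max_right _ _))

/-- logarithmic cut-off functions. -/
theorem exists_cutoff (τ η : ℝ) (hτ : 0 < τ) (hη : 0 < η) : ∃ κ κ1 κ2 : ℝ → ℝ,
    ContDiff ℝ ∞ κ ∧ (∀ t, HasDerivAt κ (κ1 t) t) ∧ (∀ t, HasDerivAt κ1 (κ2 t) t) ∧
    κ 0 = 1 ∧ (∀ t, 0 ≤ κ t) ∧ (∀ t, κ t ≤ 1) ∧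
    (∀ t, τ ≤ t → κ t = 0 ∧ κ1 t = 0 ∧ κ2 t = 0) ∧
    ∀ t, 3 * |t * κ1 t| + |t ^ 2 * κ2 t| ≤ η := by
  obtain ⟨M, hM, hM1, hM2⟩ := exists_bound_sigma
  set σ := Real.smoothTransition with hσ
  have hc : ContDiff ℝ ∞ σ := Real.smoothTransition.contDiff
  have hc1 : ContDiff ℝ ∞ (deriv σ) := by
    have := (contDiff_succ_iff_deriv (n := ∞) (f := σ)).1 (by simpa using hc)
    exact this.2.2
  obtain ⟨ε, hε, hε1, hεη⟩ : ∃ ε : ℝ, 0 < ε ∧ ε ≤ 1 ∧ 12 * M * ε ≤ η := by
    refine ⟨min 1 (η / (12 * M)), by positivity, min_le_left _ _, ?_⟩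
    calc 12 * M * min 1 (η / (12 * M)) ≤ 12 * M * (η / (12 * M)) :=
          mul_le_mul_of_nonneg_left (min_le_right _ _) (by positivity)
      _ = η := by field_simp
  set c : ℝ := τ ^ 2 / 4 with hcdef
  have hcpos : 0 < c := by positivity
  set b : ℝ := c * Real.exp (-1 / ε) with hb
  have hbpos : 0 < b := by positivity
  have hpos : ∀ t : ℝ, 0 < t ^ 2 + b := fun t => by positivity
  set G : ℝ → ℝ := fun t => ε * (Real.log c - Real.log (t ^ 2 + b)) with hG
  set G1 : ℝ → ℝ := fun t => -(ε * (2 * t / (t ^ 2 + b))) with hG1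
  set G2 : ℝ → ℝ := fun t => -(ε * ((2 * (t ^ 2 + b) - 2 * t * (2 * t)) / (t ^ 2 + b) ^ 2)) with hG2
  have dsq : ∀ t : ℝ, HasDerivAt (fun t : ℝ => t ^ 2 + b) (2 * t) t := fun t => by
    simpa using (hasDerivAt_pow 2 t).add_const b
  have dG : ∀ t, HasDerivAt G (G1 t) t := fun t => by
    have h := (((dsq t).log (hpos t).ne').const_sub (Real.log c)).const_mul ε
    exact h.congr_deriv (by simp only [hG1]; ring)
  have dG1 : ∀ t, HasDerivAt G1 (G2 t) t := fun t => by
    have h := ((((hasDerivAt_id t).const_mul 2).div (dsq t) (hpos t).ne').const_mul ε).neg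
    exact h.congr_deriv (by simp only [hG2, id, mul_one])
  have dσ : ∀ x, HasDerivAt σ (deriv σ x) x := fun x =>
    (hc.differentiable (by simp)).differentiableAt.hasDerivAt
  have dσ1 : ∀ x, HasDerivAt (deriv σ) (deriv (deriv σ) x) x := fun x =>
    (hc1.differentiable (by simp)).differentiableAt.hasDerivAt
  have hGc : ContDiff ℝ ∞ G := by
    refine contDiff_const.mul (contDiff_const.sub ?_)
    exact ContDiff.log ((contDiff_id.pow 2).add contDiff_const) fun t => (hpos t).ne'
  set κ : ℝ → ℝ := fun t => σ (G t) with hκ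
  set κ1 : ℝ → ℝ := fun t => deriv σ (G t) * G1 t with hκ1
  set κ2 : ℝ → ℝ := fun t => deriv (deriv σ) (G t) * G1 t * G1 t + deriv σ (G t) * G2 t with hκ2
  have dκ : ∀ t, HasDerivAt κ (κ1 t) t := fun t => (dσ (G t)).comp t (dG t)
  have dκ1 : ∀ t, HasDerivAt κ1 (κ2 t) t := fun t =>
    ((dσ1 (G t)).comp t (dG t)).mul (dG1 t)
  have hz : ∀ t, τ / 2 < t → κ t = 0 := fun t ht => by
    refine Real.smoothTransition.zero_of_nonpos ?_
    have : Real.log c ≤ Real.log (t ^ 2 + b) := by
      refine Real.log_le_log hcpos ?_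
      have : τ ^ 2 / 4 ≤ t ^ 2 := by nlinarith
      linarith
    simp only [hG]
    nlinarith
  have hz1 : ∀ t, τ / 2 < t → κ1 t = 0 := fun t ht => by
    have : κ =ᶠ[𝓝 t] fun _ => (0 : ℝ) := by
      filter_upwards [isOpen_Ioi.mem_nhds ht] with y hy
      exact hz y hy
    rw [← (dκ t).deriv, this.deriv_eq, deriv_const]
  have hz2 : ∀ t, τ / 2 < t → κ2 t = 0 := fun t ht => by
    have : κ1 =ᶠ[𝓝 t] fun _ => (0 : ℝ) := by
      filter_upwards [isOpen_Ioi.mem_nhds ht] with y hy
      exact hz1 y hy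
    rw [← (dκ1 t).deriv, this.deriv_eq, deriv_const]
  refine ⟨κ, κ1, κ2, hc.comp hGc, dκ, dκ1, ?_, fun t => Real.smoothTransition.nonneg _,
    fun t => Real.smoothTransition.le_one _, fun t ht => ?_, fun t => ?_⟩
  · refine Real.smoothTransition.one_of_one_le ?_
    have : G 0 = 1 := by
      simp only [hG]
      rw [hb, zero_pow two_ne_zero, zero_add, Real.log_mul hcpos.ne' (Real.exp_pos _).ne',
        Real.log_exp]
      field_simp
      ring
    rw [this]
  · have h : τ / 2 < t := by linarith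
    exact ⟨hz t h, hz1 t h, hz2 t h⟩
  · have e1 : |t * G1 t| ≤ 2 * ε := by
      have : t * G1 t = -(ε * (2 * (t ^ 2 / (t ^ 2 + b)))) := by
        simp only [hG1]; field_simp
      have h0 : 0 ≤ t ^ 2 / (t ^ 2 + b) := by have := hpos t; positivity
      have h1 : t ^ 2 / (t ^ 2 + b) ≤ 1 := by
        rw [div_le_one (hpos t)]; linarith
      rw [this, abs_neg, abs_of_nonneg (by positivity)]
      nlinarith
    have e2 : |t ^ 2 * G2 t| ≤ 2 * ε := by
      have : t ^ 2 * G2 t = -(ε * (2 * ((t ^ 2 * (b - t ^ 2)) / (t ^ 2 + b) ^ 2))) := by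
        simp only [hG2]; field_simp; ring
      have h1 : |t ^ 2 * (b - t ^ 2) / (t ^ 2 + b) ^ 2| ≤ 1 := by
        rw [abs_div, abs_of_pos (pow_pos (hpos t) 2), div_le_one (pow_pos (hpos t) 2), abs_mul,
          abs_of_nonneg (sq_nonneg t)]
        have h2 : |b - t ^ 2| ≤ t ^ 2 + b := by
          rw [abs_le]; constructor <;> nlinarith [sq_nonneg t]
        calc t ^ 2 * |b - t ^ 2| ≤ (t ^ 2 + b) * (t ^ 2 + b) :=
              mul_le_mul (by linarith) h2 (abs_nonneg _) (hpos t).le
          _ = (t ^ 2 + b) ^ 2 := by ring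
      rw [this, abs_neg, abs_mul, abs_of_pos hε, abs_mul, abs_two]
      nlinarith [abs_nonneg (t ^ 2 * (b - t ^ 2) / (t ^ 2 + b) ^ 2)]
    have f1 : |t * κ1 t| ≤ M * (2 * ε) := by
      have : t * κ1 t = deriv σ (G t) * (t * G1 t) := by simp only [hκ1]; ring
      rw [this, abs_mul]
      exact mul_le_mul (hM1 _) e1 (abs_nonneg _) hM.le
    have f2 : |t ^ 2 * κ2 t| ≤ M * (2 * ε) * (2 * ε) + M * (2 * ε) := by
      have : t ^ 2 * κ2 t = deriv (deriv σ) (G t) * (t * G1 t) * (t * G1 t) +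
          deriv σ (G t) * (t ^ 2 * G2 t) := by simp only [hκ2]; ring
      rw [this]
      refine (abs_add_le _ _).trans (add_le_add ?_ ?_)
      · rw [abs_mul, abs_mul]
        refine mul_le_mul (mul_le_mul (hM2 _) e1 (abs_nonneg _) hM.le) e1 (abs_nonneg _)
          (by positivity)
      · rw [abs_mul]
        exact mul_le_mul (hM1 _) e2 (abs_nonneg _) hM.le
    have g : M * (2 * ε) * (2 * ε) ≤ 4 * M * ε := by nlinarith [mul_pos hM hε]
    linarith

end Pool.Agent.W517.Gr
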