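import Pool.Agent.W517.Gr.Metric

set_option autoImplicit false

namespace Pool.Agent.W517.Gr

open Finset Filter Topology
open scoped ContDiff ComplexOrder Matrix

theorem hdet_map {n : ℕ} {A B : Type*} [CommRing A] [CommRing B] (f : A →+* B)
    (R : Fin n → Fin n → Fin n → Fin n → A) :
    hdet (fun a b i j => f (R a b i j)) = f (hdet R) := by
  unfold hdet
  simp only [map_sum, map_mul, map_prod, map_intCast]

theorem hdet_Sd_zero : hdet (Sd 0) = -80 := by
  have h : Sd 0 = fun a b i j => (Int.castRingHom ℝ) (R0 a b i j) := by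
    funext a b i j
    simp [Sd]
  rw [h, hdet_map, hdet_R0]
  simp

theorem continuous_hdet_Sd : Continuous fun δ : ℝ => hdet (Sd δ) := by
  unfold hdet Sd
  fun_prop

theorem exists_delta : ∃ δ : ℝ, 0 < δ ∧ δ ≤ 1 ∧ hdet (Sd δ) < 0 := by
  have h0 : ∀ᶠ δ in 𝓝 (0 : ℝ), hdet (Sd δ) < 0 := by
    refine continuous_hdet_Sd.continuousAt.eventually_lt continuousAt_const ?_
    rw [hdet_Sd_zero]
    norm_num
  obtain ⟨ε, hε, h⟩ := Metric.eventually_nhds_iff.1 h0
  refine ⟨min (ε / 2) 1, by positivity, min_le_right _ _, h ?_⟩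
  rw [Real.dist_eq, sub_zero, abs_of_pos (by positivity)]
  exact lt_of_le_of_lt (min_le_left _ _) (by linarith)

theorem curv_entries (δ : ℝ) : hdet (fun a b i j : Fin 8 =>
    chernCurvature (hS (Sd δ)) 0 (Pi.single i 1) (Pi.single j 1) a b) = ((hdet (Sd δ) : ℝ) : ℂ) := by
  have h : (fun a b i j : Fin 8 =>
      chernCurvature (hS (Sd δ)) 0 (Pi.single i 1) (Pi.single j 1) a b) =
      fun a b i j => Complex.ofRealHom (Sd δ a b i j) := by
    funext a b i j
    rw [curv_hS_zero]
    simp only [sf, Matrix.of_apply]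
    rw [Finset.sum_eq_single i, Finset.sum_eq_single j]
    · simp
    · intro j' _ hj'
      simp [hj']
    · simp
    · intro i' _ hi'
      refine Finset.sum_eq_zero fun j' _ => ?_
      simp [Pi.single_apply, hi']
    · simp
  rw [h, hdet_map]
  rfl

theorem contDiff_hS {n r : ℕ} (S : Fin r → Fin r → Fin n → Fin n → ℝ) (α β : Fin r) :
    ContDiff ℝ ∞ fun z => hS S z α β := by
  simp only [hS, Matrix.sub_apply, sf, Matrix.of_apply]
  refine contDiff_const.sub (ContDiff.sum fun i _ => ContDiff.sum fun j _ => ?_)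
  refine contDiff_const.mul (ContDiff.mul ?_ ?_)
  · exact (coordL i).contDiff
  · exact (Complex.conjCLE.toContinuousLinearMap.comp (coordL j)).contDiff

theorem continuous_nsq : Continuous nsq := by
  unfold nsq
  exact continuous_finsetSum _ fun i _ => Complex.continuous_normSq.comp (continuous_apply i)

/-- **Griffiths positive bundle with a negative top Chern form.** -/
theorem exists_local : ∃ (X : Set (Cn 8)) (h : Cn 8 → Matrix (Fin 8) (Fin 8) ℂ),
    IsOpen X ∧ (0 : Cn 8) ∈ X ∧ IsMetricOn X h ∧ (∀ z ∈ X, GriffithsPositiveAt h z) ∧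
    evalForm (realFrame fun i : Fin 8 => (Pi.single i 1 : Cn 8))
      (chernForm h 8 0 : ExteriorAlgebra ℂ (CForm 8)) < 0 := by
  obtain ⟨δ, hδ, hδ1, hneg⟩ := exists_delta
  refine ⟨{z | 65 * nsq z < 1}, hS (Sd δ), ?_, ?_, ⟨fun α β => (contDiff_hS _ α β).contDiffOn,
    fun z hz => hS_posDef hδ1 z hz⟩, fun z hz => ?_, ?_⟩
  · exact isOpen_lt (continuous_const.mul continuous_nsq) continuous_const
  · simp [nsq]
  · exact griffiths_hS (Sd δ) (Sd_symm δ) (fun ξ hξ => sf_posDef hδ ξ hξ) z (hS_posDef hδ1 z hz)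
  · rw [eval_chernForm_top, curv_entries, ← Complex.ofReal_pow, ← Complex.ofReal_div]
    have : hdet (Sd δ) / Real.pi ^ 8 < 0 := div_neg_of_neg_of_pos hneg (by positivity)
    exact_mod_cast this

theorem li_std (n : ℕ) : LinearIndependent ℂ (fun i : Fin n => (Pi.single i 1 : Cn n)) := by
  have h := (Pi.basisFun ℂ (Fin n)).linearIndependent
  have e : (fun i : Fin n => (Pi.single i 1 : Cn n)) = (Pi.basisFun ℂ (Fin n)) := by
    funext i
    rw [Pi.basisFun_apply]
  rw [e]
  exact h

theorem not_positive_of_neg {n : ℕ} (u : FormAlg n)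
    (h : (evalForm (realFrame fun i : Fin n => (Pi.single i 1 : Cn n))
      (u : ExteriorAlgebra ℂ (CForm n))).re < 0) : ¬ IsPositiveForm n u := by
  intro hp
  have h8 := (Complex.le_def.1 (hp _ (li_std n))).1
  rw [Complex.zero_re] at h8
  exact absurd h8 (not_le.2 h)

end Pool.Agent.W517.Gr
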