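import Pool.Agent.W517.Gr.Holo
import Pool.Agent.W517.Gr.Local
import Pool.Agent.W517.Gr.Cut

set_option autoImplicit false

namespace Pool.Agent.W517.Gr

open Finset Filter Topology
open scoped ContDiff ComplexOrder Matrix

section general

variable {n r : ℕ}

theorem dz'_inv {f : Cn n → ℂ} {z : Cn n} (hf : DifferentiableAt ℝ f z) (h0 : f z ≠ 0) (ξ : Cn n) :
    dz' (fun w => (f w)⁻¹) z ξ = -(dz' f z ξ / (f z) ^ 2) := by
  have h1 := dz'_mul hf (hf.inv h0) ξ
  have h2 : dz' (fun w => f w * (f⁻¹ : Cn n → ℂ) w) z ξ = 0 := by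
    rw [dz'_congr (g := fun _ => (1 : ℂ)), dz'_const]
    filter_upwards [hf.continuousAt.eventually_ne h0] with w hw
    rw [Pi.inv_apply, mul_inv_cancel₀ hw]
  have h3 : dz' (fun w => (f w)⁻¹) z ξ = dz' (f⁻¹ : Cn n → ℂ) z ξ := rfl
  rw [h2, Pi.inv_apply] at h1
  rw [h3]
  field_simp at h1 ⊢
  linear_combination -h1

theorem dz''_inv {f : Cn n → ℂ} {z : Cn n} (hf : DifferentiableAt ℝ f z) (h0 : f z ≠ 0) (ξ : Cn n) :
    dz'' (fun w => (f w)⁻¹) z ξ = -(dz'' f z ξ / (f z) ^ 2) := by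
  have h1 := dz''_mul hf (hf.inv h0) ξ
  have h2 : dz'' (fun w => f w * (f⁻¹ : Cn n → ℂ) w) z ξ = 0 := by
    rw [dz''_congr (g := fun _ => (1 : ℂ)), dz''_const]
    filter_upwards [hf.continuousAt.eventually_ne h0] with w hw
    rw [Pi.inv_apply, mul_inv_cancel₀ hw]
  have h3 : dz'' (fun w => (f w)⁻¹) z ξ = dz'' (f⁻¹ : Cn n → ℂ) z ξ := rfl
  rw [h2, Pi.inv_apply] at h1
  rw [h3]
  field_simp at h1 ⊢
  linear_combination -h1

/-- chain rule for a real function of a real function. -/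
theorem dz'_real_comp {κ : ℝ → ℝ} {κ' : ℝ} {T : Cn n → ℝ} {z : Cn n} (hT : DifferentiableAt ℝ T z)
    (hκ : HasDerivAt κ κ' (T z)) (ξ : Cn n) :
    dz' (fun w => ((κ (T w) : ℝ) : ℂ)) z ξ = (κ' : ℂ) * dz' (fun w => ((T w : ℝ) : ℂ)) z ξ := by
  have H1 : HasFDerivAt (fun w => ((κ (T w) : ℝ) : ℂ)) _ z :=
    Complex.ofRealCLM.hasFDerivAt.comp z (hκ.comp_hasFDerivAt z hT.hasFDerivAt)
  have H2 : HasFDerivAt (fun w => ((T w : ℝ) : ℂ)) _ z :=
    Complex.ofRealCLM.hasFDerivAt.comp z hT.hasFDerivAt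
  rw [dz'_of_hasFDerivAt H1, dz'_of_hasFDerivAt H2]
  simp only [ContinuousLinearMap.comp_apply, _root_.smul_apply, smul_eq_mul,
    Complex.ofRealCLM_apply, Complex.ofReal_mul]
  ring

theorem dz''_real_comp {κ : ℝ → ℝ} {κ' : ℝ} {T : Cn n → ℝ} {z : Cn n} (hT : DifferentiableAt ℝ T z)
    (hκ : HasDerivAt κ κ' (T z)) (ξ : Cn n) :
    dz'' (fun w => ((κ (T w) : ℝ) : ℂ)) z ξ = (κ' : ℂ) * dz'' (fun w => ((T w : ℝ) : ℂ)) z ξ := by
  have H1 : HasFDerivAt (fun w => ((κ (T w) : ℝ) : ℂ)) _ z :=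
    Complex.ofRealCLM.hasFDerivAt.comp z (hκ.comp_hasFDerivAt z hT.hasFDerivAt)
  have H2 : HasFDerivAt (fun w => ((T w : ℝ) : ℂ)) _ z :=
    Complex.ofRealCLM.hasFDerivAt.comp z hT.hasFDerivAt
  rw [dz''_of_hasFDerivAt H1, dz''_of_hasFDerivAt H2]
  simp only [ContinuousLinearMap.comp_apply, _root_.smul_apply, smul_eq_mul,
    Complex.ofRealCLM_apply, Complex.ofReal_mul]
  ring

theorem mdz'_smul {f : Cn n → ℂ} {A : Cn n → Matrix (Fin r) (Fin r) ℂ} {z : Cn n}
    (hf : DifferentiableAt ℝ f z) (hA : ∀ α β, DifferentiableAt ℝ (fun w => A w α β) z)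
    (ξ : Cn n) : mdz' (fun w => f w • A w) z ξ = dz' f z ξ • A z + f z • mdz' A z ξ := by
  ext α β
  simp only [mdz', Matrix.of_apply, Matrix.smul_apply, Matrix.add_apply, smul_eq_mul]
  exact dz'_mul hf (hA α β) ξ

theorem mdz''_smul {f : Cn n → ℂ} {A : Cn n → Matrix (Fin r) (Fin r) ℂ} {z : Cn n}
    (hf : DifferentiableAt ℝ f z) (hA : ∀ α β, DifferentiableAt ℝ (fun w => A w α β) z)
    (ξ : Cn n) : mdz'' (fun w => f w • A w) z ξ = dz'' f z ξ • A z + f z • mdz'' A z ξ := by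
  ext α β
  simp only [mdz'', Matrix.of_apply, Matrix.smul_apply, Matrix.add_apply, smul_eq_mul]
  exact dz''_mul hf (hA α β) ξ

theorem mdz''_add {A B : Cn n → Matrix (Fin r) (Fin r) ℂ} {z : Cn n}
    (hA : ∀ α β, DifferentiableAt ℝ (fun w => A w α β) z)
    (hB : ∀ α β, DifferentiableAt ℝ (fun w => B w α β) z)
    (ξ : Cn n) : mdz'' (fun w => A w + B w) z ξ = mdz'' A z ξ + mdz'' B z ξ := by
  ext α β
  simp only [mdz'', Matrix.of_apply, Matrix.add_apply]
  exact dz''_add (hA α β) (hB α β) ξ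

/-- the Hermitian product -/
noncomputable def ip (x y : Cn n) : ℂ := ∑ i, x i * star (y i)

theorem ip_star (x y : Cn n) : star (ip x y) = ip y x := by
  simp only [ip, star_sum, star_mul', star_star, mul_comm]

theorem diff_ip_right (ξ z : Cn n) : DifferentiableAt ℝ (fun w => ip ξ w) z := by
  unfold ip
  exact DifferentiableAt.fun_sum fun i _ => (differentiableAt_const _).mul (differentiableAt_conj i z)

theorem diff_ip_left (ξ z : Cn n) : DifferentiableAt ℝ (fun w => ip w ξ) z := by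
  unfold ip
  exact DifferentiableAt.fun_sum fun i _ => (differentiableAt_coord i z).mul (differentiableAt_const _)

theorem diff_ip_diag (z : Cn n) : DifferentiableAt ℝ (fun w => ip w w) z := by
  unfold ip
  exact DifferentiableAt.fun_sum fun i _ => (differentiableAt_coord i z).mul (differentiableAt_conj i z)

theorem dz'_ip_diag (z ξ : Cn n) : dz' (fun w => ip w w) z ξ = ip ξ z := by
  unfold ip
  rw [dz'_sum (f := fun i w => w i * star (w i))]
  · refine Finset.sum_congr rfl fun i _ => ?_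
    rw [dz'_mul (differentiableAt_coord i z) (differentiableAt_conj i z), dz'_coord, dz'_conj]
    ring
  · intro i _
    exact (differentiableAt_coord i z).mul (differentiableAt_conj i z)

theorem dz''_ip_diag (z ξ : Cn n) : dz'' (fun w => ip w w) z ξ = ip z ξ := by
  unfold ip
  rw [dz''_sum (f := fun i w => w i * star (w i))]
  · refine Finset.sum_congr rfl fun i _ => ?_
    rw [dz''_mul (differentiableAt_coord i z) (differentiableAt_conj i z), dz''_coord, dz''_conj]
    ring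
  · intro i _
    exact (differentiableAt_coord i z).mul (differentiableAt_conj i z)

theorem dz''_ip_right (ξ z η : Cn n) : dz'' (fun w => ip ξ w) z η = ip ξ η := by
  unfold ip
  rw [dz''_sum (f := fun i w => ξ i * star (w i))]
  · refine Finset.sum_congr rfl fun i _ => ?_
    rw [dz''_mul (differentiableAt_const _) (differentiableAt_conj i z), dz''_const, dz''_conj]
    ring
  · intro i _
    exact (differentiableAt_const _).mul (differentiableAt_conj i z)

theorem norm_ip_sq (x y : Cn n) :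
    ‖ip x y‖ ^ 2 ≤ (∑ i, Complex.normSq (x i)) * ∑ i, Complex.normSq (y i) := by
  have h1 : ‖ip x y‖ ≤ ∑ i, ‖x i‖ * ‖y i‖ := by
    unfold ip
    refine (norm_sum_le _ _).trans (le_of_eq ?_)
    refine Finset.sum_congr rfl fun i _ => ?_
    rw [norm_mul, norm_star]
  have h2 := Finset.sum_mul_sq_le_sq_mul_sq Finset.univ (fun i => ‖x i‖) (fun i => ‖y i‖)
  simp only [Complex.normSq_eq_norm_sq]
  calc ‖ip x y‖ ^ 2 ≤ (∑ i, ‖x i‖ * ‖y i‖) ^ 2 := by
        exact pow_le_pow_left₀ (norm_nonneg _) h1 2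
    _ ≤ _ := h2

theorem ip_self (x : Cn n) : ip x x = ((∑ i, Complex.normSq (x i) : ℝ) : ℂ) := by
  unfold ip
  push_cast
  refine Finset.sum_congr rfl fun i _ => ?_
  rw [← mul_star_self]

/-- The Gram matrix of the Fubini-Study metric on `O(1)`. -/
noncomputable def fs (w : Cn n) : ℂ := (1 + ip w w)⁻¹

theorem one_add_ip_ne (w : Cn n) : 1 + ip w w ≠ 0 := by
  rw [ip_self]
  have : (0 : ℝ) < 1 + ∑ i, Complex.normSq (w i) := by
    have := Finset.sum_nonneg fun (i : Fin n) (_ : i ∈ Finset.univ) => Complex.normSq_nonneg (w i)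
    linarith
  exact_mod_cast this.ne'

theorem diff_one_add_ip (z : Cn n) : DifferentiableAt ℝ (fun w => 1 + ip w w) z :=
  (differentiableAt_const _).add (diff_ip_diag z)

theorem fs_ne (w : Cn n) : fs w ≠ 0 := inv_ne_zero (one_add_ip_ne w)

/-- curvature of the Fubini-Study metric -/
noncomputable def FS (z ξ η : Cn n) : ℂ :=
  (ip ξ η * (1 + ip z z) - ip ξ z * ip z η) / (1 + ip z z) ^ 2

theorem fs_log (w ξ : Cn n) : dz' fs w ξ / fs w = -(ip ξ w * (1 + ip w w)⁻¹) := by
  have h : dz' fs w ξ = -(ip ξ w / (1 + ip w w) ^ 2) := by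
    have := dz'_inv (diff_one_add_ip w) (one_add_ip_ne w) ξ
    rw [dz'_add (differentiableAt_const _) (diff_ip_diag w), dz'_const, dz'_ip_diag, zero_add] at this
    exact this
  rw [h, fs]
  have := one_add_ip_ne w
  field_simp

theorem fs_curv (z ξ η : Cn n) : -dz'' (fun w => dz' fs w ξ / fs w) z η = FS z ξ η := by
  simp only [fs_log]
  rw [dz''_neg, neg_neg, dz''_mul (g := fun w => (1 + ip w w)⁻¹) (diff_ip_right ξ z)
    ((diff_one_add_ip z).inv (one_add_ip_ne z)), dz''_ip_right,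
    dz''_inv (diff_one_add_ip z) (one_add_ip_ne z),
    dz''_add (differentiableAt_const _) (diff_ip_diag z), dz''_const, dz''_ip_diag, zero_add, FS]
  have := one_add_ip_ne z
  field_simp
  ring

theorem contDiff_ip : ContDiff ℝ ∞ fun w : Cn n => ip w w := by
  unfold ip
  refine ContDiff.sum fun i _ => ContDiff.mul ?_ ?_
  · exact (coordL i).contDiff
  · exact (Complex.conjCLE.toContinuousLinearMap.comp (coordL i)).contDiff

theorem contDiff_fs : ContDiff ℝ ∞ (fs : Cn n → ℂ) := by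
  unfold fs
  exact (contDiff_const.add contDiff_ip).inv one_add_ip_ne

/-- Conjugate symmetry of first derivatives of Hermitian matrix functions. -/
theorem mdz''_eq_conjTranspose {g : Cn n → Matrix (Fin r) (Fin r) ℂ} {z : Cn n}
    (hg : ∀ w, (g w)ᴴ = g w) (hd : ∀ α β, DifferentiableAt ℝ (fun w => g w α β) z) (ξ : Cn n) :
    mdz'' g z ξ = (mdz' g z ξ)ᴴ := by
  ext α β
  simp only [Matrix.conjTranspose_apply, mdz', mdz'', Matrix.of_apply]
  rw [← dz''_star (hd β α)]
  congr 1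
  funext w
  have := congrFun (congrFun (hg w) α) β
  rw [Matrix.conjTranspose_apply] at this
  exact this.symm

end general

end Pool.Agent.W517.Gr
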