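import Pool.Agent.W517.Gr.Chart0

set_option autoImplicit false

namespace Pool.Agent.W517.Gr

open Finset Filter Topology
open scoped ContDiff ComplexOrder Matrix

/-- data of the cut-off. -/
structure Cutoff (τ η : ℝ) where
  κ : ℝ → ℝ
  κ1 : ℝ → ℝ
  κ2 : ℝ → ℝ
  smooth : ContDiff ℝ ∞ κ
  d1 : ∀ t, HasDerivAt κ (κ1 t) t
  d2 : ∀ t, HasDerivAt κ1 (κ2 t) t
  zero : κ 0 = 1
  nonneg : ∀ t, 0 ≤ κ t
  le_one : ∀ t, κ t ≤ 1
  far : ∀ t, τ ≤ t → κ t = 0 ∧ κ1 t = 0 ∧ κ2 t = 0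
  slow : ∀ t, 3 * |t * κ1 t| + |t ^ 2 * κ2 t| ≤ η

theorem exists_Cutoff {τ η : ℝ} (hτ : 0 < τ) (hη : 0 < η) : Nonempty (Cutoff τ η) := by
  obtain ⟨κ, κ1, κ2, h1, h2, h3, h4, h5, h6, h7, h8⟩ := exists_cutoff τ η hτ hη
  exact ⟨⟨κ, κ1, κ2, h1, h2, h3, h4, h5, h6, h7, h8⟩⟩

variable {τ η : ℝ} (c : Cutoff τ η) (S : Fin 8 → Fin 8 → Fin 8 → Fin 8 → ℝ)

theorem two_of_infty {n : ℕ} {f : Cn n → ℂ} (h : ContDiff ℝ ∞ f) (z : Cn n) : ContDiffAt ℝ 2 f z :=
  (contDiff_infty.1 h 2).contDiffAt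

theorem nsq_ip (w : Cn 8) : ((nsq w : ℝ) : ℂ) = ip w w := by
  rw [ip_self]; rfl

theorem diff_nsq (z : Cn 8) : DifferentiableAt ℝ nsq z := by
  have h : nsq = fun w : Cn 8 => (ip w w).re := by
    funext w
    rw [← nsq_ip, Complex.ofReal_re]
  rw [h]
  exact (Complex.reCLM.differentiableAt).comp z (diff_ip_diag z)

theorem contDiff_nsq : ContDiff ℝ ∞ nsq := by
  have h : nsq = fun w : Cn 8 => (ip w w).re := by
    funext w
    rw [← nsq_ip, Complex.ofReal_re]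
  rw [h]
  exact Complex.reCLM.contDiff.comp contDiff_ip

theorem fun_nsq : (fun w : Cn 8 => ((nsq w : ℝ) : ℂ)) = fun w => ip w w := by
  funext w; exact nsq_ip w

/-- The perturbation. -/
noncomputable def Kf (w : Cn 8) : Matrix (Fin 8) (Fin 8) ℂ := ((c.κ (nsq w) : ℝ) : ℂ) • sf S w w

/-- The metric before twisting. -/
noncomputable def gf (w : Cn 8) : Matrix (Fin 8) (Fin 8) ℂ := 1 - Kf c S w

theorem contDiff_Kf (α β : Fin 8) : ContDiff ℝ ∞ fun w => Kf c S w α β := by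
  simp only [Kf, Matrix.smul_apply, smul_eq_mul]
  refine ContDiff.mul ?_ ?_
  · exact Complex.ofRealCLM.contDiff.comp (c.smooth.comp contDiff_nsq)
  · simp only [sf, Matrix.of_apply]
    refine ContDiff.sum fun i _ => ContDiff.sum fun j _ => ?_
    refine contDiff_const.mul (ContDiff.mul ?_ ?_)
    · exact (coordL i).contDiff
    · exact (Complex.conjCLE.toContinuousLinearMap.comp (coordL j)).contDiff

theorem contDiff_gf (α β : Fin 8) : ContDiff ℝ ∞ fun w => gf c S w α β := by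
  simp only [gf, Matrix.sub_apply]
  exact contDiff_const.sub (contDiff_Kf c S α β)

theorem diff_κ (z : Cn 8) : DifferentiableAt ℝ (fun w => ((c.κ (nsq w) : ℝ) : ℂ)) z :=
  Complex.ofRealCLM.differentiableAt.comp z ((c.d1 _).differentiableAt.comp z (diff_nsq z))

theorem diff_κ1 (z : Cn 8) : DifferentiableAt ℝ (fun w => ((c.κ1 (nsq w) : ℝ) : ℂ)) z :=
  Complex.ofRealCLM.differentiableAt.comp z ((c.d2 _).differentiableAt.comp z (diff_nsq z))

theorem mdz'_Kf (z ξ : Cn 8) : mdz' (Kf c S) z ξ =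
    (((c.κ1 (nsq z) : ℝ) : ℂ) * ip ξ z) • sf S z z + ((c.κ (nsq z) : ℝ) : ℂ) • sf S ξ z := by
  have h := mdz'_smul (diff_κ c z) (fun α β => diff_sf_diag S α β z) ξ
  rw [dz'_real_comp (diff_nsq z) (c.d1 _), fun_nsq, dz'_ip_diag, mdz'_sf] at h
  exact h

/-- the Levi form of the perturbation. -/
noncomputable def Lev (z ξ η' : Cn 8) : Matrix (Fin 8) (Fin 8) ℂ :=
  (((c.κ2 (nsq z) : ℝ) : ℂ) * ip z η' * ip ξ z + ((c.κ1 (nsq z) : ℝ) : ℂ) * ip ξ η') • sf S z z +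
    (((c.κ1 (nsq z) : ℝ) : ℂ) * ip ξ z) • sf S z η' +
    ((((c.κ1 (nsq z) : ℝ) : ℂ) * ip z η') • sf S ξ z + ((c.κ (nsq z) : ℝ) : ℂ) • sf S ξ η')

theorem mdz''_mdz'_Kf (z ξ η' : Cn 8) :
    mdz'' (fun w => mdz' (Kf c S) w ξ) z η' = Lev c S z ξ η' := by
  simp only [mdz'_Kf]
  have h1 : DifferentiableAt ℝ (fun w => ((c.κ1 (nsq w) : ℝ) : ℂ) * ip ξ w) z :=
    (diff_κ1 c z).mul (diff_ip_right ξ z)
  rw [mdz''_add, mdz''_smul h1 (fun α β => diff_sf_diag S α β z),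
    mdz''_smul (diff_κ c z) (fun α β => diff_sf_right S ξ α β z),
    dz''_mul (diff_κ1 c z) (diff_ip_right ξ z), dz''_real_comp (diff_nsq z) (c.d2 _),
    dz''_real_comp (diff_nsq z) (c.d1 _), fun_nsq, dz''_ip_diag, dz''_ip_right, mdz''_sf,
    mdz''_sf_right]
  · rfl
  · intro α β
    exact h1.mul (diff_sf_diag S α β z)
  · intro α β
    exact (diff_κ c z).mul (diff_sf_right S ξ α β z)

theorem mdz'_gf (z ξ : Cn 8) : mdz' (gf c S) z ξ = -mdz' (Kf c S) z ξ := by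
  ext α β
  simp only [mdz', gf, Matrix.of_apply, Matrix.sub_apply, Matrix.neg_apply]
  rw [dz'_sub (differentiableAt_const _) ((contDiff_Kf c S α β).differentiable (by simp)).differentiableAt,
    dz'_const, zero_sub]

theorem mdz''_gf (z ξ : Cn 8) : mdz'' (gf c S) z ξ = -mdz'' (Kf c S) z ξ := by
  ext α β
  simp only [mdz'', gf, Matrix.of_apply, Matrix.sub_apply, Matrix.neg_apply]
  rw [dz''_sub (differentiableAt_const _) ((contDiff_Kf c S α β).differentiable (by simp)).differentiableAt,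
    dz''_const, zero_sub]

theorem mdz''_mdz'_gf (z ξ η' : Cn 8) :
    mdz'' (fun w => mdz' (gf c S) w ξ) z η' = -Lev c S z ξ η' := by
  rw [← mdz''_mdz'_Kf]
  simp only [mdz'_gf]
  ext α β
  simp only [mdz'', Matrix.of_apply, Matrix.neg_apply]
  rw [dz''_neg]

theorem curv_gf (z ξ η' : Cn 8) (hdet : (gf c S z).det ≠ 0) :
    chernCurvature (gf c S) z ξ η' * gf c S z =
      Lev c S z ξ η' + mdz' (gf c S) z ξ * (gf c S z)⁻¹ * mdz'' (gf c S) z η' := by
  rw [chernCurvature_mul (fun α β => ((contDiff_gf c S α β).differentiable (by simp)).differentiableAt)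
    _ hdet, mdz''_mdz'_gf, neg_neg]
  intro α β
  exact differentiableAt_dz' (two_of_infty (contDiff_gf c S α β) _) ξ

variable {S}

theorem Kf_herm (hsym : ∀ α β i j, S β α j i = S α β i j) (w : Cn 8) : (Kf c S w)ᴴ = Kf c S w := by
  rw [Kf, Matrix.conjTranspose_smul, sf_conjTranspose S hsym, Complex.star_def, Complex.conj_ofReal]

theorem gf_herm (hsym : ∀ α β i j, S β α j i = S α β i j) (w : Cn 8) : (gf c S w)ᴴ = gf c S w := by
  rw [gf, Matrix.conjTranspose_sub, Matrix.conjTranspose_one, Kf_herm c hsym]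

theorem Lev_herm (hsym : ∀ α β i j, S β α j i = S α β i j) (z ξ : Cn 8) :
    (Lev c S z ξ ξ)ᴴ = Lev c S z ξ ξ := by
  unfold Lev
  simp only [Matrix.conjTranspose_add, Matrix.conjTranspose_smul, sf_conjTranspose S hsym,
    star_add, star_mul', ip_star, Complex.star_def, Complex.conj_ofReal]
  rw [mul_right_comm _ (ip ξ z) (ip z ξ)]
  abel

/-- twisted metric in the chart `U_0`. -/
noncomputable def h0 (w : Cn 8) : Matrix (Fin 8) (Fin 8) ℂ := fs w • gf c S w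

theorem curv_h0 (z ξ η' : Cn 8) (hdet : (gf c S z).det ≠ 0) :
    chernCurvature (h0 c (S := S)) z ξ η' = FS z ξ η' • 1 + chernCurvature (gf c S) z ξ η' := by
  have h := chernCurvature_twist (u := fs) (h := gf c S) (z := z)
    (two_of_infty contDiff_fs _) (fs_ne z)
    (fun α β => two_of_infty (contDiff_gf c S α β) _) hdet ξ η'
  rw [fs_curv] at h
  exact h

/-- positivity criterion. -/
theorem griffiths_h0 (hsym : ∀ α β i j, S β α j i = S α β i j) (z : Cn 8)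
    (hg : (gf c S z).PosDef)
    (hmain : ∀ ξ : Cn 8, ξ ≠ 0 → (FS z ξ ξ • gf c S z + Lev c S z ξ ξ).PosDef) :
    GriffithsPositiveAt (h0 c (S := S)) z := by
  intro ξ hξ
  have hdet : (gf c S z).det ≠ 0 := hg.det_pos.ne'
  have hfs : 0 < fs z := by
    unfold fs
    rw [ip_self]
    have h1 : (0 : ℝ) < (1 + ∑ i, Complex.normSq (z i))⁻¹ := by
      have := Finset.sum_nonneg fun (i : Fin 8) (_ : i ∈ Finset.univ) => Complex.normSq_nonneg (z i)
      positivity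
    exact_mod_cast h1
  have e : chernCurvature (h0 c (S := S)) z ξ ξ * h0 c (S := S) z = fs z •
      (FS z ξ ξ • gf c S z + Lev c S z ξ ξ +
        mdz' (gf c S) z ξ * (gf c S z)⁻¹ * (mdz' (gf c S) z ξ)ᴴ) := by
    rw [curv_h0 c z ξ ξ hdet, h0, Matrix.mul_smul, add_mul, curv_gf c S z ξ ξ hdet, smul_mul_assoc,
      one_mul, ← mdz''_eq_conjTranspose (gf_herm c hsym)
        (fun α β => ((contDiff_gf c S α β).differentiable (by simp)).differentiableAt), ← add_assoc]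
  rw [e]
  refine Matrix.PosDef.smul ?_ hfs
  exact (hmain ξ hξ).add_posSemidef (hg.inv.posSemidef.mul_mul_conjTranspose_same _)

end Pool.Agent.W517.Gr
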