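import Mathlib

set_option autoImplicit false

namespace Pool.Agent.W517.Gr

open Finset

/-- The hyperdeterminant (alternating in the last three indices, the first one numbering the
factors) of a tensor. -/
def hdet {n : ℕ} {A : Type*} [CommRing A] (R : Fin n → Fin n → Fin n → Fin n → A) : A :=
  ∑ w : Equiv.Perm (Fin n), ∑ p : Equiv.Perm (Fin n), ∑ q : Equiv.Perm (Fin n),
    ((Equiv.Perm.sign w : ℤ) : A) * ((Equiv.Perm.sign p : ℤ) : A) *
      ((Equiv.Perm.sign q : ℤ) : A) * ∏ a, R a (w a) (p a) (q a)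

/-- the three-valued order sign. -/
def sg {n : ℕ} (x y : Fin n) : ℤ := if x.val < y.val then 1 else if y.val < x.val then -1 else 0

/-- extension of the sign to all self-maps. -/
def eps {n : ℕ} (f : Fin n → Fin n) : ℤ := ∏ a, ∏ b, if b < a then sg (f b) (f a) else 1

theorem eps_perm {n : ℕ} (σ : Equiv.Perm (Fin n)) : eps (σ : Fin n → Fin n) = Equiv.Perm.sign σ := by
  rw [Equiv.Perm.sign_eq_prod_prod_Iio, eps]
  push_cast
  refine Finset.prod_congr rfl fun a _ => ?_
  rw [← Finset.prod_filter]
  have : (Finset.univ.filter fun b => b < a) = Finset.Iio a := by ext; simp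
  rw [this]
  refine Finset.prod_congr rfl fun b hb => ?_
  have hne : σ b ≠ σ a := by
    intro h
    have := σ.injective h
    rw [Finset.mem_Iio] at hb
    exact absurd this hb.ne
  unfold sg
  by_cases h : σ b < σ a
  · rw [if_pos (by exact h), if_pos h]; rfl
  · have h2 : σ a < σ b := lt_of_le_of_ne (not_lt.1 h) (Ne.symm hne)
    rw [if_neg (by exact h), if_pos (by exact h2), if_neg h]; rfl

theorem eps_not_inj {n : ℕ} (f : Fin n → Fin n) (hf : ¬ Function.Injective f) : eps f = 0 := by
  rw [Function.Injective] at hf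
  push Not at hf
  obtain ⟨a, b, hab, hne⟩ := hf
  rcases lt_or_gt_of_ne hne with h | h
  · unfold eps
    refine Finset.prod_eq_zero (Finset.mem_univ b) (Finset.prod_eq_zero (Finset.mem_univ a) ?_)
    rw [if_pos h, hab]
    simp [sg]
  · unfold eps
    refine Finset.prod_eq_zero (Finset.mem_univ a) (Finset.prod_eq_zero (Finset.mem_univ b) ?_)
    rw [if_pos h, hab]
    simp [sg]

theorem sum_perm_eq {n : ℕ} (F : (Fin n → Fin n) → ℤ) :
    ∑ σ : Equiv.Perm (Fin n), (Equiv.Perm.sign σ : ℤ) * F σ = ∑ f : Fin n → Fin n, eps f * F f := by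
  refine Fintype.sum_of_injective (fun σ : Equiv.Perm (Fin n) => (σ : Fin n → Fin n)) ?_ _ _ ?_ ?_
  · intro σ τ h
    exact DFunLike.coe_injective h
  · intro f hf
    rw [eps_not_inj f, zero_mul]
    intro hinj
    apply hf
    exact ⟨Equiv.ofBijective f ((Fintype.bijective_iff_injective_and_card f).2 ⟨hinj, rfl⟩), rfl⟩
  · intro σ
    simp only [eps_perm]

/-- index triples. -/
abbrev E (n : ℕ) := Fin n × Fin n × Fin n

/-- sign of a pair of index triples. -/
def ss {n : ℕ} (x y : E n) : ℤ := sg x.1 y.1 * sg x.2.1 y.2.1 * sg x.2.2 y.2.2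

/-- sum over all choices. -/
def G (m : ℕ) {n : ℕ} (ρ : Fin m → E n → ℤ) : ℤ :=
  ∑ c : Fin m → E n, (∏ a, ρ a (c a)) * ∏ a, ∏ b, if b < a then ss (c b) (c a) else 1

theorem hdet_eq_G {n : ℕ} (R : Fin n → Fin n → Fin n → Fin n → ℤ) :
    hdet R = G n (fun a (e : E n) => R a e.1 e.2.1 e.2.2) := by
  unfold hdet
  have h1 : ∀ w p : Fin n → Fin n, ∑ q : Equiv.Perm (Fin n), (Equiv.Perm.sign q : ℤ) *
      (∏ a, R a (w a) (p a) (q a)) = ∑ q : Fin n → Fin n, eps q * ∏ a, R a (w a) (p a) (q a) :=
    fun w p => sum_perm_eq (fun q => ∏ a, R a (w a) (p a) (q a))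
  have h2 : ∀ w : Fin n → Fin n, ∑ p : Equiv.Perm (Fin n), (Equiv.Perm.sign p : ℤ) *
      (∑ q : Fin n → Fin n, eps q * ∏ a, R a (w a) (p a) (q a)) =
      ∑ p : Fin n → Fin n, eps p * ∑ q : Fin n → Fin n, eps q * ∏ a, R a (w a) (p a) (q a) :=
    fun w => sum_perm_eq (fun p => ∑ q : Fin n → Fin n, eps q * ∏ a, R a (w a) (p a) (q a))
  have h3 := sum_perm_eq (fun w : Fin n → Fin n =>
    ∑ p : Fin n → Fin n, eps p * ∑ q : Fin n → Fin n, eps q * ∏ a, R a (w a) (p a) (q a))
  calc _ = ∑ w : Equiv.Perm (Fin n), (Equiv.Perm.sign w : ℤ) *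
        ∑ p : Equiv.Perm (Fin n), (Equiv.Perm.sign p : ℤ) *
        ∑ q : Equiv.Perm (Fin n), (Equiv.Perm.sign q : ℤ) * ∏ a, R a (w a) (p a) (q a) := by
        refine Finset.sum_congr rfl fun w _ => ?_
        rw [Finset.mul_sum]
        refine Finset.sum_congr rfl fun p _ => ?_
        rw [← mul_assoc, Finset.mul_sum]
        refine Finset.sum_congr rfl fun q _ => ?_
        simp only [Int.cast_id]
        ring
    _ = ∑ w : Fin n → Fin n, eps w * ∑ p : Fin n → Fin n, eps p *
        ∑ q : Fin n → Fin n, eps q * ∏ a, R a (w a) (p a) (q a) := by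
        rw [← h3]
        refine Finset.sum_congr rfl fun w _ => ?_
        congr 1
        rw [← h2]
        refine Finset.sum_congr rfl fun p _ => ?_
        congr 1
        exact h1 _ _
    _ = ∑ c : (Fin n → Fin n) × (Fin n → Fin n) × (Fin n → Fin n),
        eps c.1 * (eps c.2.1 * (eps c.2.2 * ∏ a, R a (c.1 a) (c.2.1 a) (c.2.2 a))) := by
        rw [Fintype.sum_prod_type]
        refine Finset.sum_congr rfl fun w _ => ?_
        rw [Fintype.sum_prod_type, Finset.mul_sum]
        refine Finset.sum_congr rfl fun p _ => ?_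
        simp only [Finset.mul_sum]
    _ = _ := by
        unfold G
        let e : (Fin n → E n) ≃ (Fin n → Fin n) × (Fin n → Fin n) × (Fin n → Fin n) :=
          { toFun := fun c => (fun a => (c a).1, fun a => (c a).2.1, fun a => (c a).2.2)
            invFun := fun c a => (c.1 a, c.2.1 a, c.2.2 a)
            left_inv := fun c => rfl
            right_inv := fun c => rfl }
        rw [← e.sum_comp]
        refine Finset.sum_congr rfl fun c _ => ?_
        simp only [e, Equiv.coe_fn_mk]
        have : (∏ a, ∏ b, if b < a then ss (c b) (c a) else 1) =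
            eps (fun a => (c a).1) * (eps (fun a => (c a).2.1) * eps (fun a => (c a).2.2)) := by
          unfold eps
          rw [← Finset.prod_mul_distrib, ← Finset.prod_mul_distrib]
          refine Finset.prod_congr rfl fun a _ => ?_
          rw [← Finset.prod_mul_distrib, ← Finset.prod_mul_distrib]
          refine Finset.prod_congr rfl fun b _ => ?_
          by_cases h : b < a
          · simp only [if_pos h, ss]; ring
          · simp only [if_neg h]; ring
        rw [this]
        ring

theorem G_succ {m n : ℕ} (ρ : Fin (m + 1) → E n → ℤ) :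
    G (m + 1) ρ = ∑ e : E n, ρ 0 e * G m (fun a c => ρ a.succ c * ss e c) := by
  unfold G
  rw [← (Fin.consEquiv (fun _ : Fin (m + 1) => E n)).sum_comp, Fintype.sum_prod_type]
  refine Finset.sum_congr rfl fun e _ => ?_
  rw [Finset.mul_sum]
  refine Finset.sum_congr rfl fun c _ => ?_
  simp only [Fin.consEquiv_apply]
  rw [Fin.prod_univ_succ, Fin.prod_univ_succ (fun a : Fin (m+1) => ∏ b, if b < a then _ else _)]
  have h0 : (∏ b : Fin (m + 1), if b < 0 then
      ss ((Fin.cons e c : Fin (m + 1) → E n) b) ((Fin.cons e c : Fin (m + 1) → E n) 0) else 1) = 1 := by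
    refine Finset.prod_eq_one fun b _ => ?_
    rw [if_neg (Fin.not_lt_zero b)]
  have h1 : ∀ a : Fin m, (∏ b : Fin (m + 1), if b < a.succ then
      ss ((Fin.cons e c : Fin (m + 1) → E n) b) ((Fin.cons e c : Fin (m + 1) → E n) a.succ) else 1)
      = ss e (c a) * ∏ b : Fin m, if b < a then ss (c b) (c a) else 1 := by
    intro a
    rw [Fin.prod_univ_succ]
    simp only [Fin.succ_pos, if_true, Fin.cons_zero, Fin.cons_succ, Fin.succ_lt_succ_iff]
  rw [h0, Finset.prod_congr rfl (fun a _ => h1 a)]
  simp only [Fin.cons_zero, Fin.cons_succ]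
  rw [Finset.prod_mul_distrib, Finset.prod_mul_distrib]
  ring

/-- function of a sparse list. -/
def rowfun {n : ℕ} (L : List (E n × ℤ)) (e : E n) : ℤ :=
  (L.map fun x => if x.1 = e then x.2 else 0).sum

theorem sum_rowfun {n : ℕ} (L : List (E n × ℤ)) (F : E n → ℤ) :
    ∑ e, rowfun L e * F e = (L.map fun x => x.2 * F x.1).sum := by
  induction L with
  | nil => simp [rowfun]
  | cons x L ih =>
    have : ∀ e, rowfun (x :: L) e = (if x.1 = e then x.2 else 0) + rowfun L e := fun e => by
      simp [rowfun]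
    simp only [this, add_mul, Finset.sum_add_distrib, ih, List.map_cons, List.sum_cons, ite_mul,
      zero_mul, Finset.sum_ite_eq, Finset.mem_univ, if_true]

/-- forward checking. -/
def chk {n : ℕ} (e : E n) (M : List (E n × ℤ)) : List (E n × ℤ) :=
  M.filterMap fun y => if ss e y.1 = 0 then none else some (y.1, y.2 * ss e y.1)

theorem rowfun_chk {n : ℕ} (e : E n) (M : List (E n × ℤ)) (c : E n) :
    rowfun (chk e M) c = rowfun M c * ss e c := by
  induction M with
  | nil => simp [rowfun, chk]
  | cons y M ih =>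
    have h1 : rowfun (y :: M) c = (if y.1 = c then y.2 else 0) + rowfun M c := by simp [rowfun]
    rw [h1, add_mul, ← ih]
    by_cases h : ss e y.1 = 0
    · have : chk e (y :: M) = chk e M := by simp [chk, h]
      rw [this]
      by_cases hc : y.1 = c
      · rw [if_pos hc, ← hc, h]; ring
      · rw [if_neg hc]; ring
    · have : chk e (y :: M) = (y.1, y.2 * ss e y.1) :: chk e M := by simp [chk, h]
      rw [this]
      by_cases hc : y.1 = c
      · simp [rowfun, hc]
      · simp [rowfun, hc]

/-- recursive evaluation. -/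
def go {n : ℕ} : ℕ → List (List (E n × ℤ)) → ℤ
  | 0, _ => 1
  | _ + 1, [] => 1
  | m + 1, L :: Ls => (L.map fun x => x.2 * go m (Ls.map (chk x.1))).sum

theorem G_eq_go {n : ℕ} (m : ℕ) (rows : Fin m → List (E n × ℤ)) :
    G m (fun a => rowfun (rows a)) = go m (List.ofFn rows) := by
  induction m with
  | zero => simp [G, go]
  | succ m ih =>
    rw [G_succ, sum_rowfun, List.ofFn_succ, go]
    congr 1
    refine List.map_congr_left fun x _ => ?_
    congr 1
    rw [List.map_ofFn, ← ih]
    congr 1
    funext a c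
    simp only [Function.comp, rowfun_chk]

end Pool.Agent.W517.Gr
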