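import Pool.Agent.W517.Gr.Comb

set_option autoImplicit false

namespace Pool.Agent.W517.Gr

/-- The nonzero entries of the tensor: row `a` lists the `((b, i, j), v)` with
`R a b i j = v`, all equal to `1` or `-1`. -/
def rows : Fin 8 → List (E 8 × ℤ)
  | 0 => [((0, 0, 0), 1), ((0, 3, 3), 1), ((1, 0, 1), 1), ((1, 4, 3), 1), ((2, 0, 2), 1),
      ((2, 5, 3), 1)]
  | 1 => [((0, 1, 0), 1), ((0, 3, 4), 1), ((1, 1, 1), 1), ((1, 4, 4), 1), ((2, 1, 2), 1),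
      ((2, 5, 4), 1)]
  | 2 => [((0, 2, 0), 1), ((0, 3, 5), 1), ((1, 2, 1), 1), ((1, 4, 5), 1), ((2, 2, 2), 1),
      ((2, 5, 5), 1)]
  | 3 => [((3, 1, 1), 1), ((3, 2, 2), 1), ((3, 4, 4), 1), ((3, 5, 5), 1), ((3, 6, 6), 1),
      ((4, 0, 1), -1), ((4, 4, 3), -1), ((4, 6, 7), 1), ((6, 0, 4), -1), ((6, 1, 3), 1),
      ((7, 0, 5), -1), ((7, 2, 3), 1)]
  | 4 => [((3, 1, 0), -1), ((3, 3, 4), -1), ((3, 7, 6), 1), ((4, 0, 0), 1), ((4, 2, 2), 1),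
      ((4, 3, 3), 1), ((4, 5, 5), 1), ((4, 7, 7), 1), ((5, 0, 4), 1), ((5, 1, 3), -1),
      ((7, 1, 5), -1), ((7, 2, 4), 1)]
  | 5 => [((4, 3, 1), -1), ((4, 4, 0), 1), ((5, 1, 1), 1), ((5, 2, 2), 1), ((5, 4, 4), 1),
      ((5, 5, 5), 1), ((5, 6, 6), 1), ((6, 1, 0), -1), ((6, 3, 4), -1), ((6, 7, 6), 1),
      ((7, 2, 0), -1), ((7, 3, 5), -1)]
  | 6 => [((3, 3, 1), 1), ((3, 4, 0), -1), ((5, 0, 1), -1), ((5, 4, 3), -1), ((5, 6, 7), 1),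
      ((6, 0, 0), 1), ((6, 2, 2), 1), ((6, 3, 3), 1), ((6, 5, 5), 1), ((6, 7, 7), 1),
      ((7, 2, 1), -1), ((7, 4, 5), -1)]
  | 7 => [((3, 3, 2), 1), ((3, 5, 0), -1), ((4, 4, 2), 1), ((4, 5, 1), -1), ((5, 0, 2), -1),
      ((5, 5, 3), -1), ((6, 1, 2), -1), ((6, 5, 4), -1), ((7, 0, 0), 1), ((7, 1, 1), 1),
      ((7, 3, 3), 1), ((7, 4, 4), 1)]

set_option maxRecDepth 100000 in
theorem go_rows : go 8 (List.ofFn rows) = -80 := by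
  decide +kernel

/-- The tensor. -/
def R0 (a b i j : Fin 8) : ℤ := rowfun (rows a) (b, i, j)

theorem hdet_R0 : hdet R0 = -80 := by
  rw [hdet_eq_G, ← go_rows, ← G_eq_go]
  rfl

/-- Hermitian symmetry. -/
theorem R0_symm : ∀ a b i j : Fin 8, R0 b a j i = R0 a b i j := by
  decide +kernel

end Pool.Agent.W517.Gr
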