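import Mathlib

/-!
# Hermitian metrics, Chern curvature, Chern forms and positive forms on open subsets of `ℂⁿ`

A Hermitian holomorphic vector bundle of rank `r` over an open set `X ⊆ ℂⁿ` whose underlying
holomorphic bundle is trivial is given, in a global holomorphic frame `e₁, …, e_r`, by the Gram
matrix `h z = (⟨e_α, e_β⟩_z)`, a smooth function with values in the positive definite matrices.
-/

set_option autoImplicit false

namespace Pool.Agent.W517.Gr

open scoped ContDiff ComplexOrder Matrix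

/-- The complex coordinate space `ℂⁿ`. -/
abbrev Cn (n : ℕ) := Fin n → ℂ

/-- The real directional derivative `Df(z)ξ`. -/
noncomputable def rD {n : ℕ} (f : Cn n → ℂ) (z ξ : Cn n) : ℂ := fderiv ℝ f z ξ

/-- `∂_ξ f (z) = (Df(z)ξ - i Df(z)(iξ)) / 2`, the `(1,0)`-derivative in the direction `ξ`. -/
noncomputable def dz' {n : ℕ} (f : Cn n → ℂ) (z ξ : Cn n) : ℂ :=
  (rD f z ξ - Complex.I * rD f z (Complex.I • ξ)) / 2

/-- `∂̄_η f (z) = (Df(z)η + i Df(z)(iη)) / 2`, the `(0,1)`-derivative in the direction `η`. -/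
noncomputable def dz'' {n : ℕ} (f : Cn n → ℂ) (z η : Cn n) : ℂ :=
  (rD f z η + Complex.I * rD f z (Complex.I • η)) / 2

/-- `(1,0)`-derivative of a matrix-valued function, entry by entry. -/
noncomputable def mdz' {n r : ℕ} (h : Cn n → Matrix (Fin r) (Fin r) ℂ) (z ξ : Cn n) :
    Matrix (Fin r) (Fin r) ℂ :=
  Matrix.of fun α β => dz' (fun w => h w α β) z ξ

/-- `(0,1)`-derivative of a matrix-valued function, entry by entry. -/
noncomputable def mdz'' {n r : ℕ} (h : Cn n → Matrix (Fin r) (Fin r) ℂ) (z η : Cn n) :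
    Matrix (Fin r) (Fin r) ℂ :=
  Matrix.of fun α β => dz'' (fun w => h w α β) z η

/-- A smooth Hermitian metric on the trivial bundle `X × ℂʳ`. -/
def IsMetricOn {n r : ℕ} (X : Set (Cn n)) (h : Cn n → Matrix (Fin r) (Fin r) ℂ) : Prop :=
  (∀ α β, ContDiffOn ℝ ∞ (fun z => h z α β) X) ∧ ∀ z ∈ X, (h z).PosDef

/-- The connection form of the Chern connection: `θ(ξ) = ∂_ξ h · h⁻¹`, where
`∇ e_α = ∑ θ_αβ e_β`. -/
noncomputable def chernConnection {n r : ℕ} (h : Cn n → Matrix (Fin r) (Fin r) ℂ) (ξ z : Cn n) :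
    Matrix (Fin r) (Fin r) ℂ :=
  mdz' h z ξ * (h z)⁻¹

/-- The Chern curvature `Θ = ∂̄θ = ∑ Θ(e_i, e_j) dz_i ∧ dz̄_j`, that is
`Θ(ξ, η) = -∂̄_η (θ(ξ))`; here `∇² e_α = ∑ Θ_αβ e_β`. -/
noncomputable def chernCurvature {n r : ℕ} (h : Cn n → Matrix (Fin r) (Fin r) ℂ) (z ξ η : Cn n) :
    Matrix (Fin r) (Fin r) ℂ :=
  -mdz'' (chernConnection h ξ) z η

/-- Griffiths positivity at the point `z`: `⟨Θ(ξ, ξ̄) v, v⟩_h = vᵀ (Θ(ξ, ξ) h) v̄ > 0` for all tangent
vectors `ξ ≠ 0` and all `v ≠ 0` in the fibre. -/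
def GriffithsPositiveAt {n r : ℕ} (h : Cn n → Matrix (Fin r) (Fin r) ℂ) (z : Cn n) : Prop :=
  ∀ ξ : Cn n, ξ ≠ 0 → (chernCurvature h z ξ ξ * h z).PosDef

/-- The complex-valued real-linear forms on the tangent space `ℂⁿ`. -/
abbrev CForm (n : ℕ) := Cn n →ₗ[ℝ] ℂ

noncomputable instance instAddCommGroupCForm (n : ℕ) : AddCommGroup (CForm n) := LinearMap.addCommGroup

noncomputable instance instModuleCForm (n : ℕ) : Module ℂ (CForm n) := LinearMap.module

/-- The exterior algebra of the complex-valued real-linear forms: the complex-valued differential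
forms at a point. -/
abbrev Forms (n : ℕ) := ExteriorAlgebra ℂ (CForm n)

noncomputable instance instRingForms (n : ℕ) : Ring (Forms n) := inferInstance

noncomputable instance instAlgebraForms (n : ℕ) : Algebra ℂ (Forms n) := inferInstance

/-- The form `dz_i`. -/
noncomputable def dzf {n : ℕ} (i : Fin n) : CForm n := (LinearMap.proj i : Cn n →ₗ[ℂ] ℂ).restrictScalars ℝ

/-- The form `dz̄_i`. -/
noncomputable def dzbf {n : ℕ} (i : Fin n) : CForm n :=
  Complex.conjAe.toLinearMap ∘ₗ dzf i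

/-- A one-form as an element of the exterior algebra. -/
noncomputable def oneForm {n : ℕ} (a : CForm n) : Forms n := ExteriorAlgebra.ι ℂ a

/-- Products of two one-forms are central in the exterior algebra. -/
theorem oneForm_mul_mem_center {n : ℕ} (a b : CForm n) :
    oneForm a * oneForm b ∈ Subalgebra.center ℂ (Forms n) := by
  show ExteriorAlgebra.ι ℂ a * ExteriorAlgebra.ι ℂ b ∈ Subalgebra.center ℂ (Forms n)
  rw [Subalgebra.mem_center_iff]
  intro x
  have sw : ∀ u v : CForm n, ExteriorAlgebra.ι ℂ u * ExteriorAlgebra.ι ℂ v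
      = -(ExteriorAlgebra.ι ℂ v * ExteriorAlgebra.ι ℂ u) := fun u v =>
    eq_neg_of_add_eq_zero_left (ExteriorAlgebra.ι_add_mul_swap u v)
  induction x using ExteriorAlgebra.induction with
  | algebraMap c => exact Algebra.commutes c _
  | ι c =>
    calc ExteriorAlgebra.ι ℂ c * (ExteriorAlgebra.ι ℂ a * ExteriorAlgebra.ι ℂ b)
        = (ExteriorAlgebra.ι ℂ c * ExteriorAlgebra.ι ℂ a) * ExteriorAlgebra.ι ℂ b := by
          rw [mul_assoc]
      _ = -(ExteriorAlgebra.ι ℂ a * (ExteriorAlgebra.ι ℂ c * ExteriorAlgebra.ι ℂ b)) := by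
          rw [sw c a, neg_mul, mul_assoc]
      _ = _ := by rw [sw c b, mul_neg, neg_neg, mul_assoc]
  | mul x y hx hy => rw [mul_assoc, hy, ← mul_assoc, hx, mul_assoc]
  | add x y hx hy => rw [add_mul, mul_add, hx, hy]

/-- The centre of the algebra of complex-valued forms at a point: a commutative ring containing
the 2-forms, in which the determinants defining the Chern forms are taken. -/
abbrev FormAlg (n : ℕ) : Type := {x : Forms n // x ∈ Subalgebra.center ℂ (Forms n)}

noncomputable instance instCommRingFormAlg (n : ℕ) : CommRing (FormAlg n) :=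
  inferInstanceAs (CommRing (Subalgebra.center ℂ (Forms n)))

noncomputable instance instAlgebraFormAlg (n : ℕ) : Algebra ℂ (FormAlg n) :=
  inferInstanceAs (Algebra ℂ (Subalgebra.center ℂ (Forms n)))

/-- The 2-form `a ∧ b`. -/
noncomputable def wedge2 {n : ℕ} (a b : CForm n) : FormAlg n :=
  ⟨oneForm a * oneForm b, oneForm_mul_mem_center a b⟩

/-- The curvature at `z` as a matrix of 2-forms `∑ Θ(e_i, e_j)_αβ dz_i ∧ dz̄_j`. -/
noncomputable def curvatureForm {n r : ℕ} (h : Cn n → Matrix (Fin r) (Fin r) ℂ) (z : Cn n) :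
    Matrix (Fin r) (Fin r) (FormAlg n) :=
  Matrix.of fun α β => ∑ i, ∑ j,
    chernCurvature h z (Pi.single i 1) (Pi.single j 1) α β • wedge2 (dzf i) (dzbf j)

/-- The Chern form `c_k(E, h)` at `z`: the coefficient of `t^k` in `det (Id + t (i/2π) Θ)`. -/
noncomputable def chernForm {n r : ℕ} (h : Cn n → Matrix (Fin r) (Fin r) ℂ) (k : ℕ) (z : Cn n) :
    FormAlg n :=
  (((Polynomial.X : Polynomial (FormAlg n)) • ((Complex.I / (2 * Real.pi)) • curvatureForm h z).map Polynomial.C + 1 :
    Matrix (Fin r) (Fin r) (Polynomial (FormAlg n))).det).coeff k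

/-- Evaluation of one-forms at the tangent vector `w`. -/
noncomputable def evalAt {n : ℕ} (w : Cn n) : CForm n →ₗ[ℂ] ℂ where
  toFun φ := φ w
  map_add' _ _ := rfl
  map_smul' _ _ := rfl

/-- The alternating map `(φ_1, …, φ_m) ↦ det (φ_i(v_j))`. -/
noncomputable def detAt {n m : ℕ} (v : Fin m → Cn n) : CForm n [⋀^Fin m]→ₗ[ℂ] ℂ :=
  Matrix.detRowAlternating.compLinearMap (LinearMap.pi fun j => evalAt (v j))

/-- Evaluation of forms on the real tangent vectors `v_1, …, v_m`:
`(φ_1 ∧ ⋯ ∧ φ_m)(v_1, …, v_m) = det (φ_i(v_j))`, and `0` on forms of degree different from `m`. -/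
noncomputable def evalForm {n m : ℕ} (v : Fin m → Cn n) : Forms n →ₗ[ℂ] ℂ :=
  ExteriorAlgebra.liftAlternating fun i =>
    if hi : i = m then detAt fun j => v (Fin.cast hi j) else 0

/-- The oriented real frame `(v_1, i v_1, …, v_k, i v_k)` of the complex span of `v_1, …, v_k`. -/
noncomputable def realFrame {n k : ℕ} (v : Fin k → Cn n) (s : Fin (k * 2)) : Cn n :=
  if (finProdFinEquiv.symm s).2 = 0 then v (finProdFinEquiv.symm s).1
  else Complex.I • v (finProdFinEquiv.symm s).1

/-- A `(k, k)`-form is positive if its restriction to every `k`-dimensional complex subspace is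
a nonnegative multiple of the (canonically oriented) volume form. -/
def IsPositiveForm {n : ℕ} (k : ℕ) (u : FormAlg n) : Prop :=
  ∀ v : Fin k → Cn n, LinearIndependent ℂ v →
    0 ≤ evalForm (realFrame v) u.1

end Pool.Agent.W517.Gr
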