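import Pool.Agent.W517.Gr.Chart1

set_option autoImplicit false

namespace Pool.Agent.W517.Gr

open Finset Filter Topology
open scoped ContDiff ComplexOrder Matrix

theorem posDef_of_re {n : ℕ} {M : Matrix (Fin n) (Fin n) ℂ} (hM : Mᴴ = M)
    (h : ∀ x : Fin n → ℂ, x ≠ 0 → 0 < (star x ⬝ᵥ (M *ᵥ x)).re) : M.PosDef := by
  refine Matrix.PosDef.of_dotProduct_mulVec_pos hM fun x hx => ?_
  have him : (star x ⬝ᵥ (M *ᵥ x)).im = 0 :=
    Matrix.IsHermitian.im_star_dotProduct_mulVec_self hM x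
  rw [Complex.lt_def]
  exact ⟨by simpa using h x hx, by simpa using him.symm⟩

/-- the form `x^* S(a, b) x`. -/
noncomputable def sx (S : Fin 8 → Fin 8 → Fin 8 → Fin 8 → ℝ) (x a b : Fin 8 → ℂ) : ℂ :=
  star x ⬝ᵥ (sf S a b *ᵥ x)

theorem l1_sq (y : Fin 8 → ℂ) : (∑ a, ‖y a‖) ^ 2 ≤ 8 * nsq y := by
  have := sq_sum_le_card_mul_sum_sq (s := (Finset.univ : Finset (Fin 8))) (f := fun a => ‖y a‖)
  simp only [Finset.card_univ, Fintype.card_fin] at this
  have h8 : ((8 : ℕ) : ℝ) = 8 := by norm_num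
  rw [h8] at this
  simp only [nsq, Complex.normSq_eq_norm_sq]
  exact this

/-- Euclidean norm -/
noncomputable def en (y : Fin 8 → ℂ) : ℝ := Real.sqrt (nsq y)

theorem en_nonneg (y : Fin 8 → ℂ) : 0 ≤ en y := Real.sqrt_nonneg _

theorem en_sq (y : Fin 8 → ℂ) : en y ^ 2 = nsq y := Real.sq_sqrt (nsq_nonneg y)

theorem l1_le (y : Fin 8 → ℂ) : ∑ a, ‖y a‖ ≤ Real.sqrt 8 * en y := by
  rw [en, ← Real.sqrt_mul (by norm_num)]
  exact Real.le_sqrt_of_sq_le (l1_sq y)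

theorem norm_sx_le {S : Fin 8 → Fin 8 → Fin 8 → Fin 8 → ℝ} {B : ℝ}
    (hS : ∀ a b i j, |S a b i j| ≤ B) (x a b : Fin 8 → ℂ) :
    ‖sx S x a b‖ ≤ 64 * B * (nsq x * (en a * en b)) := by
  have hB : 0 ≤ B := (abs_nonneg _).trans (hS 0 0 0 0)
  have h0 : sx S x a b =
      ∑ α, ∑ β, ∑ i, ∑ j, (S α β i j : ℂ) * (star (x α) * x β * (a i * star (b j))) := by
    simp only [sx, dotProduct, Matrix.mulVec, sf, Matrix.of_apply, Pi.star_apply, Finset.mul_sum,
      Finset.sum_mul]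
    refine Finset.sum_congr rfl fun a _ => Finset.sum_congr rfl fun b _ =>
      Finset.sum_congr rfl fun i _ => Finset.sum_congr rfl fun j _ => ?_
    ring
  have h1 : ‖sx S x a b‖ ≤ ∑ α, ∑ β, ∑ i, ∑ j, (B * (‖x α‖ * ‖x β‖ * (‖a i‖ * ‖b j‖))) := by
    rw [h0]
    refine (norm_sum_le _ _).trans (Finset.sum_le_sum fun α _ => ?_)
    refine (norm_sum_le _ _).trans (Finset.sum_le_sum fun β _ => ?_)
    refine (norm_sum_le _ _).trans (Finset.sum_le_sum fun i _ => ?_)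
    refine (norm_sum_le _ _).trans (Finset.sum_le_sum fun j _ => ?_)
    rw [norm_mul, norm_mul, norm_mul, norm_mul, norm_star, norm_star, Complex.norm_real,
      Real.norm_eq_abs]
    have hp : 0 ≤ ‖x α‖ * ‖x β‖ * (‖a i‖ * ‖b j‖) := by positivity
    exact mul_le_mul_of_nonneg_right (hS _ _ _ _) hp
  have h2 : ∑ α, ∑ β, ∑ i, ∑ j, (B * (‖x α‖ * ‖x β‖ * (‖a i‖ * ‖b j‖))) =
      B * ((∑ α, ‖x α‖) ^ 2 * ((∑ i, ‖a i‖) * (∑ j, ‖b j‖))) := by
    simp only [← Finset.mul_sum, ← Finset.sum_mul]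
    ring
  rw [h2] at h1
  refine h1.trans ?_
  have k1 := l1_sq x
  have k2 : (∑ i, ‖a i‖) * (∑ j, ‖b j‖) ≤ (Real.sqrt 8 * en a) * (Real.sqrt 8 * en b) := by
    refine mul_le_mul (l1_le a) (l1_le b) (Finset.sum_nonneg fun _ _ => norm_nonneg _) ?_
    have := en_nonneg a; positivity
  have k3 : (Real.sqrt 8 * en a) * (Real.sqrt 8 * en b) = 8 * (en a * en b) := by
    have := Real.mul_self_sqrt (show (0 : ℝ) ≤ 8 by norm_num)
    linear_combination (en a * en b) * this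
  rw [k3] at k2
  calc B * ((∑ α, ‖x α‖) ^ 2 * ((∑ i, ‖a i‖) * (∑ j, ‖b j‖)))
      ≤ B * ((8 * nsq x) * (8 * (en a * en b))) := by
        refine mul_le_mul_of_nonneg_left (mul_le_mul k1 k2 ?_ ?_) hB
        · exact mul_nonneg (Finset.sum_nonneg fun _ _ => norm_nonneg _)
            (Finset.sum_nonneg fun _ _ => norm_nonneg _)
        · have := nsq_nonneg x; positivity
    _ = _ := by ring

theorem norm_ip_le (x y : Fin 8 → ℂ) : ‖ip x y‖ ≤ en x * en y := by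
  have h := norm_ip_sq x y
  have h2 : ‖ip x y‖ ^ 2 ≤ (en x * en y) ^ 2 := by
    rw [mul_pow, en_sq, en_sq]; exact h
  exact le_of_sq_le_sq h2 (mul_nonneg (en_nonneg x) (en_nonneg y))

theorem dot_one (x : Fin 8 → ℂ) : star x ⬝ᵥ x = ((nsq x : ℝ) : ℂ) := by
  simp only [dotProduct, Pi.star_apply, nsq]
  push_cast
  refine Finset.sum_congr rfl fun i _ => ?_
  rw [← mul_star_self, mul_comm]

variable {τ η : ℝ} (c : Cutoff τ η) {S : Fin 8 → Fin 8 → Fin 8 → Fin 8 → ℝ}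

theorem dot_gf (x z : Fin 8 → ℂ) : star x ⬝ᵥ (gf c S z *ᵥ x) =
    ((nsq x : ℝ) : ℂ) - ((c.κ (nsq z) : ℝ) : ℂ) * sx S x z z := by
  rw [gf, Kf, Matrix.sub_mulVec, Matrix.one_mulVec, dotProduct_sub, dot_one, Matrix.smul_mulVec,
    dotProduct_smul, smul_eq_mul, sx]

theorem dot_Lev (x z ξ : Fin 8 → ℂ) : star x ⬝ᵥ (Lev c S z ξ ξ *ᵥ x) =
    (((c.κ2 (nsq z) : ℝ) : ℂ) * ip z ξ * ip ξ z + ((c.κ1 (nsq z) : ℝ) : ℂ) * ip ξ ξ) * sx S x z z +
    (((c.κ1 (nsq z) : ℝ) : ℂ) * ip ξ z) * sx S x z ξ +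
    ((((c.κ1 (nsq z) : ℝ) : ℂ) * ip z ξ) * sx S x ξ z + ((c.κ (nsq z) : ℝ) : ℂ) * sx S x ξ ξ) := by
  unfold Lev sx
  simp only [Matrix.add_mulVec, Matrix.smul_mulVec, dotProduct_add, dotProduct_smul, smul_eq_mul]

theorem κ_bound {B : ℝ} (hB : ∀ a b i j, |S a b i j| ≤ B) (hτ : 0 < τ)
    (x z : Fin 8 → ℂ) :
    c.κ (nsq z) * ‖sx S x z z‖ ≤ 64 * B * τ * nsq x := by
  have hB0 : 0 ≤ B := (abs_nonneg _).trans (hB 0 0 0 0)
  have hx := nsq_nonneg x
  rcases le_or_gt τ (nsq z) with h | h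
  · rw [(c.far _ h).1, zero_mul]
    positivity
  · have h1 := norm_sx_le hB x z z
    rw [← sq, en_sq] at h1
    have h2 : 64 * B * (nsq x * nsq z) ≤ 64 * B * τ * nsq x := by
      have := nsq_nonneg z
      calc 64 * B * (nsq x * nsq z) = 64 * B * nsq x * nsq z := by ring
        _ ≤ 64 * B * nsq x * τ := mul_le_mul_of_nonneg_left h.le (by positivity)
        _ = _ := by ring
    calc c.κ (nsq z) * ‖sx S x z z‖ ≤ 1 * ‖sx S x z z‖ :=
          mul_le_mul_of_nonneg_right (c.le_one _) (norm_nonneg _)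
      _ ≤ _ := by rw [one_mul]; exact h1.trans h2

theorem gf_posDef (hsym : ∀ α β i j, S β α j i = S α β i j) {B : ℝ}
    (hB : ∀ a b i j, |S a b i j| ≤ B) (hτ : 0 < τ) (hτB : 64 * B * τ < 1)
    (z : Fin 8 → ℂ) : (gf c S z).PosDef := by
  refine posDef_of_re (gf_herm c hsym z) fun x hx => ?_
  rw [dot_gf, Complex.sub_re, Complex.ofReal_re, Complex.re_ofReal_mul]
  have h1 := κ_bound c hB hτ x z
  have h2 : c.κ (nsq z) * (sx S x z z).re ≤ c.κ (nsq z) * ‖sx S x z z‖ :=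
    mul_le_mul_of_nonneg_left (Complex.re_le_norm _) (c.nonneg _)
  have h3 := nsq_pos hx
  nlinarith

theorem FS_real (z ξ : Fin 8 → ℂ) : FS z ξ ξ =
    (((nsq ξ * (1 + nsq z) - ‖ip ξ z‖ ^ 2) / (1 + nsq z) ^ 2 : ℝ) : ℂ) := by
  unfold FS
  have h : ip ξ z * ip z ξ = ((‖ip ξ z‖ ^ 2 : ℝ) : ℂ) := by
    rw [← ip_star ξ z, mul_star_self, Complex.normSq_eq_norm_sq]
  rw [h, ← nsq_ip, ← nsq_ip]
  push_cast
  ring

theorem FS_lower (z ξ : Fin 8 → ℂ) :
    nsq ξ * (1 - 2 * nsq z) ≤ (nsq ξ * (1 + nsq z) - ‖ip ξ z‖ ^ 2) / (1 + nsq z) ^ 2 ∧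
    (ξ ≠ 0 → 0 < (nsq ξ * (1 + nsq z) - ‖ip ξ z‖ ^ 2) / (1 + nsq z) ^ 2) ∧
    0 ≤ (nsq ξ * (1 + nsq z) - ‖ip ξ z‖ ^ 2) / (1 + nsq z) ^ 2 := by
  have h1 := norm_ip_sq ξ z
  change ‖ip ξ z‖ ^ 2 ≤ nsq ξ * nsq z at h1
  have hz := nsq_nonneg z
  have hξ := nsq_nonneg ξ
  have hp : 0 < (1 + nsq z) ^ 2 := by positivity
  refine ⟨?_, fun h => ?_, ?_⟩
  · rw [le_div_iff₀ hp]
    have h2 : (1 - 2 * nsq z) * (1 + nsq z) ^ 2 ≤ 1 := by nlinarith [mul_nonneg hz hz, mul_nonneg (mul_nonneg hz hz) hz]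
    nlinarith
  · refine div_pos ?_ hp
    have := nsq_pos h
    nlinarith
  · refine div_nonneg ?_ hp.le
    nlinarith

theorem T2_aux {X V t T C : ℝ} (hX : 0 < X) (hV : 0 < V) (ht : 0 ≤ t) (htT : t < T) (hC : 0 ≤ C) :
    X * V * (1 - (2 + C) * T) ≤ V * (1 - 2 * t) * ((1 - C * T) * X) := by
  have hT : 0 < T := lt_of_le_of_lt ht htT
  have h0 : 0 ≤ t * (C * T) := by positivity
  have h1 : 1 - (2 + C) * T ≤ (1 - 2 * t) * (1 - C * T) := by
    have : (1 - 2 * t) * (1 - C * T) = 1 - 2 * t - C * T + 2 * (t * (C * T)) := by ring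
    rw [this]
    linarith
  calc X * V * (1 - (2 + C) * T) ≤ X * V * ((1 - 2 * t) * (1 - C * T)) :=
        mul_le_mul_of_nonneg_left h1 (by positivity)
    _ = _ := by ring

theorem fin_aux {XV F T S C η δ e1 e2 r1 r2 r3 r4 n1 n2 n3 : ℝ}
    (hXV : 0 < XV) (T1 : T ≤ F) (T2 : XV * (1 - S) ≤ T) (hs : S + C * η < δ)
    (a1 : n1 ≤ C * XV * (e2 + e1)) (a2 : n2 ≤ C * XV * e1) (a3 : n3 ≤ C * XV * e1)
    (b1 : -n1 ≤ r1) (b2 : -n2 ≤ r2) (b3 : -n3 ≤ r3) (b4 : (δ - 1) * XV ≤ r4)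
    (hE : C * XV * (3 * e1 + e2) ≤ C * XV * η) : 0 < F + (r1 + r2 + (r3 + r4)) := by
  have h : 0 < XV * (δ - (S + C * η)) := mul_pos hXV (by linarith)
  linarith

/-- **Main estimate.** -/
theorem main_estimate (hsym : ∀ α β i j, S β α j i = S α β i j) {B δ : ℝ}
    (hB : ∀ a b i j, |S a b i j| ≤ B) (hτ : 0 < τ) (hτB : 64 * B * τ < 1) (hδ : 0 < δ)
    (hδ1 : δ ≤ 1) (hsmall : (2 + 64 * B) * τ + 64 * B * η < δ)
    (hS : ∀ x ξ : Fin 8 → ℂ, (δ - 1) * (nsq x * nsq ξ) ≤ (sx S x ξ ξ).re)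
    (z ξ : Fin 8 → ℂ) (hξ : ξ ≠ 0) : (FS z ξ ξ • gf c S z + Lev c S z ξ ξ).PosDef := by
  have hB0 : 0 ≤ B := (abs_nonneg _).trans (hB 0 0 0 0)
  obtain ⟨f1, f2, f3⟩ := FS_lower z ξ
  have f2' := f2 hξ
  rw [FS_real]
  set F : ℝ := (nsq ξ * (1 + nsq z) - ‖ip ξ z‖ ^ 2) / (1 + nsq z) ^ 2 with hF
  refine posDef_of_re ?_ fun x hx => ?_
  · rw [Matrix.conjTranspose_add, Matrix.conjTranspose_smul, gf_herm c hsym, Lev_herm c hsym,
      Complex.star_def, Complex.conj_ofReal]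
  · have hX := nsq_pos hx
    have hV := nsq_pos hξ
    have ht := nsq_nonneg z
    rw [Matrix.add_mulVec, dotProduct_add, Matrix.smul_mulVec, dotProduct_smul, smul_eq_mul,
      Complex.add_re, Complex.re_ofReal_mul, dot_gf, dot_Lev, Complex.sub_re, Complex.ofReal_re,
      Complex.re_ofReal_mul]
    have hκb := κ_bound c hB hτ x z
    have hκre : c.κ (nsq z) * (sx S x z z).re ≤ c.κ (nsq z) * ‖sx S x z z‖ :=
      mul_le_mul_of_nonneg_left (Complex.re_le_norm _) (c.nonneg _)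
    have hlow : (1 - 64 * B * τ) * nsq x ≤ nsq x - c.κ (nsq z) * (sx S x z z).re := by nlinarith
    rcases le_or_gt τ (nsq z) with hfar | hnear
    · obtain ⟨k0, k1, k2⟩ := c.far _ hfar
      rw [k0, k1, k2]
      simp only [Complex.ofReal_zero, zero_mul, add_zero, Complex.zero_re, sub_zero]
      positivity
    · set t := nsq z with htdef
      set X := nsq x with hXdef
      set V := nsq ξ with hVdef
      have s1 : ‖sx S x z z‖ ≤ 64 * B * (X * t) := by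
        have := norm_sx_le hB x z z
        rwa [← sq, en_sq] at this
      have s2 : ‖ip ξ z‖ ≤ en ξ * en z := norm_ip_le ξ z
      have s2' : ‖ip z ξ‖ ≤ en z * en ξ := norm_ip_le z ξ
      have s3 : ‖sx S x z ξ‖ ≤ 64 * B * (X * (en z * en ξ)) := norm_sx_le hB x z ξ
      have s4 : ‖sx S x ξ z‖ ≤ 64 * B * (X * (en ξ * en z)) := norm_sx_le hB x ξ z
      have hez : en z ^ 2 = t := en_sq z
      have heξ : en ξ ^ 2 = V := en_sq ξ
      have hezn := en_nonneg z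
      have heξn := en_nonneg ξ
      -- the three error terms
      have E1 : ‖(((c.κ2 t : ℝ) : ℂ) * ip z ξ * ip ξ z + ((c.κ1 t : ℝ) : ℂ) * ip ξ ξ) * sx S x z z‖ ≤
          64 * B * (X * V) * (|t ^ 2 * c.κ2 t| + |t * c.κ1 t|) := by
        rw [norm_mul]
        have a1 : ‖((c.κ2 t : ℝ) : ℂ) * ip z ξ * ip ξ z + ((c.κ1 t : ℝ) : ℂ) * ip ξ ξ‖ ≤
            |c.κ2 t| * (t * V) + |c.κ1 t| * V := by
          refine (norm_add_le _ _).trans (add_le_add ?_ ?_)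
          · rw [norm_mul, norm_mul, Complex.norm_real, Real.norm_eq_abs, mul_assoc]
            refine mul_le_mul_of_nonneg_left ?_ (abs_nonneg _)
            calc ‖ip z ξ‖ * ‖ip ξ z‖ ≤ (en z * en ξ) * (en ξ * en z) :=
                  mul_le_mul s2' s2 (norm_nonneg _) (by positivity)
              _ = t * V := by rw [← hez, ← heξ]; ring
          · rw [norm_mul, Complex.norm_real, Real.norm_eq_abs, ← nsq_ip, Complex.norm_real,
              Real.norm_of_nonneg (nsq_nonneg ξ)]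
        calc _ ≤ (|c.κ2 t| * (t * V) + |c.κ1 t| * V) * (64 * B * (X * t)) :=
              mul_le_mul a1 s1 (norm_nonneg _) (by positivity)
          _ = _ := by
              rw [abs_mul, abs_mul, abs_of_nonneg (by positivity : 0 ≤ t ^ 2), abs_of_nonneg ht]
              ring
      have E2 : ‖(((c.κ1 t : ℝ) : ℂ) * ip ξ z) * sx S x z ξ‖ ≤
          64 * B * (X * V) * |t * c.κ1 t| := by
        rw [norm_mul, norm_mul, Complex.norm_real, Real.norm_eq_abs]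
        calc |c.κ1 t| * ‖ip ξ z‖ * ‖sx S x z ξ‖ ≤
              |c.κ1 t| * (en ξ * en z) * (64 * B * (X * (en z * en ξ))) := by
              refine mul_le_mul (mul_le_mul_of_nonneg_left s2 (abs_nonneg _)) s3 (norm_nonneg _)
                (by positivity)
          _ = _ := by
              rw [abs_mul, abs_of_nonneg ht, ← hez, ← heξ]
              ring
      have E3 : ‖(((c.κ1 t : ℝ) : ℂ) * ip z ξ) * sx S x ξ z‖ ≤
          64 * B * (X * V) * |t * c.κ1 t| := by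
        rw [norm_mul, norm_mul, Complex.norm_real, Real.norm_eq_abs]
        calc |c.κ1 t| * ‖ip z ξ‖ * ‖sx S x ξ z‖ ≤
              |c.κ1 t| * (en z * en ξ) * (64 * B * (X * (en ξ * en z))) := by
              refine mul_le_mul (mul_le_mul_of_nonneg_left s2' (abs_nonneg _)) s4 (norm_nonneg _)
                (by positivity)
          _ = _ := by
              rw [abs_mul, abs_of_nonneg ht, ← hez, ← heξ]
              ring
      have r1 := (abs_le.1 (Complex.abs_re_le_norm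
        ((((c.κ2 t : ℝ) : ℂ) * ip z ξ * ip ξ z + ((c.κ1 t : ℝ) : ℂ) * ip ξ ξ) * sx S x z z))).1
      have r2 := (abs_le.1 (Complex.abs_re_le_norm
        ((((c.κ1 t : ℝ) : ℂ) * ip ξ z) * sx S x z ξ))).1
      have r3 := (abs_le.1 (Complex.abs_re_le_norm
        ((((c.κ1 t : ℝ) : ℂ) * ip z ξ) * sx S x ξ z))).1
      have r4 : (δ - 1) * (X * V) ≤ (((c.κ t : ℝ) : ℂ) * sx S x ξ ξ).re := by
        rw [Complex.re_ofReal_mul]
        have k1 := mul_le_mul_of_nonneg_left (hS x ξ) (c.nonneg t)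
        have k2 := c.le_one t
        have k3 : 0 ≤ X * V := by positivity
        nlinarith [mul_nonneg (sub_nonneg.2 hδ1) (mul_nonneg (sub_nonneg.2 k2) k3)]
      simp only [Complex.add_re]
      have slow := c.slow t
      have hE : 64 * B * (X * V) * (3 * |t * c.κ1 t| + |t ^ 2 * c.κ2 t|) ≤
          64 * B * (X * V) * η := mul_le_mul_of_nonneg_left slow (by positivity)
      have T1 : V * (1 - 2 * t) * ((1 - 64 * B * τ) * X) ≤
          F * (X - c.κ t * (sx S x z z).re) := by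
        have h1 : 0 ≤ (1 - 64 * B * τ) * X := mul_nonneg (by linarith) hX.le
        calc _ ≤ F * ((1 - 64 * B * τ) * X) := mul_le_mul_of_nonneg_right f1 h1
          _ ≤ _ := mul_le_mul_of_nonneg_left hlow f3
      have T2 : X * V * (1 - (2 + 64 * B) * τ) ≤ V * (1 - 2 * t) * ((1 - 64 * B * τ) * X) :=
        T2_aux hX hV ht hnear (by positivity)
      have hXV : 0 < X * V := by positivity
      exact fin_aux hXV T1 T2 hsmall E1 E2 E3 r1 r2 r3 r4 hE

end Pool.Agent.W517.Gr
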