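import Pool.Agent.W517.Gr.Ext

set_option autoImplicit false

namespace Pool.Agent.W517.Gr

open Finset

/-- the coframe `(dz_1, dz̄_1, …)`. -/
noncomputable def coframe {n : ℕ} (s : Fin (n * 2)) : CForm n :=
  if (finProdFinEquiv.symm s).2 = 0 then dzf (finProdFinEquiv.symm s).1
  else dzbf (finProdFinEquiv.symm s).1

theorem coe_prod_wedge {n : ℕ} :
    ((∏ i : Fin n, wedge2 (dzf i) (dzbf i) : FormAlg n) : ExteriorAlgebra ℂ (CForm n)) =
      ExteriorAlgebra.ιMulti ℂ (n * 2) coframe := by
  rw [ExteriorAlgebra.ιMulti_apply, List.ofFn_mul, List.prod_flatten, List.map_ofFn,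
    ← List.prod_ofFn]
  have : ∀ l : List (FormAlg n), ((l.prod : FormAlg n) : ExteriorAlgebra ℂ (CForm n)) =
      (l.map fun x : FormAlg n => (x : ExteriorAlgebra ℂ (CForm n))).prod := fun l =>
    map_list_prod (Subalgebra.center ℂ (Forms n)).val l
  rw [this, List.map_ofFn]
  congr 2
  funext i
  simp only [Function.comp, List.ofFn_succ, List.ofFn_zero, List.prod_cons, List.prod_nil, mul_one]
  have e0 : ∀ (j : Fin 2) (hj : (i : ℕ) * 2 + (j : ℕ) < n * 2),
      (⟨(i : ℕ) * 2 + (j : ℕ), hj⟩ : Fin (n * 2)) = finProdFinEquiv (i, j) := by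
    intro j hj
    apply Fin.ext
    simp only [finProdFinEquiv_apply_val]
    ring
  rw [e0 0, e0 (Fin.succ 0)]
  unfold coframe
  rw [Equiv.symm_apply_apply, Equiv.symm_apply_apply]
  simp only [if_true]
  rw [if_neg (by decide)]
  rfl

theorem evalForm_ιMulti {n m : ℕ} (v : Fin m → Cn n) (φ : Fin m → CForm n) :
    evalForm v (ExteriorAlgebra.ιMulti ℂ m φ) = (Matrix.of fun r s => φ r (v s)).det := by
  unfold evalForm
  rw [ExteriorAlgebra.liftAlternating_apply_ιMulti, dif_pos rfl]
  rfl

theorem eval_top {n : ℕ} : evalForm (realFrame fun i : Fin n => (Pi.single i 1 : Cn n))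
    ((∏ i : Fin n, wedge2 (dzf i) (dzbf i) : FormAlg n) : ExteriorAlgebra ℂ (CForm n)) =
      (-2 * Complex.I) ^ n := by
  rw [coe_prod_wedge, evalForm_ιMulti]
  have key : (Matrix.of fun r s : Fin (n * 2) =>
      coframe r (realFrame (fun i : Fin n => (Pi.single i 1 : Cn n)) s)).submatrix
        ((Equiv.prodComm (Fin 2) (Fin n)).trans finProdFinEquiv)
        ((Equiv.prodComm (Fin 2) (Fin n)).trans finProdFinEquiv) =
      Matrix.blockDiagonal (fun _ : Fin n => !![(1 : ℂ), Complex.I; 1, -Complex.I]) := by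
    ext ⟨a, i⟩ ⟨b, j⟩
    simp only [Matrix.submatrix_apply, Equiv.trans_apply, Equiv.prodComm_apply, Prod.swap_prod_mk,
      Matrix.of_apply, coframe, realFrame, Equiv.symm_apply_apply, Matrix.blockDiagonal_apply']
    by_cases hij : i = j
    · subst hij
      fin_cases a <;> fin_cases b <;> simp [dzf, dzbf]
    · have hji : ¬ j = i := fun h => hij h.symm
      fin_cases a <;> fin_cases b <;> simp [dzf, dzbf, Pi.single_apply, hij, hji]
  rw [← Matrix.det_submatrix_equiv_self ((Equiv.prodComm (Fin 2) (Fin n)).trans finProdFinEquiv),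
    key, Matrix.det_blockDiagonal, Finset.prod_const, Finset.card_univ, Fintype.card_fin,
    Matrix.det_fin_two_of]
  congr 1
  ring

/-- The top Chern form evaluated on the standard oriented frame. -/
theorem eval_chernForm_top {n : ℕ} (h : Cn n → Matrix (Fin n) (Fin n) ℂ) (z : Cn n) :
    evalForm (realFrame fun i : Fin n => (Pi.single i 1 : Cn n))
      (chernForm h n z : ExteriorAlgebra ℂ (CForm n)) =
      hdet (fun a b i j => chernCurvature h z (Pi.single i 1) (Pi.single j 1) a b) /
        (Real.pi : ℂ) ^ n := by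
  rw [chernForm_top]
  have : (((((Complex.I / (2 * Real.pi)) ^ n * hdet (fun a b i j =>
      chernCurvature h z (Pi.single i 1) (Pi.single j 1) a b)) •
      ∏ i, wedge2 (dzf i) (dzbf i) : FormAlg n)) : ExteriorAlgebra ℂ (CForm n)) =
      ((Complex.I / (2 * Real.pi)) ^ n * hdet (fun a b i j =>
      chernCurvature h z (Pi.single i 1) (Pi.single j 1) a b)) •
      ((∏ i : Fin n, wedge2 (dzf i) (dzbf i) : FormAlg n) : ExteriorAlgebra ℂ (CForm n)) := rfl
  rw [this, map_smul, eval_top, smul_eq_mul]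
  have hpi : (Real.pi : ℂ) ≠ 0 := by exact_mod_cast Real.pi_ne_zero
  have h3 : (Complex.I / (2 * Real.pi)) ^ n * (-2 * Complex.I) ^ n = 1 / (Real.pi : ℂ) ^ n := by
    rw [← mul_pow, ← one_div_pow]
    congr 1
    field_simp
    rw [Complex.I_sq]
    ring
  calc _ = ((Complex.I / (2 * Real.pi)) ^ n * (-2 * Complex.I) ^ n) * hdet (fun a b i j =>
      chernCurvature h z (Pi.single i 1) (Pi.single j 1) a b) := by ring
    _ = _ := by rw [h3]; ring

end Pool.Agent.W517.Gr
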