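import Pool.Agent.W517.Gr.Defs
import Pool.Agent.W517.Gr.Comb

set_option autoImplicit false
set_option linter.unusedSectionVars false

namespace Pool.Agent.W517.Gr

open Finset

section ring

variable {n : ℕ} {Z : Type*} [CommRing Z] [Algebra ℂ Z] (ω : Fin n → Fin n → Z)

theorem prod_perm (h1 : ∀ i j k l, ω i j * ω k l = -(ω k j * ω i l)) (π : Equiv.Perm (Fin n)) :
    ∏ b, ω b (π b) = ((Equiv.Perm.sign π : ℤ) : Z) * ∏ b, ω b b := by
  induction π using Equiv.Perm.swap_induction_on' with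
  | one => simp
  | mul_swap f x y hxy ih =>
    have hs : ∏ b, ω b ((f * Equiv.swap x y) b) = -∏ b, ω b (f b) := by
      have hy : y ∈ (Finset.univ.erase x) := Finset.mem_erase.2 ⟨Ne.symm hxy, Finset.mem_univ _⟩
      rw [← Finset.mul_prod_erase _ _ (Finset.mem_univ x), ← Finset.mul_prod_erase _ _ hy,
        ← Finset.mul_prod_erase (Finset.univ) (fun b => ω b (f b)) (Finset.mem_univ x),
        ← Finset.mul_prod_erase (Finset.univ.erase x) (fun b => ω b (f b)) hy,
        ← mul_assoc, ← mul_assoc]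
      have e1 : ∏ b ∈ (Finset.univ.erase x).erase y, ω b ((f * Equiv.swap x y) b) =
          ∏ b ∈ (Finset.univ.erase x).erase y, ω b (f b) := by
        refine Finset.prod_congr rfl fun b hb => ?_
        rw [Finset.mem_erase, Finset.mem_erase] at hb
        rw [Equiv.Perm.mul_apply, Equiv.swap_apply_of_ne_of_ne hb.2.1 hb.1]
      rw [e1, Equiv.Perm.mul_apply, Equiv.Perm.mul_apply, Equiv.swap_apply_left,
        Equiv.swap_apply_right, h1 x (f y) y (f x), mul_comm (ω y (f y))]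
      ring
    rw [hs, ih, Equiv.Perm.sign_mul, Equiv.Perm.sign_swap hxy]
    push_cast
    ring

theorem prod_fun_zero_left (h0 : ∀ i j l, ω i j * ω i l = 0) (p q : Fin n → Fin n)
    (hp : ¬ Function.Injective p) : ∏ a, ω (p a) (q a) = 0 := by
  rw [Function.Injective] at hp
  push Not at hp
  obtain ⟨x, y, hxy, hne⟩ := hp
  have hy : y ∈ (Finset.univ.erase x) := Finset.mem_erase.2 ⟨Ne.symm hne, Finset.mem_univ _⟩
  rw [← Finset.mul_prod_erase _ _ (Finset.mem_univ x), ← Finset.mul_prod_erase _ _ hy,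
    ← mul_assoc, hxy, h0, zero_mul]

theorem prod_fun_zero_right (h0 : ∀ i k j, ω i j * ω k j = 0) (p q : Fin n → Fin n)
    (hq : ¬ Function.Injective q) : ∏ a, ω (p a) (q a) = 0 := by
  rw [Function.Injective] at hq
  push Not at hq
  obtain ⟨x, y, hxy, hne⟩ := hq
  have hy : y ∈ (Finset.univ.erase x) := Finset.mem_erase.2 ⟨Ne.symm hne, Finset.mem_univ _⟩
  rw [← Finset.mul_prod_erase _ _ (Finset.mem_univ x), ← Finset.mul_prod_erase _ _ hy,
    ← mul_assoc, hxy, h0, zero_mul]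

theorem prod_perm2 (h1 : ∀ i j k l, ω i j * ω k l = -(ω k j * ω i l)) (σ τ : Equiv.Perm (Fin n)) :
    ∏ a, ω (σ a) (τ a) =
      ((Equiv.Perm.sign σ : ℤ) : Z) * ((Equiv.Perm.sign τ : ℤ) : Z) * ∏ b, ω b b := by
  have : ∏ a, ω (σ a) (τ a) = ∏ b, ω b ((τ * σ⁻¹) b) := by
    rw [← Equiv.prod_comp σ (fun b => ω b ((τ * σ⁻¹) b))]
    refine Finset.prod_congr rfl fun a _ => ?_
    simp
  rw [this, prod_perm ω h1, Equiv.Perm.sign_mul, Equiv.Perm.sign_inv]
  push_cast
  ring

theorem bij_of_inj {f : Fin n → Fin n} (h : Function.Injective f) :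
    ∃ σ : Equiv.Perm (Fin n), (σ : Fin n → Fin n) = f :=
  ⟨Equiv.ofBijective f ((Fintype.bijective_iff_injective_and_card f).2 ⟨h, rfl⟩), rfl⟩

theorem prod_sum_eq (h1 : ∀ i j k l, ω i j * ω k l = -(ω k j * ω i l))
    (h0 : ∀ i j l, ω i j * ω i l = 0) (h0' : ∀ i k j, ω i j * ω k j = 0)
    (c : Fin n → Fin n → Fin n → ℂ) :
    ∏ a, ∑ i, ∑ j, c a i j • ω i j =
      (∑ p : Equiv.Perm (Fin n), ∑ q : Equiv.Perm (Fin n), (((Equiv.Perm.sign p : ℤ) : ℂ) *
        ((Equiv.Perm.sign q : ℤ) : ℂ) * ∏ a, c a (p a) (q a))) • ∏ b, ω b b := by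
  have e1 : ∀ a, ∑ i, ∑ j, c a i j • ω i j = ∑ e : Fin n × Fin n, c a e.1 e.2 • ω e.1 e.2 := fun a => by
    rw [Fintype.sum_prod_type]
  rw [Finset.prod_congr rfl (fun a _ => e1 a), Finset.prod_univ_sum, Fintype.piFinset_univ]
  let e : (Fin n → Fin n × Fin n) ≃ (Fin n → Fin n) × (Fin n → Fin n) :=
    { toFun := fun c => (fun a => (c a).1, fun a => (c a).2)
      invFun := fun c a => (c.1 a, c.2 a)
      left_inv := fun c => rfl
      right_inv := fun c => rfl }
  have e2 : ∑ x : Fin n → Fin n × Fin n, ∏ a, c a (x a).1 (x a).2 • ω (x a).1 (x a).2 =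
      ∑ p : Fin n → Fin n, ∑ q : Fin n → Fin n,
        (∏ a, c a (p a) (q a)) • ∏ a, ω (p a) (q a) := by
    rw [← Fintype.sum_prod_type' (fun p q : Fin n → Fin n =>
      (∏ a, c a (p a) (q a)) • ∏ a, ω (p a) (q a)), ← e.sum_comp]
    refine Finset.sum_congr rfl fun x _ => ?_
    rw [Finset.prod_smul]
    rfl
  rw [e2, Finset.sum_smul]
  symm
  refine Fintype.sum_of_injective (fun σ : Equiv.Perm (Fin n) => (σ : Fin n → Fin n))
    DFunLike.coe_injective _ _ ?_ ?_
  · intro p hp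
    refine Finset.sum_eq_zero fun q _ => ?_
    rw [prod_fun_zero_left ω h0 p q, smul_zero]
    intro hinj
    exact hp (bij_of_inj hinj)
  · intro p
    rw [Finset.sum_smul]
    refine Fintype.sum_of_injective (fun σ : Equiv.Perm (Fin n) => (σ : Fin n → Fin n))
      DFunLike.coe_injective _ _ ?_ ?_
    · intro q hq
      rw [prod_fun_zero_right ω h0' p q, smul_zero]
      intro hinj
      exact hq (bij_of_inj hinj)
    · intro q
      rw [prod_perm2 ω h1]
      have : ∀ z : ℤ, ((z : ℤ) : Z) = algebraMap ℂ Z ((z : ℤ) : ℂ) := fun z => by simp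
      rw [this, this, Algebra.smul_def, Algebra.smul_def, map_mul, map_mul]
      ring

theorem det_eq_hdet (h1 : ∀ i j k l, ω i j * ω k l = -(ω k j * ω i l))
    (h0 : ∀ i j l, ω i j * ω i l = 0) (h0' : ∀ i k j, ω i j * ω k j = 0)
    (c : Fin n → Fin n → Fin n → Fin n → ℂ) :
    (Matrix.of fun a b => ∑ i, ∑ j, c a b i j • ω i j).det = hdet c • ∏ b, ω b b := by
  rw [← Matrix.det_transpose, Matrix.det_apply', hdet, Finset.sum_smul]
  refine Finset.sum_congr rfl fun w _ => ?_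
  simp only [Matrix.transpose_apply, Matrix.of_apply]
  rw [prod_sum_eq ω h1 h0 h0' (fun a i j => c a (w a) i j)]
  have : (((Equiv.Perm.sign w : ℤ) : ℤ) : Z) = algebraMap ℂ Z (((Equiv.Perm.sign w : ℤ) : ℤ) : ℂ) := by
    simp
  rw [this, ← Algebra.smul_def, smul_smul, Finset.mul_sum]
  congr 1
  refine Finset.sum_congr rfl fun p _ => ?_
  rw [Finset.mul_sum]
  refine Finset.sum_congr rfl fun q _ => ?_
  ring

end ring

theorem wedge2_rel {n : ℕ} (a b c d : CForm n) :
    wedge2 a b * wedge2 c d = -(wedge2 c b * wedge2 a d) := by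
  apply Subtype.ext
  have sw : ∀ u v : CForm n, ExteriorAlgebra.ι ℂ u * ExteriorAlgebra.ι ℂ v
      = -(ExteriorAlgebra.ι ℂ v * ExteriorAlgebra.ι ℂ u) := fun u v =>
    eq_neg_of_add_eq_zero_left (ExteriorAlgebra.ι_add_mul_swap u v)
  change ExteriorAlgebra.ι ℂ a * ExteriorAlgebra.ι ℂ b *
    (ExteriorAlgebra.ι ℂ c * ExteriorAlgebra.ι ℂ d) = -(ExteriorAlgebra.ι ℂ c *
      ExteriorAlgebra.ι ℂ b * (ExteriorAlgebra.ι ℂ a * ExteriorAlgebra.ι ℂ d))
  generalize hA : ExteriorAlgebra.ι ℂ a = A at *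
  generalize hB : ExteriorAlgebra.ι ℂ b = B at *
  generalize hC : ExteriorAlgebra.ι ℂ c = C at *
  generalize hD : ExteriorAlgebra.ι ℂ d = D at *
  have hBC : B * C = -(C * B) := by rw [← hB, ← hC]; exact sw b c
  have hAC : A * C = -(C * A) := by rw [← hA, ← hC]; exact sw a c
  have hAB : A * B = -(B * A) := by rw [← hA, ← hB]; exact sw a b
  calc A * B * (C * D) = A * (B * C) * D := by noncomm_ring
    _ = -(A * C * B * D) := by rw [hBC]; noncomm_ring
    _ = C * (A * B) * D := by rw [hAC]; noncomm_ring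
    _ = -(C * B * (A * D)) := by rw [hAB]; noncomm_ring

theorem wedge2_self_left {n : ℕ} (a b d : CForm n) : wedge2 a b * wedge2 a d = 0 := by
  have h := wedge2_rel a b a d
  have h2 : (2 : ℂ) • (wedge2 a b * wedge2 a d) = 0 := by
    rw [two_smul]
    nth_rewrite 1 [h]
    exact neg_add_cancel _
  exact (smul_eq_zero.1 h2).resolve_left two_ne_zero

theorem wedge2_self_right {n : ℕ} (a b c : CForm n) : wedge2 a b * wedge2 c b = 0 := by
  have h := wedge2_rel a b c b
  have h2 : (2 : ℂ) • (wedge2 a b * wedge2 c b) = 0 := by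
    rw [two_smul]
    nth_rewrite 1 [h]
    rw [mul_comm (wedge2 c b)]
    exact neg_add_cancel _
  exact (smul_eq_zero.1 h2).resolve_left two_ne_zero

/-- The top Chern form in terms of the hyperdeterminant. -/
theorem chernForm_top {n : ℕ} (h : Cn n → Matrix (Fin n) (Fin n) ℂ) (z : Cn n) :
    chernForm h n z = ((Complex.I / (2 * Real.pi)) ^ n *
      hdet (fun a b i j => chernCurvature h z (Pi.single i 1) (Pi.single j 1) a b)) •
      ∏ i, wedge2 (dzf i) (dzbf i) := by
  unfold chernForm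
  have h1 : (1 : Matrix (Fin n) (Fin n) (Polynomial (FormAlg n)))
      = (1 : Matrix (Fin n) (Fin n) (FormAlg n)).map Polynomial.C := by
    rw [Matrix.map_one _ (map_zero _) (map_one _)]
  rw [h1]
  have h2 := Polynomial.coeff_det_X_add_C_card
    ((Complex.I / (2 * Real.pi)) • curvatureForm h z) (1 : Matrix (Fin n) (Fin n) (FormAlg n))
  rw [Fintype.card_fin] at h2
  rw [h2, Matrix.det_smul_of_tower, Fintype.card_fin, ← smul_smul]
  congr 1
  exact det_eq_hdet (fun i j => wedge2 (dzf i) (dzbf j)) (fun i j k l => wedge2_rel _ _ _ _)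
    (fun i j l => wedge2_self_left _ _ _) (fun i k j => wedge2_self_right _ _ _) _

end Pool.Agent.W517.Gr
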