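import Pool.Agent.W517.Gr.Calc

set_option autoImplicit false

namespace Pool.Agent.W517.Gr

open Finset Filter Topology
open scoped ContDiff ComplexOrder Matrix

variable {n m r : ℕ}

theorem smul_decomp (c : ℂ) (ξ : Cn n) : c • ξ = c.re • ξ + c.im • (Complex.I • ξ) := by
  funext i
  simp only [Pi.smul_apply, Pi.add_apply, smul_eq_mul, Complex.real_smul]
  nth_rewrite 1 [← Complex.re_add_im c]
  ring

theorem dz'_smul (f : Cn n → ℂ) (z ξ : Cn n) (c : ℂ) : dz' f z (c • ξ) = c * dz' f z ξ := by
  rw [dz'_def, dz'_def]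
  have e1 : fderiv ℝ f z (c • ξ) = c.re * fderiv ℝ f z ξ + c.im * fderiv ℝ f z (Complex.I • ξ) := by
    rw [smul_decomp, map_add, map_smul, map_smul, Complex.real_smul, Complex.real_smul]
  have e2 : fderiv ℝ f z (Complex.I • (c • ξ)) =
      c.re * fderiv ℝ f z (Complex.I • ξ) - c.im * fderiv ℝ f z ξ := by
    rw [smul_comm, smul_decomp c (Complex.I • ξ), map_add,
      map_smul (fderiv ℝ f z) c.re (Complex.I • ξ),
      map_smul (fderiv ℝ f z) c.im (Complex.I • Complex.I • ξ), Complex.real_smul,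
      Complex.real_smul, smul_smul, Complex.I_mul_I, neg_one_smul, map_neg]
    ring
  rw [e1, e2]
  nth_rewrite 5 [← Complex.re_add_im c]
  linear_combination ((c.im : ℂ) * fderiv ℝ f z (Complex.I • ξ) / 2) * Complex.I_sq

theorem dz''_smul (f : Cn n → ℂ) (z ξ : Cn n) (c : ℂ) :
    dz'' f z (c • ξ) = star c * dz'' f z ξ := by
  rw [dz''_def, dz''_def]
  have e1 : fderiv ℝ f z (c • ξ) = c.re * fderiv ℝ f z ξ + c.im * fderiv ℝ f z (Complex.I • ξ) := by
    rw [smul_decomp, map_add, map_smul, map_smul, Complex.real_smul, Complex.real_smul]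
  have e2 : fderiv ℝ f z (Complex.I • (c • ξ)) =
      c.re * fderiv ℝ f z (Complex.I • ξ) - c.im * fderiv ℝ f z ξ := by
    rw [smul_comm, smul_decomp c (Complex.I • ξ), map_add,
      map_smul (fderiv ℝ f z) c.re (Complex.I • ξ),
      map_smul (fderiv ℝ f z) c.im (Complex.I • Complex.I • ξ), Complex.real_smul,
      Complex.real_smul, smul_smul, Complex.I_mul_I, neg_one_smul, map_neg]
    ring
  have e3 : star c = (c.re : ℂ) - c.im * Complex.I := by
    apply Complex.ext <;> simp
  rw [e1, e2, e3]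
  linear_combination ((c.im : ℂ) * fderiv ℝ f z (Complex.I • ξ) / 2) * Complex.I_sq

theorem dz'_add_vec (f : Cn n → ℂ) (z ξ ξ' : Cn n) :
    dz' f z (ξ + ξ') = dz' f z ξ + dz' f z ξ' := by
  rw [dz'_def, dz'_def, dz'_def, smul_add, map_add, map_add]; ring

/-- `dz'` as a linear map in the direction. -/
noncomputable def dzL (f : Cn n → ℂ) (z : Cn n) : Cn n →ₗ[ℂ] ℂ where
  toFun := dz' f z
  map_add' := dz'_add_vec f z
  map_smul' c ξ := dz'_smul f z ξ c

/-- basis vector -/
def eb (j : Fin n) : Cn n := fun k => if j = k then 1 else 0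

theorem dz'_expand (f : Cn n → ℂ) (z ξ : Cn n) : dz' f z ξ = ∑ j, ξ j * dz' f z (eb j) :=
  LinearMap.pi_apply_eq_sum_univ (dzL f z) ξ

theorem mdz'_expand (h : Cn n → Matrix (Fin r) (Fin r) ℂ) (z ξ : Cn n) :
    mdz' h z ξ = ∑ j, ξ j • mdz' h z (eb j) := by
  ext α β
  rw [Matrix.sum_apply]
  simp only [mdz', Matrix.of_apply, Matrix.smul_apply, smul_eq_mul]
  exact dz'_expand _ z ξ

theorem chernConnection_expand (h : Cn n → Matrix (Fin r) (Fin r) ℂ) (z ξ : Cn n) :
    chernConnection h ξ z = ∑ j, ξ j • chernConnection h (eb j) z := by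
  unfold chernConnection
  rw [mdz'_expand, Finset.sum_mul]
  simp only [smul_mul_assoc]

/-! ### holomorphic functions and maps -/

theorem dz''_holo {f : Cn n → ℂ} {z : Cn n} (hf : DifferentiableAt ℂ f z) (η : Cn n) :
    dz'' f z η = 0 := by
  rw [dz''_of_hasFDerivAt (hf.hasFDerivAt.restrictScalars ℝ)]
  simp only [ContinuousLinearMap.coe_restrictScalars', map_smul, smul_eq_mul]
  rw [← mul_assoc, Complex.I_mul_I]
  ring

theorem dz'_holo {f : Cn n → ℂ} {z : Cn n} (hf : DifferentiableAt ℂ f z) (ξ : Cn n) :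
    dz' f z ξ = fderiv ℂ f z ξ := by
  rw [dz'_of_hasFDerivAt (hf.hasFDerivAt.restrictScalars ℝ)]
  simp only [ContinuousLinearMap.coe_restrictScalars', map_smul, smul_eq_mul]
  rw [← mul_assoc, Complex.I_mul_I]
  ring

theorem hasFDerivAt_star {f : Cn n → ℂ} {f' : Cn n →L[ℝ] ℂ} {z : Cn n} (hf : HasFDerivAt f f' z) :
    HasFDerivAt (fun w => star (f w)) (Complex.conjCLE.toContinuousLinearMap.comp f') z :=
  (Complex.conjCLE.toContinuousLinearMap.hasFDerivAt).comp z hf

theorem dz'_star {f : Cn n → ℂ} {z : Cn n} (hf : DifferentiableAt ℝ f z) (ξ : Cn n) :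
    dz' (fun w => star (f w)) z ξ = star (dz'' f z ξ) := by
  rw [dz'_of_hasFDerivAt (hasFDerivAt_star hf.hasFDerivAt), dz''_def]
  simp only [ContinuousLinearMap.comp_apply, ContinuousLinearEquiv.coe_coe, Complex.conjCLE_apply,
    Complex.star_def, map_div₀, map_add, map_mul, Complex.conj_I, Complex.conj_ofNat]
  ring

theorem dz''_star {f : Cn n → ℂ} {z : Cn n} (hf : DifferentiableAt ℝ f z) (ξ : Cn n) :
    dz'' (fun w => star (f w)) z ξ = star (dz' f z ξ) := by
  rw [dz''_of_hasFDerivAt (hasFDerivAt_star hf.hasFDerivAt), dz'_def]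
  simp only [ContinuousLinearMap.comp_apply, ContinuousLinearEquiv.coe_coe, Complex.conjCLE_apply,
    Complex.star_def, map_div₀, map_sub, map_mul, Complex.conj_I, Complex.conj_ofNat]
  ring

theorem dz'_comp {f : Cn m → ℂ} {Q : Cn n → Cn m} {w : Cn n} (hf : DifferentiableAt ℝ f (Q w))
    (hQ : DifferentiableAt ℂ Q w) (ξ : Cn n) :
    dz' (fun w => f (Q w)) w ξ = dz' f (Q w) (fderiv ℂ Q w ξ) := by
  have H : HasFDerivAt (fun w => f (Q w)) _ w :=
    hf.hasFDerivAt.comp w (hQ.hasFDerivAt.restrictScalars ℝ)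
  rw [dz'_of_hasFDerivAt H, dz'_def]
  simp only [ContinuousLinearMap.comp_apply, ContinuousLinearMap.coe_restrictScalars', map_smul]

theorem dz''_comp {f : Cn m → ℂ} {Q : Cn n → Cn m} {w : Cn n} (hf : DifferentiableAt ℝ f (Q w))
    (hQ : DifferentiableAt ℂ Q w) (ξ : Cn n) :
    dz'' (fun w => f (Q w)) w ξ = dz'' f (Q w) (fderiv ℂ Q w ξ) := by
  have H : HasFDerivAt (fun w => f (Q w)) _ w :=
    hf.hasFDerivAt.comp w (hQ.hasFDerivAt.restrictScalars ℝ)
  rw [dz''_of_hasFDerivAt H, dz''_def]
  simp only [ContinuousLinearMap.comp_apply, ContinuousLinearMap.coe_restrictScalars', map_smul]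

theorem differentiableAt_dz' {f : Cn n → ℂ} {z : Cn n} (hf : ContDiffAt ℝ 2 f z) (ξ : Cn n) :
    DifferentiableAt ℝ (fun w => dz' f w ξ) z := by
  have h1 : ContDiffAt ℝ 1 (fderiv ℝ f) z := hf.fderiv_right (by norm_num)
  have h2 : DifferentiableAt ℝ (fderiv ℝ f) z := h1.differentiableAt (by norm_num)
  simp only [dz'_def, div_eq_mul_inv]
  exact DifferentiableAt.fun_mul (DifferentiableAt.fun_sub (h2.clm_apply (differentiableAt_const _))
    (DifferentiableAt.fun_mul (differentiableAt_const _) (h2.clm_apply (differentiableAt_const _))))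
    (differentiableAt_const _)

theorem differentiableAt_connection {h : Cn n → Matrix (Fin r) (Fin r) ℂ} {z : Cn n}
    (hh : ∀ α β, ContDiffAt ℝ 2 (fun x => h x α β) z) (hdet : (h z).det ≠ 0) (ξ : Cn n)
    (α β : Fin r) : DifferentiableAt ℝ (fun w => chernConnection h ξ w α β) z := by
  simp only [chernConnection, Matrix.mul_apply]
  refine DifferentiableAt.fun_sum fun γ _ => DifferentiableAt.mul ?_ ?_
  · exact differentiableAt_dz' (hh α γ) ξ
  · exact differentiableAt_inv (fun α β => (hh α β).differentiableAt (by norm_num)) hdet γ β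

/-- The Chern curvature is compatible with holomorphic pull-back. -/
theorem chernCurvature_comp {h : Cn m → Matrix (Fin r) (Fin r) ℂ} {Q : Cn n → Cn m} {p : Cn n}
    (hQ : ContDiffAt ℂ 2 Q p) (hh : ∀ α β, ContDiffAt ℝ 2 (fun x => h x α β) (Q p))
    (hdet : (h (Q p)).det ≠ 0) (ξ η : Cn n) :
    chernCurvature (fun w => h (Q w)) p ξ η =
      chernCurvature h (Q p) (fderiv ℂ Q p ξ) (fderiv ℂ Q p η) := by
  have hQd : DifferentiableAt ℂ Q p := hQ.differentiableAt (by norm_num)
  have e1 : ∀ᶠ w in 𝓝 p, DifferentiableAt ℂ Q w := by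
    filter_upwards [hQ.eventually (by norm_num)] with w hw
    exact hw.differentiableAt (by norm_num)
  have e2 : ∀ᶠ w in 𝓝 p, ∀ α β, DifferentiableAt ℝ (fun x => h x α β) (Q w) := by
    rw [eventually_all]
    intro α
    rw [eventually_all]
    intro β
    have := hQd.continuousAt.eventually ((hh α β).eventually (by norm_num))
    filter_upwards [this] with w hw
    exact hw.differentiableAt (by norm_num)
  have e3 : ∀ᶠ w in 𝓝 p, chernConnection (fun w => h (Q w)) ξ w =
      ∑ j, (fderiv ℂ Q w ξ) j • chernConnection h (eb j) (Q w) := by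
    filter_upwards [e1, e2] with w h1 h2
    rw [← chernConnection_expand]
    unfold chernConnection
    congr 1
    ext α β
    simp only [mdz', Matrix.of_apply]
    exact dz'_comp (h2 α β) h1 ξ
  have hfd : DifferentiableAt ℂ (fderiv ℂ Q) p := by
    have h1 : ContDiffAt ℂ 1 (fderiv ℂ Q) p := hQ.fderiv_right (by norm_num)
    exact h1.differentiableAt (by norm_num)
  have ha : ∀ j, DifferentiableAt ℂ (fun w => (fderiv ℂ Q w ξ) j) p := fun j =>
    (differentiableAt_pi.1 (hfd.clm_apply (differentiableAt_const ξ))) j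
  have hb : ∀ j α β, DifferentiableAt ℝ (fun x => chernConnection h (eb j) x α β) (Q p) :=
    fun j α β => differentiableAt_connection hh hdet _ _ _
  have hbQ : ∀ j α β, DifferentiableAt ℝ (fun w => chernConnection h (eb j) (Q w) α β) p :=
    fun j α β => DifferentiableAt.comp (g := fun x => chernConnection h (eb j) x α β) p (hb j α β)
      (hQd.restrictScalars ℝ)
  unfold chernCurvature
  congr 1
  ext α β
  simp only [mdz'', Matrix.of_apply]
  rw [dz''_congr (g := fun w => ∑ j, (fderiv ℂ Q w ξ) j * chernConnection h (eb j) (Q w) α β)]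
  · rw [dz''_sum (f := fun j w => (fderiv ℂ Q w ξ) j * chernConnection h (eb j) (Q w) α β)]
    · have r1 : (fun x => chernConnection h (fderiv ℂ Q p ξ) x α β) =
          fun x => ∑ j, (fderiv ℂ Q p ξ) j * chernConnection h (eb j) x α β := by
        funext x
        rw [chernConnection_expand, Matrix.sum_apply]
        simp only [Matrix.smul_apply, smul_eq_mul]
      rw [r1, dz''_sum (f := fun j x => (fderiv ℂ Q p ξ) j * chernConnection h (eb j) x α β)]
      · refine Finset.sum_congr rfl fun j _ => ?_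
        rw [dz''_mul ((ha j).restrictScalars ℝ) (hbQ j α β), dz''_holo (ha j), zero_mul, zero_add,
          dz''_comp (hb j α β) hQd, dz''_mul (differentiableAt_const _) (hb j α β), dz''_const,
          zero_mul, zero_add]
      · intro j _
        exact (differentiableAt_const _).mul (hb j α β)
    · intro j _
      exact ((ha j).restrictScalars ℝ).mul (hbQ j α β)
  · filter_upwards [e3] with w hw
    rw [hw, Matrix.sum_apply]
    simp only [Matrix.smul_apply, smul_eq_mul]

theorem dz''_add {f g : Cn n → ℂ} {z : Cn n} (hf : DifferentiableAt ℝ f z)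
    (hg : DifferentiableAt ℝ g z) (ξ : Cn n) :
    dz'' (fun w => f w + g w) z ξ = dz'' f z ξ + dz'' g z ξ := by
  have H : HasFDerivAt (fun w => f w + g w) _ z := hf.hasFDerivAt.add hg.hasFDerivAt
  rw [dz''_of_hasFDerivAt H, dz''_def, dz''_def]
  simp only [_root_.add_apply]
  ring

theorem dz'_add {f g : Cn n → ℂ} {z : Cn n} (hf : DifferentiableAt ℝ f z)
    (hg : DifferentiableAt ℝ g z) (ξ : Cn n) :
    dz' (fun w => f w + g w) z ξ = dz' f z ξ + dz' g z ξ := by
  have H : HasFDerivAt (fun w => f w + g w) _ z := hf.hasFDerivAt.add hg.hasFDerivAt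
  rw [dz'_of_hasFDerivAt H, dz'_def, dz'_def]
  simp only [_root_.add_apply]
  ring

/-- Twisting by a line bundle. -/
theorem chernCurvature_twist {u : Cn n → ℂ} {h : Cn n → Matrix (Fin r) (Fin r) ℂ} {z : Cn n}
    (hu : ContDiffAt ℝ 2 u z) (hu0 : u z ≠ 0)
    (hh : ∀ α β, ContDiffAt ℝ 2 (fun x => h x α β) z) (hdet : (h z).det ≠ 0) (ξ η : Cn n) :
    chernCurvature (fun w => u w • h w) z ξ η =
      (-dz'' (fun w => dz' u w ξ / u w) z η) • 1 + chernCurvature h z ξ η := by
  have hud : DifferentiableAt ℝ u z := hu.differentiableAt (by norm_num)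
  have hhd : ∀ α β, DifferentiableAt ℝ (fun x => h x α β) z := fun α β =>
    (hh α β).differentiableAt (by norm_num)
  have e1 : ∀ᶠ w in 𝓝 z, DifferentiableAt ℝ u w := by
    filter_upwards [hu.eventually (by norm_num)] with w hw
    exact hw.differentiableAt (by norm_num)
  have e2 : ∀ᶠ w in 𝓝 z, ∀ α β, DifferentiableAt ℝ (fun x => h x α β) w := by
    rw [eventually_all]
    intro α
    rw [eventually_all]
    intro β
    filter_upwards [(hh α β).eventually (by norm_num)] with w hw
    exact hw.differentiableAt (by norm_num)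
  have e3 : ∀ᶠ w in 𝓝 z, chernConnection (fun w => u w • h w) ξ w =
      (dz' u w ξ / u w) • 1 + chernConnection h ξ w := by
    filter_upwards [e1, e2, hud.continuousAt.eventually_ne hu0, det_ne_zero_near hhd hdet]
      with w h1 h2 h3 h4
    have hun : IsUnit (h w).det := isUnit_iff_ne_zero.2 h4
    have hinv : (u w • h w)⁻¹ = (u w)⁻¹ • (h w)⁻¹ := by
      refine Matrix.inv_eq_right_inv ?_
      rw [smul_mul_smul_comm, mul_inv_cancel₀ h3, Matrix.mul_nonsing_inv _ hun, one_smul]
    have hd : mdz' (fun w => u w • h w) w ξ = dz' u w ξ • h w + u w • mdz' h w ξ := by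
      ext α β
      simp only [mdz', Matrix.of_apply, Matrix.smul_apply, Matrix.add_apply, smul_eq_mul]
      exact dz'_mul h1 (h2 α β) ξ
    unfold chernConnection
    rw [hinv, hd, add_mul, smul_mul_smul_comm, smul_mul_smul_comm, Matrix.mul_nonsing_inv _ hun,
      mul_inv_cancel₀ h3, one_smul, div_eq_mul_inv]
  have hq : DifferentiableAt ℝ (fun w => dz' u w ξ / u w) z := by
    simp only [div_eq_mul_inv]
    exact (differentiableAt_dz' hu ξ).mul (hud.inv hu0)
  unfold chernCurvature
  rw [neg_smul, ← neg_add]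
  congr 1
  ext α β
  simp only [mdz'', Matrix.of_apply, Matrix.add_apply, Matrix.smul_apply, smul_eq_mul]
  rw [dz''_congr (g := fun w => (dz' u w ξ / u w) * (1 : Matrix (Fin r) (Fin r) ℂ) α β +
    chernConnection h ξ w α β)]
  · generalize (1 : Matrix (Fin r) (Fin r) ℂ) α β = c
    have hqc : DifferentiableAt ℝ (fun w => dz' u w ξ / u w * c) z := hq.mul (differentiableAt_const _)
    rw [dz''_add hqc (differentiableAt_connection hh hdet ξ α β),
      dz''_mul hq (differentiableAt_const _), dz''_const, mul_zero, add_zero]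
  · filter_upwards [e3] with w hw
    rw [hw, Matrix.add_apply, Matrix.smul_apply, smul_eq_mul]

theorem chernCurvature_congr {h g : Cn n → Matrix (Fin r) (Fin r) ℂ} {z : Cn n}
    (he : h =ᶠ[𝓝 z] g) (ξ η : Cn n) : chernCurvature h z ξ η = chernCurvature g z ξ η := by
  unfold chernCurvature
  congr 1
  ext α β
  simp only [mdz'', Matrix.of_apply]
  refine dz''_congr ?_ η
  filter_upwards [he.eventually_nhds] with w hw
  have h1 : h w = g w := hw.self_of_nhds
  have h2 : mdz' h w ξ = mdz' g w ξ := by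
    ext α β
    simp only [mdz', Matrix.of_apply]
    refine dz'_congr ?_ ξ
    filter_upwards [hw] with y hy
    rw [hy]
  unfold chernConnection
  rw [h1, h2]

end Pool.Agent.W517.Gr
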