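import Pool.Agent.W517.Gr.Data

set_option autoImplicit false

namespace Pool.Agent.W517.Gr

open Finset Complex

theorem sum_rowfunC {n : ℕ} (L : List (E n × ℤ)) (F : E n → ℂ) :
    ∑ e, ((rowfun L e : ℤ) : ℂ) * F e = (L.map fun x => ((x.2 : ℤ) : ℂ) * F x.1).sum := by
  induction L with
  | nil => simp [rowfun]
  | cons x L ih =>
    have : ∀ e, ((rowfun (x :: L) e : ℤ) : ℂ) = (if x.1 = e then ((x.2 : ℤ) : ℂ) else 0)
        + ((rowfun L e : ℤ) : ℂ) := fun e => by
      simp [rowfun]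
    simp only [this, add_mul, Finset.sum_add_distrib, ih, List.map_cons, List.sum_cons, ite_mul,
      zero_mul, Finset.sum_ite_eq, Finset.mem_univ, if_true]

/-- the Hermitian form of the tensor. -/
noncomputable def qf (x ξ : Fin 8 → ℂ) : ℂ :=
  ∑ a, ∑ b, ∑ i, ∑ j, ((R0 a b i j : ℤ) : ℂ) * (star (x a) * x b * (ξ i * star (ξ j)))

theorem qf_eq (x ξ : Fin 8 → ℂ) : qf x ξ =
    ∑ a, ((rows a).map fun e => ((e.2 : ℤ) : ℂ) *
      (star (x a) * x e.1.1 * (ξ e.1.2.1 * star (ξ e.1.2.2)))).sum := by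
  unfold qf
  refine Finset.sum_congr rfl fun a _ => ?_
  rw [← sum_rowfunC (rows a) (fun e => star (x a) * x e.1 * (ξ e.2.1 * star (ξ e.2.2)))]
  rw [Fintype.sum_prod_type]
  refine Finset.sum_congr rfl fun b _ => ?_
  rw [Fintype.sum_prod_type]
  rfl

/-- Explicit formula. -/
theorem qf_explicit (x ξ : Fin 8 → ℂ) : qf x ξ =
    (star (x 0) * ξ 0 + star (x 1) * ξ 1 + star (x 2) * ξ 2) *
      (x 0 * star (ξ 0) + x 1 * star (ξ 1) + x 2 * star (ξ 2)) +
    (x 0 * ξ 3 + x 1 * ξ 4 + x 2 * ξ 5) *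
      (star (x 0) * star (ξ 3) + star (x 1) * star (ξ 4) + star (x 2) * star (ξ 5)) +
    (star (x 3) * ξ 6 + star (x 4) * ξ 7) * (x 3 * star (ξ 6) + x 4 * star (ξ 7)) +
    (x 5 * ξ 6 + x 6 * ξ 7) * (star (x 5) * star (ξ 6) + star (x 6) * star (ξ 7)) +
    ((ξ 0 * star (ξ 0) + ξ 1 * star (ξ 1) + ξ 2 * star (ξ 2) + ξ 3 * star (ξ 3) + ξ 4 * star (ξ 4)
        + ξ 5 * star (ξ 5)) *
      (x 3 * star (x 3) + x 4 * star (x 4) + x 5 * star (x 5) + x 6 * star (x 6)
        + x 7 * star (x 7)) -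
      (star (x 3) * ξ 0 + star (x 4) * ξ 1 + star (x 5) * ξ 3 + star (x 6) * ξ 4
        + star (x 7) * ξ 5) *
      (x 3 * star (ξ 0) + x 4 * star (ξ 1) + x 5 * star (ξ 3) + x 6 * star (ξ 4)
        + x 7 * star (ξ 5)) -
      (x 3 * ξ 3 + x 4 * ξ 4 - x 5 * ξ 0 - x 6 * ξ 1 - x 7 * ξ 2) *
      (star (x 3) * star (ξ 3) + star (x 4) * star (ξ 4) - star (x 5) * star (ξ 0)
        - star (x 6) * star (ξ 1) - star (x 7) * star (ξ 2))) := by
  rw [qf_eq]
  simp only [Fin.sum_univ_eight, rows, List.map_cons, List.map_nil, List.sum_cons, List.sum_nil]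
  push_cast
  ring

/-- Algebraic form of the Bessel inequality for the pair `y`, `J ȳ`. -/
theorem bessel_identity {A : Type*} [CommRing A] (y0 y1 y2 y3 y4 y5 Y0 Y1 Y2 Y3 Y4 Y5
    b0 b1 b2 b3 b4 b5 B0 B1 B2 B3 B4 B5 N al AL be BE : A)
    (hN : N = y0 * Y0 + y1 * Y1 + y2 * Y2 + y3 * Y3 + y4 * Y4 + y5 * Y5)
    (hal : al = B0 * y0 + B1 * y1 + B2 * y2 + B3 * y3 + B4 * y4 + B5 * y5)
    (hAL : AL = b0 * Y0 + b1 * Y1 + b2 * Y2 + b3 * Y3 + b4 * Y4 + b5 * Y5)
    (hbe : be = b0 * y3 + b1 * y4 + b2 * y5 - b3 * y0 - b4 * y1 - b5 * y2)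
    (hBE : BE = B0 * Y3 + B1 * Y4 + B2 * Y5 - B3 * Y0 - B4 * Y1 - B5 * Y2) :
    N * (N * (b0 * B0 + b1 * B1 + b2 * B2 + b3 * B3 + b4 * B4 + b5 * B5) - al * AL - be * BE) =
      (N * b0 - AL * y0 - be * Y3) * (N * B0 - al * Y0 - BE * y3) +
      (N * b1 - AL * y1 - be * Y4) * (N * B1 - al * Y1 - BE * y4) +
      (N * b2 - AL * y2 - be * Y5) * (N * B2 - al * Y2 - BE * y5) +
      (N * b3 - AL * y3 + be * Y0) * (N * B3 - al * Y3 + BE * y0) +
      (N * b4 - AL * y4 + be * Y1) * (N * B4 - al * Y4 + BE * y1) +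
      (N * b5 - AL * y5 + be * Y2) * (N * B5 - al * Y5 + BE * y2) := by
  have e1 : (N * b0 - AL * y0 - be * Y3) * (N * B0 - al * Y0 - BE * y3) +
      (N * b1 - AL * y1 - be * Y4) * (N * B1 - al * Y1 - BE * y4) +
      (N * b2 - AL * y2 - be * Y5) * (N * B2 - al * Y2 - BE * y5) +
      (N * b3 - AL * y3 + be * Y0) * (N * B3 - al * Y3 + BE * y0) +
      (N * b4 - AL * y4 + be * Y1) * (N * B4 - al * Y4 + BE * y1) +
      (N * b5 - AL * y5 + be * Y2) * (N * B5 - al * Y5 + BE * y2) =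
      N * N * (b0 * B0 + b1 * B1 + b2 * B2 + b3 * B3 + b4 * B4 + b5 * B5)
      - N * al * (b0 * Y0 + b1 * Y1 + b2 * Y2 + b3 * Y3 + b4 * Y4 + b5 * Y5)
      - N * BE * (b0 * y3 + b1 * y4 + b2 * y5 - b3 * y0 - b4 * y1 - b5 * y2)
      - N * AL * (B0 * y0 + B1 * y1 + B2 * y2 + B3 * y3 + B4 * y4 + B5 * y5)
      + AL * al * (y0 * Y0 + y1 * Y1 + y2 * Y2 + y3 * Y3 + y4 * Y4 + y5 * Y5)
      - N * be * (B0 * Y3 + B1 * Y4 + B2 * Y5 - B3 * Y0 - B4 * Y1 - B5 * Y2)
      + be * BE * (y0 * Y0 + y1 * Y1 + y2 * Y2 + y3 * Y3 + y4 * Y4 + y5 * Y5) := by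
    ring
  rw [e1, ← hN, ← hal, ← hAL, ← hbe, ← hBE]
  ring

theorem mul_star_self (z : ℂ) : z * star z = ((normSq z : ℝ) : ℂ) := by
  rw [Complex.star_def, Complex.mul_conj]

theorem bessel6 (y0 y1 y2 y3 y4 y5 b0 b1 b2 b3 b4 b5 : ℂ) :
    normSq (star b0 * y0 + star b1 * y1 + star b2 * y2 + star b3 * y3 + star b4 * y4 + star b5 * y5)
    + normSq (b0 * y3 + b1 * y4 + b2 * y5 - b3 * y0 - b4 * y1 - b5 * y2) ≤
    (normSq y0 + normSq y1 + normSq y2 + normSq y3 + normSq y4 + normSq y5) *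
    (normSq b0 + normSq b1 + normSq b2 + normSq b3 + normSq b4 + normSq b5) := by
  set N : ℝ := normSq y0 + normSq y1 + normSq y2 + normSq y3 + normSq y4 + normSq y5 with hN
  set Bn : ℝ := normSq b0 + normSq b1 + normSq b2 + normSq b3 + normSq b4 + normSq b5 with hB
  set al : ℂ := star b0 * y0 + star b1 * y1 + star b2 * y2 + star b3 * y3 + star b4 * y4
    + star b5 * y5 with hal
  set be : ℂ := b0 * y3 + b1 * y4 + b2 * y5 - b3 * y0 - b4 * y1 - b5 * y2 with hbe
  have hNnn : 0 ≤ N := by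
    have := normSq_nonneg y0
    have := normSq_nonneg y1
    have := normSq_nonneg y2
    have := normSq_nonneg y3
    have := normSq_nonneg y4
    have := normSq_nonneg y5
    linarith
  rcases eq_or_lt_of_le hNnn with h0 | hpos
  · have z0 : ∀ z : ℂ, normSq z = 0 → z = 0 := fun z hz => normSq_eq_zero.1 hz
    have p0 := normSq_nonneg y0
    have p1 := normSq_nonneg y1
    have p2 := normSq_nonneg y2
    have p3 := normSq_nonneg y3
    have p4 := normSq_nonneg y4
    have p5 := normSq_nonneg y5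
    have e0 : y0 = 0 := z0 _ (by linarith)
    have e1 : y1 = 0 := z0 _ (by linarith)
    have e2 : y2 = 0 := z0 _ (by linarith)
    have e3 : y3 = 0 := z0 _ (by linarith)
    have e4 : y4 = 0 := z0 _ (by linarith)
    have e5 : y5 = 0 := z0 _ (by linarith)
    rw [← h0, hal, hbe, e0, e1, e2, e3, e4, e5]
    simp
  · have key := bessel_identity y0 y1 y2 y3 y4 y5 (star y0) (star y1) (star y2) (star y3) (star y4)
      (star y5) b0 b1 b2 b3 b4 b5 (star b0) (star b1) (star b2) (star b3) (star b4) (star b5)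
      (N : ℂ) al (star al) be (star be)
      (by simp only [mul_star_self, hN]; push_cast; ring) hal
      (by rw [hal]; simp only [star_add, star_mul', star_star])
      hbe (by rw [hbe]; simp only [star_sub, star_add, star_mul'])
    have hsN : star (N : ℂ) = N := by rw [Complex.star_def, Complex.conj_ofReal]
    have k : ∀ u v w b y Y : ℂ, u = N * b - star al * y - be * Y →
        v = N * star b - al * star y - star be * star Y → u * v = ((normSq u : ℝ) : ℂ) := by
      intro u v w b y Y hu hv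
      rw [← mul_star_self]
      congr 1
      rw [hu, hv]
      simp only [star_sub, star_mul', star_star, hsN]
    have key2 : ((N * (N * Bn - normSq al - normSq be) : ℝ) : ℂ) = ((
        normSq (N * b0 - star al * y0 - be * star y3) + normSq (N * b1 - star al * y1 - be * star y4)
        + normSq (N * b2 - star al * y2 - be * star y5) + normSq (N * b3 - star al * y3 - be * -star y0)
        + normSq (N * b4 - star al * y4 - be * -star y1)
        + normSq (N * b5 - star al * y5 - be * -star y2) : ℝ) : ℂ) := by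
      push_cast
      rw [← mul_star_self al, ← mul_star_self be]
      have hBn : (Bn : ℂ) = b0 * star b0 + b1 * star b1 + b2 * star b2 + b3 * star b3 + b4 * star b4
          + b5 * star b5 := by
        simp only [mul_star_self, hB]; push_cast; ring
      rw [hBn, key]
      congr 1
      · congr 1
        · congr 1
          · congr 1
            · congr 1
              · exact k _ _ 0 b0 y0 (star y3) rfl (by simp only [star_star])
              · exact k _ _ 0 b1 y1 (star y4) rfl (by simp only [star_star])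
            · exact k _ _ 0 b2 y2 (star y5) rfl (by simp only [star_star])
          · rw [← k (N * b3 - star al * y3 - be * -star y0) (N * star b3 - al * star y3
              - star be * -y0) 0 b3 y3 (-star y0) rfl (by simp only [star_neg, star_star])]
            ring
        · rw [← k (N * b4 - star al * y4 - be * -star y1) (N * star b4 - al * star y4
              - star be * -y1) 0 b4 y4 (-star y1) rfl (by simp only [star_neg, star_star])]
          ring
      · rw [← k (N * b5 - star al * y5 - be * -star y2) (N * star b5 - al * star y5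
              - star be * -y2) 0 b5 y5 (-star y2) rfl (by simp only [star_neg, star_star])]
        ring
    have key3 := Complex.ofReal_injective key2
    have hnn : 0 ≤ N * (N * Bn - normSq al - normSq be) := by
      rw [key3]
      repeat' apply add_nonneg
      all_goals exact mul_self_nonneg _
    have : 0 ≤ N * Bn - normSq al - normSq be := by
      by_contra hneg
      push Not at hneg
      have := mul_neg_of_pos_of_neg hpos hneg
      linarith
    linarith

open scoped ComplexOrder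

/-- **Block positivity** of the tensor. -/
theorem qf_nonneg (x ξ : Fin 8 → ℂ) : ∃ t : ℝ, 0 ≤ t ∧ qf x ξ = (t : ℂ) := by
  have hb := bessel6 (ξ 0) (ξ 1) (ξ 2) (ξ 3) (ξ 4) (ξ 5) (x 3) (x 4) 0 (x 5) (x 6) (x 7)
  simp only [star_zero, zero_mul, add_zero, map_zero] at hb
  refine ⟨normSq (star (x 0) * ξ 0 + star (x 1) * ξ 1 + star (x 2) * ξ 2) +
    normSq (x 0 * ξ 3 + x 1 * ξ 4 + x 2 * ξ 5) + normSq (star (x 3) * ξ 6 + star (x 4) * ξ 7) +
    normSq (x 5 * ξ 6 + x 6 * ξ 7) +
    ((normSq (ξ 0) + normSq (ξ 1) + normSq (ξ 2) + normSq (ξ 3) + normSq (ξ 4) + normSq (ξ 5)) *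
    (normSq (x 3) + normSq (x 4) + normSq (x 5) + normSq (x 6) + normSq (x 7)) -
    normSq (star (x 3) * ξ 0 + star (x 4) * ξ 1 + star (x 5) * ξ 3 + star (x 6) * ξ 4
        + star (x 7) * ξ 5) -
    normSq (x 3 * ξ 3 + x 4 * ξ 4 - x 5 * ξ 0 - x 6 * ξ 1 - x 7 * ξ 2)), ?_, ?_⟩
  · have h1 := normSq_nonneg (star (x 0) * ξ 0 + star (x 1) * ξ 1 + star (x 2) * ξ 2)
    have h2 := normSq_nonneg (x 0 * ξ 3 + x 1 * ξ 4 + x 2 * ξ 5)
    have h3 := normSq_nonneg (star (x 3) * ξ 6 + star (x 4) * ξ 7)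
    have h4 := normSq_nonneg (x 5 * ξ 6 + x 6 * ξ 7)
    linarith
  · rw [qf_explicit]
    push_cast
    simp only [← mul_star_self]
    simp only [star_add, star_sub, star_mul', star_star]

end Pool.Agent.W517.Gr
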