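import Pool.Agent.W517.Gr.Calc
import Pool.Agent.W517.Gr.Pos
import Pool.Agent.W517.Gr.Eval

set_option autoImplicit false

namespace Pool.Agent.W517.Gr

open Finset Filter Topology
open scoped ContDiff ComplexOrder Matrix

section general

variable {n r : ℕ} (S : Fin r → Fin r → Fin n → Fin n → ℝ)

/-- the sesquilinear matrix-valued form of a tensor. -/
noncomputable def sf (x y : Cn n) : Matrix (Fin r) (Fin r) ℂ :=
  Matrix.of fun α β => ∑ i, ∑ j, (S α β i j : ℂ) * (x i * star (y j))

/-- the quadratic metric. -/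
noncomputable def hS (z : Cn n) : Matrix (Fin r) (Fin r) ℂ := 1 - sf S z z

theorem diff_sf_diag (α β : Fin r) (z : Cn n) :
    DifferentiableAt ℝ (fun w => sf S w w α β) z := by
  simp only [sf, Matrix.of_apply]
  refine DifferentiableAt.fun_sum fun i _ => DifferentiableAt.fun_sum fun j _ => ?_
  exact (differentiableAt_const _).mul ((differentiableAt_coord i z).mul (differentiableAt_conj j z))

theorem diff_sf_right (ξ : Cn n) (α β : Fin r) (z : Cn n) :
    DifferentiableAt ℝ (fun w => sf S ξ w α β) z := by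
  simp only [sf, Matrix.of_apply]
  refine DifferentiableAt.fun_sum fun i _ => DifferentiableAt.fun_sum fun j _ => ?_
  exact (differentiableAt_const _).mul ((differentiableAt_const _).mul (differentiableAt_conj j z))

theorem mdz'_sf (z ξ : Cn n) : mdz' (fun w => sf S w w) z ξ = sf S ξ z := by
  ext α β
  simp only [mdz', sf, Matrix.of_apply]
  rw [dz'_sum (f := fun i w => ∑ j, (S α β i j : ℂ) * (w i * star (w j)))]
  · refine Finset.sum_congr rfl fun i _ => ?_
    rw [dz'_sum (f := fun j w => (S α β i j : ℂ) * (w i * star (w j)))]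
    · refine Finset.sum_congr rfl fun j _ => ?_
      rw [dz'_mul (g := fun w => w i * star (w j)) (differentiableAt_const _)
        ((differentiableAt_coord i z).mul (differentiableAt_conj j z)), dz'_const,
        dz'_mul (differentiableAt_coord i z) (differentiableAt_conj j z), dz'_coord, dz'_conj]
      ring
    · intro j _
      exact (differentiableAt_const _).mul
        ((differentiableAt_coord i z).mul (differentiableAt_conj j z))
  · intro i _
    refine DifferentiableAt.fun_sum fun j _ => ?_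
    exact (differentiableAt_const _).mul
      ((differentiableAt_coord i z).mul (differentiableAt_conj j z))

theorem mdz''_sf (z η : Cn n) : mdz'' (fun w => sf S w w) z η = sf S z η := by
  ext α β
  simp only [mdz'', sf, Matrix.of_apply]
  rw [dz''_sum (f := fun i w => ∑ j, (S α β i j : ℂ) * (w i * star (w j)))]
  · refine Finset.sum_congr rfl fun i _ => ?_
    rw [dz''_sum (f := fun j w => (S α β i j : ℂ) * (w i * star (w j)))]
    · refine Finset.sum_congr rfl fun j _ => ?_
      rw [dz''_mul (g := fun w => w i * star (w j)) (differentiableAt_const _)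
        ((differentiableAt_coord i z).mul (differentiableAt_conj j z)), dz''_const,
        dz''_mul (differentiableAt_coord i z) (differentiableAt_conj j z), dz''_coord, dz''_conj]
      ring
    · intro j _
      exact (differentiableAt_const _).mul
        ((differentiableAt_coord i z).mul (differentiableAt_conj j z))
  · intro i _
    refine DifferentiableAt.fun_sum fun j _ => ?_
    exact (differentiableAt_const _).mul
      ((differentiableAt_coord i z).mul (differentiableAt_conj j z))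

theorem mdz''_sf_right (ξ z η : Cn n) : mdz'' (fun w => sf S ξ w) z η = sf S ξ η := by
  ext α β
  simp only [mdz'', sf, Matrix.of_apply]
  rw [dz''_sum (f := fun i w => ∑ j, (S α β i j : ℂ) * (ξ i * star (w j)))]
  · refine Finset.sum_congr rfl fun i _ => ?_
    rw [dz''_sum (f := fun j w => (S α β i j : ℂ) * (ξ i * star (w j)))]
    · refine Finset.sum_congr rfl fun j _ => ?_
      rw [dz''_mul (g := fun w => ξ i * star (w j)) (differentiableAt_const _)
        ((differentiableAt_const _).mul (differentiableAt_conj j z)), dz''_const,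
        dz''_mul (differentiableAt_const _) (differentiableAt_conj j z), dz''_const, dz''_conj]
      ring
    · intro j _
      exact (differentiableAt_const _).mul
        ((differentiableAt_const _).mul (differentiableAt_conj j z))
  · intro i _
    refine DifferentiableAt.fun_sum fun j _ => ?_
    exact (differentiableAt_const _).mul
      ((differentiableAt_const _).mul (differentiableAt_conj j z))

theorem diff_hS (α β : Fin r) (z : Cn n) : DifferentiableAt ℝ (fun w => hS S w α β) z := by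
  simp only [hS, Matrix.sub_apply]
  exact (differentiableAt_const _).sub (diff_sf_diag S α β z)

theorem mdz'_hS (z ξ : Cn n) : mdz' (hS S) z ξ = -sf S ξ z := by
  rw [← mdz'_sf]
  ext α β
  simp only [mdz', hS, Matrix.of_apply, Matrix.sub_apply, Matrix.neg_apply]
  rw [dz'_sub (differentiableAt_const _) (diff_sf_diag S α β z), dz'_const, zero_sub]

theorem mdz''_hS (z ξ : Cn n) : mdz'' (hS S) z ξ = -sf S z ξ := by
  rw [← mdz''_sf]
  ext α β
  simp only [mdz'', hS, Matrix.of_apply, Matrix.sub_apply, Matrix.neg_apply]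
  rw [dz''_sub (differentiableAt_const _) (diff_sf_diag S α β z), dz''_const, zero_sub]

theorem curv_hS (z ξ η : Cn n) (hdet : (hS S z).det ≠ 0) :
    chernCurvature (hS S) z ξ η * hS S z = sf S ξ η + sf S ξ z * (hS S z)⁻¹ * sf S z η := by
  rw [chernCurvature_mul (fun α β => diff_hS S α β z) _ hdet]
  · have e : mdz'' (fun w => mdz' (hS S) w ξ) z η = -sf S ξ η := by
      rw [← mdz''_sf_right S ξ z η]
      ext α β
      simp only [mdz'_hS, mdz'', Matrix.of_apply, Matrix.neg_apply]
      rw [dz''_neg]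
    rw [e, mdz'_hS, mdz''_hS]
    rw [neg_neg, neg_mul, neg_mul, mul_neg, neg_neg]
  · intro α β
    simp only [mdz'_hS, Matrix.neg_apply]
    exact (diff_sf_right S ξ α β z).neg

theorem sf_zero_right (ξ : Cn n) : sf S ξ 0 = 0 := by
  ext α β
  simp [sf]

theorem sf_zero_left (ξ : Cn n) : sf S 0 ξ = 0 := by
  ext α β
  simp [sf]

theorem hS_zero : hS S (0 : Cn n) = 1 := by
  rw [hS, sf_zero_left, sub_zero]

theorem curv_hS_zero (ξ η : Cn n) : chernCurvature (hS S) 0 ξ η = sf S ξ η := by
  have h := curv_hS S 0 ξ η (by rw [hS_zero, Matrix.det_one]; exact one_ne_zero)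
  rw [hS_zero, mul_one, sf_zero_right, zero_mul, zero_mul, add_zero] at h
  exact h

theorem sf_conjTranspose (hsym : ∀ α β i j, S β α j i = S α β i j) (x y : Cn n) :
    (sf S x y)ᴴ = sf S y x := by
  ext α β
  simp only [Matrix.conjTranspose_apply, sf, Matrix.of_apply, star_sum, star_mul', star_star]
  rw [Finset.sum_comm]
  refine Finset.sum_congr rfl fun i _ => Finset.sum_congr rfl fun j _ => ?_
  rw [← hsym α β i j]
  simp only [Complex.star_def, Complex.conj_ofReal]
  ring

/-- Griffiths positivity of the quadratic metric. -/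
theorem griffiths_hS (hsym : ∀ α β i j, S β α j i = S α β i j)
    (hpos : ∀ ξ : Cn n, ξ ≠ 0 → (sf S ξ ξ).PosDef) (z : Cn n) (hz : (hS S z).PosDef) :
    GriffithsPositiveAt (hS S) z := by
  intro ξ hξ
  rw [curv_hS S z ξ ξ hz.det_pos.ne']
  refine (hpos ξ hξ).add_posSemidef ?_
  rw [← sf_conjTranspose S hsym ξ z]
  exact hz.inv.posSemidef.mul_mul_conjTranspose_same (sf S ξ z)

end general

/-- The tensor `R0 + δ Id`. -/
noncomputable def Sd (δ : ℝ) (a b i j : Fin 8) : ℝ :=
  (R0 a b i j : ℝ) + δ * (if a = b then 1 else 0) * (if i = j then 1 else 0)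

theorem Sd_symm (δ : ℝ) (α β i j : Fin 8) : Sd δ β α j i = Sd δ α β i j := by
  unfold Sd
  rw [R0_symm]
  simp only [eq_comm]

/-- squared norm -/
noncomputable def nsq (x : Fin 8 → ℂ) : ℝ := ∑ i, Complex.normSq (x i)

theorem nsq_nonneg (x : Fin 8 → ℂ) : 0 ≤ nsq x := Finset.sum_nonneg fun _ _ => Complex.normSq_nonneg _

theorem nsq_pos {x : Fin 8 → ℂ} (hx : x ≠ 0) : 0 < nsq x := by
  obtain ⟨i, hi⟩ := Function.ne_iff.1 hx
  refine Finset.sum_pos' (fun i _ => Complex.normSq_nonneg _) ⟨i, Finset.mem_univ i, ?_⟩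
  exact Complex.normSq_pos.2 hi

theorem dot_sf (δ : ℝ) (x ξ : Fin 8 → ℂ) :
    star x ⬝ᵥ ((sf (Sd δ) ξ ξ) *ᵥ x) = qf x ξ + ((δ * nsq x * nsq ξ : ℝ) : ℂ) := by
  have h1 : star x ⬝ᵥ ((sf (Sd δ) ξ ξ) *ᵥ x) =
      ∑ a, ∑ b, ∑ i, ∑ j, (Sd δ a b i j : ℂ) * (star (x a) * x b * (ξ i * star (ξ j))) := by
    simp only [dotProduct, Matrix.mulVec, sf, Matrix.of_apply, Pi.star_apply, Finset.mul_sum,
      Finset.sum_mul]
    refine Finset.sum_congr rfl fun a _ => Finset.sum_congr rfl fun b _ =>
      Finset.sum_congr rfl fun i _ => Finset.sum_congr rfl fun j _ => ?_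
    ring
  have h2 : ((δ * nsq x * nsq ξ : ℝ) : ℂ) = ∑ a, ∑ b, ∑ i, ∑ j,
      ((δ : ℂ) * (if a = b then 1 else 0) * (if i = j then 1 else 0)) *
        (star (x a) * x b * (ξ i * star (ξ j))) := by
    have : ∀ a b : Fin 8, ∑ i, ∑ j, ((δ : ℂ) * (if a = b then 1 else 0) * (if i = j then 1 else 0)) *
        (star (x a) * x b * (ξ i * star (ξ j))) =
        (δ : ℂ) * (if a = b then 1 else 0) * (star (x a) * x b) * ((nsq ξ : ℝ) : ℂ) := by
      intro a b
      unfold nsq
      push_cast
      rw [Finset.mul_sum]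
      refine Finset.sum_congr rfl fun i _ => ?_
      rw [Finset.sum_eq_single i]
      · rw [if_pos rfl, ← mul_star_self]; ring
      · intro j _ hj
        rw [if_neg (Ne.symm hj)]; ring
      · simp
    simp only [this]
    have e0 : ((δ * nsq x * nsq ξ : ℝ) : ℂ) =
        ∑ a, (δ : ℂ) * ((Complex.normSq (x a) : ℝ) : ℂ) * ((nsq ξ : ℝ) : ℂ) := by
      rw [← Finset.sum_mul, ← Finset.mul_sum, Complex.ofReal_mul, Complex.ofReal_mul, nsq,
        Complex.ofReal_sum]
    rw [e0]
    refine Finset.sum_congr rfl fun a _ => ?_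
    rw [Finset.sum_eq_single a]
    · rw [if_pos rfl, ← mul_star_self (x a)]; ring
    · intro b _ hb
      rw [if_neg (Ne.symm hb)]; ring
    · simp
  rw [h1, h2, qf]
  simp only [← Finset.sum_add_distrib]
  refine Finset.sum_congr rfl fun a _ => Finset.sum_congr rfl fun b _ =>
      Finset.sum_congr rfl fun i _ => Finset.sum_congr rfl fun j _ => ?_
  unfold Sd
  split_ifs <;> push_cast <;> ring

theorem sf_posDef {δ : ℝ} (hδ : 0 < δ) (ξ : Fin 8 → ℂ) (hξ : ξ ≠ 0) : (sf (Sd δ) ξ ξ).PosDef := by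
  refine Matrix.PosDef.of_dotProduct_mulVec_pos (sf_conjTranspose (Sd δ) (Sd_symm δ) ξ ξ)
    fun x hx => ?_
  rw [dot_sf]
  obtain ⟨t, ht, hq⟩ := qf_nonneg x ξ
  rw [hq, ← Complex.ofReal_add]
  have h1 := nsq_pos hx
  have h2 := nsq_pos hξ
  have : 0 < t + δ * nsq x * nsq ξ := by positivity
  exact_mod_cast this

theorem R0_le : ∀ a b i j : Fin 8, |R0 a b i j| ≤ 1 := by
  decide +kernel

theorem norm_qf_le (x ξ : Fin 8 → ℂ) : ‖qf x ξ‖ ≤ 64 * (nsq x * nsq ξ) := by
  have h1 : ‖qf x ξ‖ ≤ ∑ a, ∑ b, ∑ i, ∑ j, (‖x a‖ * ‖x b‖ * (‖ξ i‖ * ‖ξ j‖)) := by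
    unfold qf
    refine (norm_sum_le _ _).trans (Finset.sum_le_sum fun a _ => ?_)
    refine (norm_sum_le _ _).trans (Finset.sum_le_sum fun b _ => ?_)
    refine (norm_sum_le _ _).trans (Finset.sum_le_sum fun i _ => ?_)
    refine (norm_sum_le _ _).trans (Finset.sum_le_sum fun j _ => ?_)
    rw [norm_mul, norm_mul, norm_mul, norm_mul, norm_star, norm_star]
    have h : ‖((R0 a b i j : ℤ) : ℂ)‖ ≤ 1 := by
      rw [Complex.norm_intCast]
      exact_mod_cast R0_le a b i j
    have hp : 0 ≤ ‖x a‖ * ‖x b‖ * (‖ξ i‖ * ‖ξ j‖) := by positivity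
    calc _ ≤ 1 * (‖x a‖ * ‖x b‖ * (‖ξ i‖ * ‖ξ j‖)) := mul_le_mul_of_nonneg_right h hp
      _ = _ := one_mul _
  have h2 : ∑ a, ∑ b, ∑ i, ∑ j, (‖x a‖ * ‖x b‖ * (‖ξ i‖ * ‖ξ j‖)) =
      (∑ a, ‖x a‖) ^ 2 * (∑ i, ‖ξ i‖) ^ 2 := by
    simp only [← Finset.mul_sum, ← Finset.sum_mul]
    ring
  have h3 : ∀ y : Fin 8 → ℂ, (∑ a, ‖y a‖) ^ 2 ≤ 8 * nsq y := by
    intro y
    have := sq_sum_le_card_mul_sum_sq (s := (Finset.univ : Finset (Fin 8))) (f := fun a => ‖y a‖)
    simp only [Finset.card_univ, Fintype.card_fin] at this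
    have h8 : ((8 : ℕ) : ℝ) = 8 := by norm_num
    rw [h8] at this
    simp only [nsq, Complex.normSq_eq_norm_sq]
    exact this
  rw [h2] at h1
  have hx := h3 x
  have hξ := h3 ξ
  have p1 : 0 ≤ (∑ i, ‖ξ i‖) ^ 2 := by positivity
  calc _ ≤ _ := h1
    _ ≤ (8 * nsq x) * (8 * nsq ξ) := mul_le_mul hx hξ p1 (by have := nsq_nonneg x; positivity)
    _ = _ := by ring

theorem hS_posDef {δ : ℝ} (hδ1 : δ ≤ 1) (z : Cn 8) (hz : 65 * nsq z < 1) :
    (hS (Sd δ) z).PosDef := by
  refine Matrix.PosDef.of_dotProduct_mulVec_pos ?_ fun x hx => ?_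
  · unfold hS
    rw [Matrix.IsHermitian, Matrix.conjTranspose_sub, Matrix.conjTranspose_one,
      sf_conjTranspose (Sd δ) (Sd_symm δ)]
  · have e1 : star x ⬝ᵥ x = ((nsq x : ℝ) : ℂ) := by
      simp only [dotProduct, Pi.star_apply, nsq]
      push_cast
      refine Finset.sum_congr rfl fun i _ => ?_
      rw [← mul_star_self, mul_comm]
    have e2 : star x ⬝ᵥ (hS (Sd δ) z *ᵥ x) =
        ((nsq x : ℝ) : ℂ) - (qf x z + ((δ * nsq x * nsq z : ℝ) : ℂ)) := by
      rw [hS, Matrix.sub_mulVec, Matrix.one_mulVec, dotProduct_sub, dot_sf, e1]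
    obtain ⟨t, ht, hq⟩ := qf_nonneg x z
    have hb := norm_qf_le x z
    rw [hq, Complex.norm_real, Real.norm_of_nonneg ht] at hb
    rw [e2, hq]
    have hx' := nsq_pos hx
    have hz' := nsq_nonneg z
    have : 0 < nsq x - (t + δ * nsq x * nsq z) := by
      have h1 : δ * nsq x * nsq z ≤ nsq x * nsq z := by
        have : 0 ≤ nsq x * nsq z := by positivity
        nlinarith
      nlinarith
    have h2 : ((nsq x : ℝ) : ℂ) - ((t : ℂ) + ((δ * nsq x * nsq z : ℝ) : ℂ)) =
        ((nsq x - (t + δ * nsq x * nsq z) : ℝ) : ℂ) := by push_cast; ring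
    rw [h2]
    exact_mod_cast this

end Pool.Agent.W517.Gr
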