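import Pool.Agent.W517.Gr.ProjDefs
import Pool.Agent.W517.Gr.Est

set_option autoImplicit false

namespace Pool.Agent.W517.Gr

open Finset Filter Topology
open scoped ContDiff ComplexOrder Matrix

section general

variable {n r : ℕ}

theorem chernCurvature_const (A : Matrix (Fin r) (Fin r) ℂ) (z ξ η' : Cn n) :
    chernCurvature (fun _ => A) z ξ η' = 0 := by
  have h1 : ∀ w, chernConnection (fun _ : Cn n => A) ξ w = 0 := fun w => by
    unfold chernConnection
    have : mdz' (fun _ : Cn n => A) w ξ = 0 := by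
      ext α β
      simp only [mdz', Matrix.of_apply, Matrix.zero_apply]
      exact dz'_const _ _ _
    rw [this, zero_mul]
  unfold chernCurvature
  have h2 : chernConnection (fun _ : Cn n => A) ξ = fun _ => 0 := funext h1
  rw [h2]
  ext α β
  simp only [mdz'', Matrix.of_apply, Matrix.neg_apply, Matrix.zero_apply]
  rw [dz''_const, neg_zero]

/-- `|f|^{-2}` is flat for `f` holomorphic. -/
theorem flat_twist {f : Cn n → ℂ} {p : Cn n} (hf : ContDiffAt ℂ 2 f p) (h0 : f p ≠ 0)
    (ξ η' : Cn n) :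
    dz'' (fun w => dz' (fun w => (f w * star (f w))⁻¹) w ξ / (f w * star (f w))⁻¹) p η' = 0 := by
  have hfd : DifferentiableAt ℂ f p := hf.differentiableAt (by norm_num)
  have e1 : ∀ᶠ w in 𝓝 p, DifferentiableAt ℂ f w := by
    filter_upwards [hf.eventually (by norm_num)] with w hw
    exact hw.differentiableAt (by norm_num)
  have e2 : ∀ᶠ w in 𝓝 p, f w ≠ 0 := hfd.continuousAt.eventually_ne h0
  have hcongr : (fun w => dz' (fun w => (f w * star (f w))⁻¹) w ξ / (f w * star (f w))⁻¹) =ᶠ[𝓝 p]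
      fun w => -(fderiv ℂ f w ξ / f w) := by
    filter_upwards [e1, e2] with w h1 h2
    have h1r : DifferentiableAt ℝ f w := h1.restrictScalars ℝ
    have h1s : DifferentiableAt ℝ (fun w => star (f w)) w :=
      (hasFDerivAt_star h1r.hasFDerivAt).differentiableAt
    have h3 : star (f w) ≠ 0 := star_ne_zero.2 h2
    have := dz'_inv (f := fun w => f w * star (f w)) (h1r.mul h1s) (mul_ne_zero h2 h3) ξ
    rw [this, dz'_mul h1r h1s, dz'_star h1r, dz''_holo h1, star_zero, mul_zero, add_zero,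
      dz'_holo h1]
    field_simp
  rw [dz''_congr hcongr]
  refine dz''_holo ?_ η'
  have h1 : ContDiffAt ℂ 1 (fderiv ℂ f) p := hf.fderiv_right (by norm_num)
  have h2 : DifferentiableAt ℂ (fderiv ℂ f) p := h1.differentiableAt (by norm_num)
  have h3 : DifferentiableAt ℂ (fun w => fderiv ℂ f w ξ) p := h2.clm_apply (differentiableAt_const ξ)
  simp only [div_eq_mul_inv]
  exact (h3.mul (hfd.inv h0)).neg

/-- affine chart -/
def ins (i : Fin (n + 1)) (w : Cn n) : Cn (n + 1) := Fin.insertNth i (1 : ℂ) w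

theorem ins_same (i : Fin (n + 1)) (w : Cn n) : ins i w i = 1 := by
  simp [ins]

theorem ins_succAbove (i : Fin (n + 1)) (w : Cn n) (j : Fin n) : ins i w (i.succAbove j) = w j := by
  simp [ins]

theorem ins_ne (i : Fin (n + 1)) (w : Cn n) : ins i w ≠ 0 := fun h => by
  have := congrFun h i
  rw [ins_same] at this
  exact one_ne_zero this

theorem contDiff_ins (i : Fin (n + 1)) (k : Fin (n + 1)) :
    ContDiff ℂ 2 fun w : Cn n => ins i w k := by
  rcases Fin.eq_self_or_eq_succAbove i k with rfl | ⟨j, rfl⟩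
  · simp only [ins_same]
    exact contDiff_const
  · simp only [ins_succAbove]
    exact contDiff_apply ℂ ℂ j

theorem continuous_ins (i : Fin (n + 1)) : Continuous (ins i : Cn n → Cn (n + 1)) :=
  continuous_pi fun k => (contDiff_ins i k).continuous

theorem ip_ins (i : Fin (n + 1)) (w : Cn n) : ip (ins i w) (ins i w) = 1 + ip w w := by
  unfold ip
  rw [Fin.sum_univ_succAbove _ i, ins_same]
  simp only [ins_succAbove, star_one, mul_one]

/-- affine coordinates `Z_{k+1} / Z_0`. -/
noncomputable def qz (Z : Cn (n + 1)) : Cn n := fun k => Z k.succ / Z 0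

theorem ip_qz (Z : Cn (n + 1)) (hZ : Z 0 ≠ 0) :
    ip Z Z = (Z 0 * star (Z 0)) * (1 + ip (qz Z) (qz Z)) := by
  unfold ip qz
  rw [Fin.sum_univ_succ, mul_add, mul_one, Finset.mul_sum]
  congr 1
  refine Finset.sum_congr rfl fun k _ => ?_
  have : star (Z 0) ≠ 0 := star_ne_zero.2 hZ
  rw [star_div₀]
  field_simp

theorem contDiffAt_qz_ins (i : Fin (n + 1)) (p : Cn n) (hp : ins i p 0 ≠ 0) :
    ContDiffAt ℂ 2 (fun w => qz (ins i w)) p := by
  rw [contDiffAt_pi]
  intro k
  simp only [qz]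
  exact (contDiff_ins i k.succ).contDiffAt.div (contDiff_ins i 0).contDiffAt hp

theorem dz'_ins_same (i : Fin (n + 1)) (p ξ : Cn n) : dz' (fun w => ins i w i) p ξ = 0 := by
  simp only [ins_same]
  exact dz'_const _ _ _

theorem dz'_ins_succAbove (i : Fin (n + 1)) (p ξ : Cn n) (j : Fin n) :
    dz' (fun w => ins i w (i.succAbove j)) p ξ = ξ j := by
  simp only [ins_succAbove]
  exact dz'_coord j p ξ

/-- The coordinate change is an immersion. -/
theorem fderiv_qz_ins_ne (i : Fin (n + 1)) (p ξ : Cn n) (hp : ins i p 0 ≠ 0) (hξ : ξ ≠ 0) :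
    fderiv ℂ (fun w => qz (ins i w)) p ξ ≠ 0 := by
  intro h
  have hQ : DifferentiableAt ℂ (fun w => qz (ins i w)) p :=
    (contDiffAt_qz_ins i p hp).differentiableAt (by norm_num)
  have hk : ∀ k : Fin n, dz' (fun w => ins i w k.succ) p ξ =
      qz (ins i p) k * dz' (fun w => ins i w 0) p ξ := by
    intro k
    have hQk : DifferentiableAt ℂ (fun w => qz (ins i w) k) p := (differentiableAt_pi.1 hQ) k
    have h0 : DifferentiableAt ℂ (fun w : Cn n => ins i w 0) p :=
      (contDiff_ins i 0).differentiable (by norm_num) |>.differentiableAt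
    have e : (fun w => ins i w k.succ) =ᶠ[𝓝 p] fun w => qz (ins i w) k * ins i w 0 := by
      filter_upwards [h0.continuousAt.eventually_ne hp] with w hw
      simp only [qz]
      rw [div_mul_cancel₀ _ hw]
    have hz : dz' (fun w => qz (ins i w) k) p ξ = 0 := by
      rw [dz'_holo hQk]
      have := congrFun h k
      rw [Pi.zero_apply] at this
      rw [← this]
      have hpi : HasFDerivAt (fun w => qz (ins i w) k)
          ((ContinuousLinearMap.proj k).comp (fderiv ℂ (fun w => qz (ins i w)) p)) p :=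
        (hasFDerivAt_pi'.1 hQ.hasFDerivAt) k
      rw [hpi.fderiv]
      rfl
    rw [dz'_congr e, dz'_mul (hQk.restrictScalars ℝ) (h0.restrictScalars ℝ), hz, zero_mul, zero_add]
  have h00 : dz' (fun w => ins i w 0) p ξ = 0 := by
    rcases Fin.eq_zero_or_eq_succ i with rfl | ⟨k, rfl⟩
    · exact dz'_ins_same 0 p ξ
    · have h1 := hk k
      rw [dz'_ins_same] at h1
      have h2 : qz (ins k.succ p) k ≠ 0 := by
        simp only [qz]
        rw [ins_same]
        exact div_ne_zero one_ne_zero hp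
      exact (mul_eq_zero.1 h1.symm).resolve_left h2
  have hall : ∀ k : Fin (n + 1), dz' (fun w => ins i w k) p ξ = 0 := by
    intro k
    rcases Fin.eq_zero_or_eq_succ k with rfl | ⟨k, rfl⟩
    · exact h00
    · rw [hk k, h00, mul_zero]
  apply hξ
  funext j
  rw [← dz'_ins_succAbove i p ξ j]
  exact hall _

end general

variable {τ η : ℝ} (c : Cutoff τ η) (S : Fin 8 → Fin 8 → Fin 8 → Fin 8 → ℝ)

/-- The metric on `O(1)^8` in homogeneous coordinates. -/
noncomputable def HH (Z : Cn 9) : Matrix (Fin 8) (Fin 8) ℂ := (ip Z Z)⁻¹ • gf c S (qz Z)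

theorem ip_self_pos {n : ℕ} {Z : Cn n} (hZ : Z ≠ 0) : 0 < ip Z Z := by
  rw [ip_self]
  obtain ⟨i, hi⟩ := Function.ne_iff.1 hZ
  have : 0 < ∑ i, Complex.normSq (Z i) :=
    Finset.sum_pos' (fun i _ => Complex.normSq_nonneg _)
      ⟨i, Finset.mem_univ i, Complex.normSq_pos.2 hi⟩
  exact_mod_cast this

theorem gf_zero : gf c S 0 = 1 := by
  rw [gf, Kf, sf_zero_right, smul_zero, sub_zero]

theorem gf_far (w : Cn 8) (h : τ ≤ nsq w) : gf c S w = 1 := by
  rw [gf, Kf, (c.far _ h).1, Complex.ofReal_zero, zero_smul, sub_zero]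

theorem gf_one_near {Z : Cn 9} (hZ : Z ≠ 0) (h0 : Z 0 = 0) :
    ∀ᶠ Y in 𝓝 Z, gf c S (qz Y) = 1 := by
  have hopen : IsOpen {Y : Cn 9 | τ * Complex.normSq (Y 0) < ∑ k : Fin 8, Complex.normSq (Y k.succ)} := by
    refine isOpen_lt ?_ ?_
    · exact continuous_const.mul (Complex.continuous_normSq.comp (continuous_apply 0))
    · exact continuous_finsetSum _ fun k _ => Complex.continuous_normSq.comp (continuous_apply k.succ)
  have hmem : Z ∈ {Y : Cn 9 | τ * Complex.normSq (Y 0) < ∑ k : Fin 8, Complex.normSq (Y k.succ)} := by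
    change τ * Complex.normSq (Z 0) < ∑ k : Fin 8, Complex.normSq (Z k.succ)
    rw [h0, map_zero, mul_zero]
    obtain ⟨i, hi⟩ := Function.ne_iff.1 hZ
    rcases Fin.eq_zero_or_eq_succ i with rfl | ⟨k, rfl⟩
    · exact absurd h0 hi
    · exact Finset.sum_pos' (fun i _ => Complex.normSq_nonneg _)
        ⟨k, Finset.mem_univ k, Complex.normSq_pos.2 hi⟩
  filter_upwards [hopen.mem_nhds hmem] with Y hY
  by_cases hY0 : Y 0 = 0
  · have : qz Y = 0 := by
      funext k
      simp only [qz, hY0, div_zero, Pi.zero_apply]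
    rw [this, gf_zero]
  · refine gf_far c S _ ?_
    have hpos : 0 < Complex.normSq (Y 0) := Complex.normSq_pos.2 hY0
    simp only [nsq, qz, Complex.normSq_div]
    rw [← Finset.sum_div, le_div_iff₀ hpos]
    exact hY.le

theorem contDiffAt_HH (hτ : 0 < τ) {Z : Cn 9} (hZ : Z ≠ 0) (α β : Fin 8) :
    ContDiffAt ℝ ∞ (fun Z => HH c S Z α β) Z := by
  have hne : ip Z Z ≠ 0 := (ip_self_pos hZ).ne'
  have h1 : ContDiffAt ℝ ∞ (fun Z : Cn 9 => (ip Z Z)⁻¹) Z := contDiff_ip.contDiffAt.inv hne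
  by_cases h0 : Z 0 = 0
  · have e : (fun Z => HH c S Z α β) =ᶠ[𝓝 Z] fun Y => (ip Y Y)⁻¹ * (1 : Matrix (Fin 8) (Fin 8) ℂ) α β := by
      filter_upwards [gf_one_near c S hZ h0] with Y hY
      rw [HH, hY, Matrix.smul_apply, smul_eq_mul]
    refine ContDiffAt.congr_of_eventuallyEq ?_ e
    exact h1.mul contDiffAt_const
  · simp only [HH, Matrix.smul_apply, smul_eq_mul]
    refine h1.mul ?_
    have hq : ContDiffAt ℝ ∞ (fun Z : Cn 9 => qz Z) Z := by
      rw [contDiffAt_pi]
      intro k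
      simp only [qz, div_eq_mul_inv]
      refine ContDiffAt.mul ?_ (ContDiffAt.inv ?_ h0)
      · exact (coordL (k.succ : Fin 9)).contDiff.contDiffAt
      · exact (coordL (0 : Fin 9)).contDiff.contDiffAt
    exact (contDiff_gf c S α β).contDiffAt.comp Z hq

variable {S}

theorem isMetric_HH (hsym : ∀ α β i j, S β α j i = S α β i j) {B : ℝ}
    (hB : ∀ a b i j, |S a b i j| ≤ B) (hτ : 0 < τ) (hτB : 64 * B * τ < 1) :
    IsMetricOnO1 (HH c S) := by
  refine ⟨fun α β Z hZ => (contDiffAt_HH c S hτ hZ α β).contDiffWithinAt, fun Z hZ => ?_,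
    fun a Z ha hZ => ?_⟩
  · unfold HH
    refine (gf_posDef c hsym hB hτ hτB _).smul ?_
    have := ip_self_pos hZ
    rw [Complex.lt_def] at this
    have h2 : ip Z Z = ((ip Z Z).re : ℂ) := Complex.ext (by simp) (by simpa using this.2.symm)
    rw [h2, ← Complex.ofReal_inv]
    have h3 : (0 : ℝ) < (ip Z Z).re := by simpa using this.1
    exact_mod_cast inv_pos.2 h3
  · have h1 : qz (a • Z) = qz Z := by
      funext k
      simp only [qz, Pi.smul_apply, smul_eq_mul]
      rw [mul_div_mul_left _ _ ha]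
    have h2 : ip (a • Z) (a • Z) = (a * star a) * ip Z Z := by
      unfold ip
      rw [Finset.mul_sum]
      refine Finset.sum_congr rfl fun k _ => ?_
      simp only [Pi.smul_apply, smul_eq_mul, star_mul']
      ring
    unfold HH
    rw [h1, h2, smul_smul]
    congr 1
    have h3 : a * star a ≠ 0 := mul_ne_zero ha (star_ne_zero.2 ha)
    rw [mul_inv, ← mul_assoc, mul_inv_cancel₀ h3, one_mul]

/-- Griffiths positivity in all affine charts. -/
theorem griffiths_chart (hsym : ∀ α β i j, S β α j i = S α β i j) {B δ : ℝ}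
    (hB : ∀ a b i j, |S a b i j| ≤ B) (hτ : 0 < τ) (hτB : 64 * B * τ < 1) (hδ : 0 < δ)
    (hδ1 : δ ≤ 1) (hsmall : (2 + 64 * B) * τ + 64 * B * η < δ)
    (hS : ∀ x ξ : Fin 8 → ℂ, (δ - 1) * (nsq x * nsq ξ) ≤ (sx S x ξ ξ).re)
    (i : Fin 9) (p : Cn 8) : GriffithsPositiveAt (inChart i (HH c S)) p := by
  have hg : ∀ w, (gf c S w).PosDef := fun w => gf_posDef c hsym hB hτ hτB w
  have h0pos : ∀ w, GriffithsPositiveAt (h0 c (S := S)) w := fun w =>
    griffiths_h0 c hsym w (hg w) fun ξ hξ =>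
      main_estimate c hsym hB hτ hτB hδ hδ1 hsmall hS w ξ hξ
  have hin : inChart i (HH c S) = fun w => HH c S (ins i w) := rfl
  intro ξ hξ
  by_cases hp : ins i p 0 = 0
  · have e : inChart i (HH c S) =ᶠ[𝓝 p] fun w => fs w • (1 : Matrix (Fin 8) (Fin 8) ℂ) := by
      filter_upwards [(continuous_ins i).continuousAt.eventually
        (gf_one_near c S (ins_ne i p) hp)] with w hw
      rw [hin]
      simp only [HH]
      rw [hw, ip_ins, fs]
    rw [chernCurvature_congr e, e.self_of_nhds]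
    have ht := chernCurvature_twist (u := fs) (h := fun _ : Cn 8 => (1 : Matrix (Fin 8) (Fin 8) ℂ))
      (z := p) (two_of_infty contDiff_fs _) (fs_ne p) (fun α β => contDiffAt_const)
      (by rw [Matrix.det_one]; exact one_ne_zero) ξ ξ
    rw [fs_curv, chernCurvature_const, add_zero] at ht
    rw [ht, smul_mul_smul_comm, one_mul, FS_real]
    refine Matrix.PosDef.one.smul ?_
    have h1 := (FS_lower p ξ).2.1 hξ
    have h2 : 0 < fs p := by
      unfold fs
      rw [ip_self]
      have h1 : (0 : ℝ) < (1 + ∑ i, Complex.normSq (p i))⁻¹ := by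
        have := Finset.sum_nonneg fun (i : Fin 8) (_ : i ∈ Finset.univ) => Complex.normSq_nonneg (p i)
        positivity
      exact_mod_cast h1
    have h1' : (0 : ℂ) < (((nsq ξ * (1 + nsq p) - ‖ip ξ p‖ ^ 2) / (1 + nsq p) ^ 2 : ℝ) : ℂ) := by
      exact_mod_cast h1
    exact mul_pos h1' h2
  · have hins0 : ContDiffAt ℂ 2 (fun w : Cn 8 => ins i w 0) p := (contDiff_ins i 0).contDiffAt
    have hne : ∀ᶠ w in 𝓝 p, ins i w 0 ≠ 0 := hins0.continuousAt.eventually_ne hp
    have e : inChart i (HH c S) =ᶠ[𝓝 p]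
        fun w => (ins i w 0 * star (ins i w 0))⁻¹ • h0 c (S := S) (qz (ins i w)) := by
      filter_upwards [hne] with w hw
      rw [hin]
      simp only [HH, h0]
      rw [smul_smul, ip_qz _ hw, fs, mul_inv]
    have hQ := contDiffAt_qz_ins i p hp
    have hh0 : ∀ α β, ContDiff ℝ ∞ fun w => h0 c (S := S) w α β := fun α β => by
      simp only [h0, Matrix.smul_apply, smul_eq_mul]
      exact contDiff_fs.mul (contDiff_gf c S α β)
    have hdet0 : ∀ w, (h0 c (S := S) w).det ≠ 0 := fun w => by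
      rw [h0, Matrix.det_smul]
      exact mul_ne_zero (pow_ne_zero _ (fs_ne w)) (hg w).det_pos.ne'
    have hQr : ContDiffAt ℝ 2 (fun w => qz (ins i w)) p := hQ.restrict_scalars ℝ
    have hhQ : ∀ α β, ContDiffAt ℝ 2 (fun w => h0 c (S := S) (qz (ins i w)) α β) p := fun α β =>
      ContDiffAt.comp (g := fun w => h0 c (S := S) w α β) p (two_of_infty (hh0 α β) _) hQr
    have hu : ContDiffAt ℝ 2 (fun w : Cn 8 => (ins i w 0 * star (ins i w 0))⁻¹) p := by
      refine ContDiffAt.inv (ContDiffAt.mul (hins0.restrict_scalars ℝ) ?_) ?_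
      · exact (Complex.conjCLE.toContinuousLinearMap.contDiff.contDiffAt).comp p
          (hins0.restrict_scalars ℝ)
      · exact mul_ne_zero hp (star_ne_zero.2 hp)
    have hu0 : (ins i p 0 * star (ins i p 0))⁻¹ ≠ 0 :=
      inv_ne_zero (mul_ne_zero hp (star_ne_zero.2 hp))
    rw [chernCurvature_congr e, e.self_of_nhds,
      chernCurvature_twist (h := fun w => h0 c (S := S) (qz (ins i w))) hu hu0 hhQ (hdet0 _) ξ ξ,
      flat_twist hins0 hp, neg_zero, zero_smul, zero_add,
      chernCurvature_comp hQ (fun α β => two_of_infty (hh0 α β) _) (hdet0 _) ξ ξ, Matrix.mul_smul]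
    refine (h0pos (qz (ins i p)) _ (fderiv_qz_ins_ne i p ξ hp hξ)).smul ?_
    have hn : (0 : ℝ) < (Complex.normSq (ins i p 0))⁻¹ := inv_pos.2 (Complex.normSq_pos.2 hp)
    have : (ins i p 0 * star (ins i p 0))⁻¹ = (((Complex.normSq (ins i p 0))⁻¹ : ℝ) : ℂ) := by
      rw [mul_star_self, Complex.ofReal_inv]
    rw [this]
    exact_mod_cast hn

/-- In the chart `U_0` the metric is `h0`. -/
theorem inChart_zero : inChart 0 (HH c S) = h0 c (S := S) := by
  funext w
  have hin : inChart 0 (HH c S) w = HH c S (ins 0 w) := rfl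
  rw [hin]
  unfold HH h0 fs
  rw [ip_ins]
  congr 2
  funext k
  simp only [qz]
  rw [ins_same, div_one]
  exact ins_succAbove 0 w k

/-- curvature at the centre of the chart. -/
theorem curv_h0_zero (ξ η' : Cn 8) :
    chernCurvature (h0 c (S := S)) 0 ξ η' = ip ξ η' • 1 + sf S ξ η' := by
  have hdet : (gf c S 0).det ≠ 0 := by rw [gf_zero, Matrix.det_one]; exact one_ne_zero
  rw [curv_h0 c 0 ξ η' hdet]
  have h1 := curv_gf c S 0 ξ η' hdet
  have hn : nsq (0 : Cn 8) = 0 := by simp [nsq]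
  have hip1 : ∀ a : Cn 8, ip a 0 = 0 := fun a => by simp [ip]
  have hip2 : ∀ a : Cn 8, ip 0 a = 0 := fun a => by simp [ip]
  rw [gf_zero, mul_one, mdz'_gf, mdz'_Kf, hip1, sf_zero_right, sf_zero_right, smul_zero, smul_zero,
    add_zero, neg_zero, zero_mul, zero_mul, add_zero] at h1
  rw [h1]
  congr 1
  · congr 1
    unfold FS
    rw [hip1, hip1]
    ring
  · unfold Lev
    rw [hn, c.zero, hip1, hip2, sf_zero_right, sf_zero_left, sf_zero_right]
    simp

theorem contDiff_h0 (α β : Fin 8) : ContDiff ℝ ∞ fun w => h0 c (S := S) w α β := by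
  simp only [h0, Matrix.smul_apply, smul_eq_mul]
  exact contDiff_fs.mul (contDiff_gf c S α β)

theorem curv_h0_entries (δ : ℝ) : hdet (fun a b i j : Fin 8 =>
    chernCurvature (h0 c (S := Sd (δ - 1))) 0 (Pi.single i 1) (Pi.single j 1) a b) =
      ((hdet (Sd δ) : ℝ) : ℂ) := by
  have h : (fun a b i j : Fin 8 =>
      chernCurvature (h0 c (S := Sd (δ - 1))) 0 (Pi.single i 1) (Pi.single j 1) a b) =
      fun a b i j => Complex.ofRealHom (Sd δ a b i j) := by
    funext a b i j
    rw [curv_h0_zero, Matrix.add_apply, Matrix.smul_apply, smul_eq_mul]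
    have h1 : sf (Sd (δ - 1)) (Pi.single i (1 : ℂ)) (Pi.single j (1 : ℂ)) a b =
        ((Sd (δ - 1) a b i j : ℝ) : ℂ) := by
      simp only [sf, Matrix.of_apply]
      rw [Finset.sum_eq_single i, Finset.sum_eq_single j]
      · simp
      · intro j' _ hj'
        simp [hj']
      · simp
      · intro i' _ hi'
        refine Finset.sum_eq_zero fun j' _ => ?_
        simp [Pi.single_apply, hi']
      · simp
    have h2 : ip (Pi.single i (1 : ℂ) : Cn 8) (Pi.single j (1 : ℂ)) = if i = j then 1 else 0 := by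
      unfold ip
      rw [Finset.sum_eq_single i]
      · by_cases hij : i = j
        · subst hij; simp
        · simp [hij]
      · intro k _ hk
        simp [hk]
      · simp
    rw [h1, h2, Matrix.one_apply]
    unfold Sd
    simp only [Complex.ofRealHom_eq_coe]
    split_ifs <;> push_cast <;> ring
  rw [h, hdet_map]
  rfl

theorem Sd_bound {δ : ℝ} (hδ : 0 < δ) (hδ1 : δ ≤ 1) (a b i j : Fin 8) : |Sd (δ - 1) a b i j| ≤ 2 := by
  unfold Sd
  have h1 : |((R0 a b i j : ℤ) : ℝ)| ≤ 1 := by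
    have := R0_le a b i j
    have h : ((|R0 a b i j| : ℤ) : ℝ) ≤ 1 := by exact_mod_cast this
    rwa [Int.cast_abs] at h
  have h2 : |(δ - 1) * (if a = b then 1 else 0) * (if i = j then 1 else 0)| ≤ 1 := by
    split_ifs <;> simp <;> rw [abs_le] <;> constructor <;> linarith
  calc _ ≤ |((R0 a b i j : ℤ) : ℝ)| +
        |(δ - 1) * (if a = b then 1 else 0) * (if i = j then 1 else 0)| := abs_add_le _ _
    _ ≤ 2 := by linarith

/-- **The counterexample on projective space.** -/
theorem exists_proj : ∃ h : Cn 9 → Matrix (Fin 8) (Fin 8) ℂ, IsMetricOnO1 h ∧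
    (∀ (i : Fin 9) (w : Cn 8), GriffithsPositiveAt (inChart i h) w) ∧
    evalForm (realFrame fun i : Fin 8 => (Pi.single i 1 : Cn 8))
      (chernForm (inChart 0 h) 8 0).1 < 0 := by
  obtain ⟨δ, hδ, hδ1, hneg⟩ := exists_delta
  have hτ : 0 < δ / 1000 := by positivity
  have hη : 0 < δ / 1000 := by positivity
  obtain ⟨c⟩ := exists_Cutoff hτ hη
  have hS : ∀ x ξ : Fin 8 → ℂ, (δ - 1) * (nsq x * nsq ξ) ≤ (sx (Sd (δ - 1)) x ξ ξ).re := by
    intro x ξ
    unfold sx
    rw [dot_sf]
    obtain ⟨t, ht, hq⟩ := qf_nonneg x ξ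
    rw [hq, ← Complex.ofReal_add, Complex.ofReal_re]
    linarith
  refine ⟨HH c (Sd (δ - 1)), isMetric_HH c (Sd_symm _) (Sd_bound hδ hδ1) hτ (by linarith),
    griffiths_chart c (Sd_symm _) (Sd_bound hδ hδ1) hτ (by linarith) hδ hδ1 (by linarith) hS, ?_⟩
  rw [inChart_zero, eval_chernForm_top, curv_h0_entries, ← Complex.ofReal_pow, ← Complex.ofReal_div]
  have : hdet (Sd δ) / Real.pi ^ 8 < 0 := div_neg_of_neg_of_pos hneg (by positivity)
  exact_mod_cast this

end Pool.Agent.W517.Gr
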