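import Pool.Agent.W517.Gr.Defs

/-!
# Hermitian metrics on `O(1)^r` over projective space

A Hermitian metric on the holomorphic vector bundle `O(1) ⊗ ℂʳ` over `ℙⁿ` is the same as a function
`h` on `ℂⁿ⁺¹ ∖ {0}` with values in the positive definite Hermitian matrices such that
`|c|² h(cZ) = h(Z)`: if `ℓ, ℓ'` are linear forms on `ℂⁿ⁺¹`, that is global sections of `O(1)`, then
`⟨ℓ ⊗ e_α, ℓ' ⊗ e_β⟩ = ℓ(Z) conj(ℓ'(Z)) h_αβ(Z)` at the point `[Z]`.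
-/

set_option autoImplicit false

namespace Pool.Agent.W517.Gr

open scoped ContDiff ComplexOrder Matrix

/-- `h` is a smooth Hermitian metric on the bundle `O(1)^r` over `ℙⁿ`, in homogeneous
coordinates. -/
def IsMetricOnO1 {n r : ℕ} (h : Cn (n + 1) → Matrix (Fin r) (Fin r) ℂ) : Prop :=
  (∀ α β, ContDiffOn ℝ ∞ (fun Z => h Z α β) {Z | Z ≠ 0}) ∧ (∀ Z, Z ≠ 0 → (h Z).PosDef) ∧
    ∀ (c : ℂ) (Z : Cn (n + 1)), c ≠ 0 → Z ≠ 0 → (c * star c) • h (c • Z) = h Z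

/-- The metric over the standard affine chart `w ↦ [w_0 : ⋯ : w_{i-1} : 1 : w_i : ⋯ : w_{n-1}]` of
`ℙⁿ`: its Gram matrix in the holomorphic frame `Z_i ⊗ e_α` of `O(1)^r`, which equals
`h(w_0, …, 1, …, w_{n-1})`. -/
def inChart {n r : ℕ} (i : Fin (n + 1)) (h : Cn (n + 1) → Matrix (Fin r) (Fin r) ℂ) (w : Cn n) :
    Matrix (Fin r) (Fin r) ℂ :=
  h (Fin.insertNth i (1 : ℂ) w)

end Pool.Agent.W517.Gr
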